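import Mathlib

/-!
# P1: polynomial hulls over a finite index type (generic copy of Helper34.PH1, PH2)
-/

set_option autoImplicit false
set_option linter.unusedSectionVars false

namespace Pool.Agent.Lib.H14P

open MvPolynomial Metric Filter Asymptotics Bornology Set


/-- the polynomially convex hull. -/
def hull {ι : Type} (K : Set (ι → ℂ)) : Set (ι → ℂ) :=
  {z | ∀ P : MvPolynomial (ι) ℂ, ∀ c : ℝ, (∀ w ∈ K, ‖eval w P‖ ≤ c) → ‖eval z P‖ ≤ c}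

/-- `S` contains an analytic disc. -/
def HasDisc {ι : Type} [Fintype ι] (S : Set (ι → ℂ)) : Prop :=
  ∃ f : ℂ → (ι → ℂ), DifferentiableOn ℂ f (ball (0 : ℂ) 1) ∧
    (∃ a ∈ ball (0 : ℂ) 1, ∃ b ∈ ball (0 : ℂ) 1, f a ≠ f b) ∧ ∀ ζ ∈ ball (0 : ℂ) 1, f ζ ∈ S

variable {ι : Type} [Fintype ι] {K : Set (ι → ℂ)}

theorem p1_continuous_eval (P : MvPolynomial (ι) ℂ) :
    Continuous fun z : ι → ℂ => eval z P := MvPolynomial.continuous_eval P

theorem p1_subset : K ⊆ hull K := fun z hz _ _ h => h z hz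

theorem p1_hull_hull {z : ι → ℂ} (h : ∀ P : MvPolynomial (ι) ℂ, ∀ c : ℝ,
    (∀ w ∈ hull K, ‖eval w P‖ ≤ c) → ‖eval z P‖ ≤ c) : z ∈ hull K :=
  fun P c hc => h P c fun w hw => hw P c hc

theorem p1_isClosed : IsClosed (hull K) := by
  have h : hull K = ⋂ (P : MvPolynomial (ι) ℂ), ⋂ (c : ℝ), ⋂ (_ : ∀ w ∈ K, ‖eval w P‖ ≤ c),
      {z : ι → ℂ | ‖eval z P‖ ≤ c} := by
    ext z
    simp only [hull, Set.mem_setOf_eq, Set.mem_iInter]
  rw [h]
  refine isClosed_iInter fun P => isClosed_iInter fun c => isClosed_iInter fun _ => ?_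
  exact isClosed_le (p1_continuous_eval P).norm continuous_const

theorem p1_isCompact (hK : IsCompact K) : IsCompact (hull K) := by
  obtain ⟨R, hR⟩ := hK.isBounded.exists_norm_le
  refine (isCompact_closedBall (0 : ι → ℂ) (max R 0)).of_isClosed_subset p1_isClosed ?_
  intro z hz
  rw [mem_closedBall_zero_iff, pi_norm_le_iff_of_nonneg (le_max_right _ _)]
  intro i
  have h := hz (X i) (max R 0) (fun w hw => by
    rw [eval_X]
    exact ((norm_le_pi_norm w i).trans (hR w hw)).trans (le_max_left _ _))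
  rwa [eval_X] at h

/-- the polynomial `P(u z)`, `u` acting diagonally. -/
theorem p1_smul (u : ι → ℂ) (hu : ∀ w ∈ K, (fun i => u i * w i) ∈ K) {z : ι → ℂ}
    (hz : z ∈ hull K) : (fun i => u i * z i) ∈ hull K := by
  intro P c hc
  have key : ∀ w : ι → ℂ, eval w (bind₁ (fun i => C (u i) * X i) P) =
      eval (fun i => u i * w i) P := by
    intro w
    rw [eval, eval₂Hom_bind₁]
    simp only [map_mul, eval₂Hom_C, RingHom.id_apply, eval₂Hom_X']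
    rfl
  have h := hz (bind₁ (fun i => C (u i) * X i) P) c (fun w hw => by
    rw [key]
    exact hc _ (hu w hw))
  rwa [key] at h

/-- discs on other balls. -/
theorem p1_disc {S : Set (ι → ℂ)} (g : ℂ → (ι → ℂ)) (c : ℂ) (r : ℝ) (hr : 0 < r)
    (hg : DifferentiableOn ℂ g (ball c r)) (hne : ∃ a ∈ ball c r, ∃ b ∈ ball c r, g a ≠ g b)
    (hS : ∀ ζ ∈ ball c r, g ζ ∈ S) : HasDisc S := by
  have hmap : ∀ ζ ∈ ball (0 : ℂ) 1, c + r * ζ ∈ ball c r := by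
    intro ζ hζ
    rw [mem_ball_zero_iff] at hζ
    rw [mem_ball, dist_eq_norm, add_sub_cancel_left, norm_mul, Complex.norm_real,
      Real.norm_of_nonneg hr.le]
    nlinarith
  have hinv : ∀ a ∈ ball c r, ∃ ζ ∈ ball (0 : ℂ) 1, c + r * ζ = a := by
    intro a ha
    have hr' : (r : ℂ) ≠ 0 := Complex.ofReal_ne_zero.2 hr.ne'
    refine ⟨(a - c) / r, ?_, ?_⟩
    · rw [mem_ball, dist_eq_norm] at ha
      rw [mem_ball_zero_iff, norm_div, Complex.norm_real, Real.norm_of_nonneg hr.le, div_lt_one hr]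
      exact ha
    · rw [mul_div_cancel₀ _ hr', add_sub_cancel]
  refine ⟨fun ζ => g (c + r * ζ), ?_, ?_, fun ζ hζ => hS _ (hmap ζ hζ)⟩
  · have h1 : DifferentiableOn ℂ (fun ζ : ℂ => c + r * ζ) (ball (0 : ℂ) 1) := by fun_prop
    exact hg.comp h1 hmap
  · obtain ⟨a, ha, b, hb, hab⟩ := hne
    obtain ⟨a', ha', rfl⟩ := hinv a ha
    obtain ⟨b', hb', rfl⟩ := hinv b hb
    exact ⟨a', ha', b', hb', hab⟩




theorem p2_diff {s : Set ℂ} {Φ : ℂ → (ι → ℂ)} (hΦ : DifferentiableOn ℂ Φ s)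
    (P : MvPolynomial (ι) ℂ) : DifferentiableOn ℂ (fun ζ => eval (Φ ζ) P) s := by
  induction P using MvPolynomial.induction_on with
  | C a => simp only [eval_C]; exact differentiableOn_const a
  | add p q hp hq => simp only [eval_add]; exact hp.add hq
  | mul_X p i hp =>
    simp only [eval_mul, eval_X]
    exact hp.mul (differentiableOn_pi.1 hΦ i)

theorem p2_bound (P : MvPolynomial (ι) ℂ) (R : ℝ) :
    ∃ B : ℝ, ∀ z : ι → ℂ, ‖z‖ ≤ R → ‖eval z P‖ ≤ B := by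
  obtain ⟨B, hB⟩ := (isCompact_closedBall (0 : ι → ℂ) R).exists_bound_of_continuousOn
    (p1_continuous_eval P).continuousOn
  exact ⟨B, fun z hz => hB z (mem_closedBall_zero_iff.2 hz)⟩

theorem p2_halfplane (Φ : ℂ → (ι → ℂ)) (hΦ : Differentiable ℂ Φ) (R : ℝ)
    (hb : ∀ ζ : ℂ, 0 ≤ ζ.re → ‖Φ ζ‖ ≤ R) (hI : ∀ η : ℝ, Φ (η * Complex.I) ∈ hull K) (ζ : ℂ)
    (hζ : 0 ≤ ζ.re) : Φ ζ ∈ hull K := by
  refine p1_hull_hull fun P c hc => ?_
  obtain ⟨B, hB⟩ := p2_bound P R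
  have hd : Differentiable ℂ fun ζ => eval (Φ ζ) P := by
    rw [← differentiableOn_univ]
    exact p2_diff hΦ.differentiableOn P
  refine PhragmenLindelof.right_half_plane_of_bounded_on_real (f := fun ζ => eval (Φ ζ) P)
    hd.diffContOnCl ⟨1, by norm_num, 0, ?_⟩ ?_ (fun x => hc _ (hI x)) hζ
  · refine IsBigO.of_bound B ?_
    refine (eventually_inf_principal.2 (Eventually.of_forall fun z hz => ?_))
    have h1 : ‖eval (Φ z) P‖ ≤ B := hB _ (hb z (le_of_lt hz))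
    rw [zero_mul, Real.exp_zero, norm_one, mul_one]
    exact h1
  · refine ⟨B, ?_⟩
    rw [eventually_map]
    filter_upwards [eventually_ge_atTop (0 : ℝ)] with x hx
    exact hB _ (hb _ (by rw [Complex.ofReal_re]; exact hx))

theorem p2_strip (Φ : ℂ → (ι → ℂ)) (hΦ : Differentiable ℂ Φ) (R : ℝ)
    (hb : ∀ ζ : ℂ, 0 ≤ ζ.re → ζ.re ≤ 1 → ‖Φ ζ‖ ≤ R) (h0 : ∀ ζ : ℂ, ζ.re = 0 → Φ ζ ∈ hull K)
    (h1 : ∀ ζ : ℂ, ζ.re = 1 → Φ ζ ∈ hull K) (ζ : ℂ)
    (hζ : 0 ≤ ζ.re) (hζ' : ζ.re ≤ 1) : Φ ζ ∈ hull K := by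
  refine p1_hull_hull fun P c hc => ?_
  obtain ⟨B, hB⟩ := p2_bound P R
  have hd : Differentiable ℂ fun ζ => eval (Φ ζ) P := by
    rw [← differentiableOn_univ]
    exact p2_diff hΦ.differentiableOn P
  refine PhragmenLindelof.vertical_strip (f := fun ζ => eval (Φ ζ) P) (a := 0) (b := 1)
    hd.diffContOnCl ⟨0, by have := Real.pi_pos; simpa using this, 0, ?_⟩ (fun z hz => hc _ (h0 z hz))
    (fun z hz => hc _ (h1 z hz)) hζ hζ'
  refine IsBigO.of_bound B ?_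
  refine (eventually_inf_principal.2 (Eventually.of_forall fun z hz => ?_))
  have h2 : ‖eval (Φ z) P‖ ≤ B := hB _ (hb z (le_of_lt hz.1) (le_of_lt hz.2))
  rw [zero_mul, Real.exp_zero, norm_one, mul_one]
  exact h2

/-- a disc in the half plane. -/
theorem p2_halfplane_disc {S : Set (ι → ℂ)} (Φ : ℂ → (ι → ℂ)) (hΦ : Differentiable ℂ Φ)
    (hS : ∀ ζ : ℂ, 0 ≤ ζ.re → ζ.re ≤ 1 → Φ ζ ∈ S)
    (hne : ∃ a : ℝ, ∃ b : ℝ, 0 < a ∧ a < 1 ∧ 0 < b ∧ b < 1 ∧ Φ a ≠ Φ b) : HasDisc S := by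
  have h1 : ∀ ζ ∈ ball ((1 / 2 : ℝ) : ℂ) (1 / 2), 0 ≤ ζ.re ∧ ζ.re ≤ 1 := by
    intro ζ hζ
    rw [mem_ball, dist_eq_norm] at hζ
    have h2 := (Complex.abs_re_le_norm (ζ - ((1 / 2 : ℝ) : ℂ))).trans hζ.le
    rw [Complex.sub_re, Complex.ofReal_re, abs_le] at h2
    constructor <;> linarith [h2.1, h2.2]
  refine p1_disc Φ ((1 / 2 : ℝ) : ℂ) (1 / 2) (by norm_num) hΦ.differentiableOn ?_
    (fun ζ hζ => hS ζ (h1 ζ hζ).1 (h1 ζ hζ).2)
  obtain ⟨a, b, ha, ha', hb, hb', hab⟩ := hne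
  have h3 : ∀ t : ℝ, 0 < t → t < 1 → (t : ℂ) ∈ ball ((1 / 2 : ℝ) : ℂ) (1 / 2) := by
    intro t ht ht'
    rw [mem_ball, dist_eq_norm, ← Complex.ofReal_sub, Complex.norm_real, Real.norm_eq_abs, abs_lt]
    constructor <;> linarith
  exact ⟨a, h3 a ha ha', b, h3 b hb hb', hab⟩


end Pool.Agent.Lib.H14P
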