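import Pool.Agent.Lib.H14P.P1

/-!
# P2: polynomial maps, reflections, and discs from points with independent real and imaginary parts
-/

set_option autoImplicit false
set_option linter.unusedSectionVars false

namespace Pool.Agent.Lib.H14P

open MvPolynomial Metric

/-- polynomial maps map hulls into hulls. -/
theorem p2_map {ι κ : Type} {K : Set (κ → ℂ)} {K' : Set (ι → ℂ)} (Q : ι → MvPolynomial κ ℂ)
    (h : ∀ w ∈ K, (fun i => eval w (Q i)) ∈ hull K') {z : κ → ℂ} (hz : z ∈ hull K) :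
    (fun i => eval z (Q i)) ∈ hull K' := by
  intro P c hc
  have key : ∀ w : κ → ℂ, eval w (bind₁ Q P) = eval (fun i => eval w (Q i)) P := by
    intro w
    rw [eval, eval₂Hom_bind₁]
    rfl
  have h1 := hz (bind₁ Q P) c (fun w hw => by rw [key]; exact h w hw P c hc)
  rwa [key] at h1

variable {ι : Type} [Fintype ι]

/-- the bilinear product of a real and a complex vector. -/
noncomputable def dot (x : ι → ℝ) (z : ι → ℂ) : ℂ := ∑ l, (x l : ℂ) * z l

/-- the reflection `z - 2 (x . z) x`. -/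
noncomputable def refl (x : ι → ℝ) (z : ι → ℂ) : ι → ℂ := fun j => z j - 2 * dot x z * x j

/-- `S` is invariant under all reflections in unit vectors supported in `B`. -/
def Refl (B : Finset ι) (S : Set (ι → ℂ)) : Prop :=
  ∀ x : ι → ℝ, (∀ j, j ∉ B → x j = 0) → ∑ j, x j * x j = 1 → ∀ z ∈ S, refl x z ∈ S

theorem refl_mem_hull {K : Set (ι → ℂ)} (x : ι → ℝ) (h : ∀ w ∈ K, refl x w ∈ K) {z : ι → ℂ}
    (hz : z ∈ hull K) : refl x z ∈ hull K := by
  have key : ∀ w : ι → ℂ, (fun i => eval w (X i - C 2 * (∑ l, C (x l : ℂ) * X l) * C (x i : ℂ) :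
      MvPolynomial ι ℂ)) = refl x w := by
    intro w
    funext i
    simp only [refl, dot, map_sub, map_mul, map_sum, eval_X, eval_C]
  have h1 := p2_map (K := K) (K' := K) (fun i => X i - C 2 * (∑ l, C (x l : ℂ) * X l) * C (x i : ℂ))
    (fun w hw => by rw [key]; exact p1_subset (h w hw)) hz
  rwa [key] at h1

theorem Refl.hull {B : Finset ι} {K : Set (ι → ℂ)} (h : Refl B K) : Refl B (hull K) :=
  fun x hx hx1 _ hz => refl_mem_hull x (h x hx hx1) hz

/-- points in the complex plane through `w` spanned by `f`, `g`. -/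
noncomputable def pt (w : ι → ℂ) (f g : ι → ℝ) (u v : ℂ) : ι → ℂ :=
  fun j => w j + (u + v) / 2 * f j - Complex.I * (u - v) / 2 * g j

theorem dot_pt (x : ι → ℝ) (w : ι → ℂ) (f g : ι → ℝ) (u v : ℂ) :
    dot x (pt w f g u v) = dot x w + (u + v) / 2 * ((∑ l, x l * f l : ℝ) : ℂ)
      - Complex.I * (u - v) / 2 * ((∑ l, x l * g l : ℝ) : ℂ) := by
  simp only [dot, pt, Complex.ofReal_sum, Complex.ofReal_mul, Finset.mul_sum]
  rw [← Finset.sum_add_distrib, ← Finset.sum_sub_distrib]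
  refine Finset.sum_congr rfl fun l _ => ?_
  ring

/-- orthonormal pairs supported in `B`, orthogonal to `w`. -/
structure Fr (B : Finset ι) (w : ι → ℂ) (f g : ι → ℝ) : Prop where
  f0 : ∀ j, j ∉ B → f j = 0
  g0 : ∀ j, j ∉ B → g j = 0
  ff : ∑ j, f j * f j = 1
  gg : ∑ j, g j * g j = 1
  fg : ∑ j, f j * g j = 0
  fw : dot f w = 0
  gw : dot g w = 0

theorem dot_comb (c s : ℝ) (f g : ι → ℝ) (w : ι → ℂ) :
    dot (fun j => c * f j + s * g j) w = c * dot f w + s * dot g w := by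
  simp only [dot, Finset.mul_sum]
  rw [← Finset.sum_add_distrib]
  refine Finset.sum_congr rfl fun l _ => ?_
  push_cast
  ring

theorem pt_swap {B : Finset ι} {S : Set (ι → ℂ)} (hS : Refl B S) {w : ι → ℂ} {f g : ι → ℝ}
    (h : Fr B w f g) {u v : ℂ} (huv : pt w f g u v ∈ S) (ω : ℂ) (hω : ‖ω‖ = 1) :
    pt w f g (ω * v) (ω⁻¹ * u) ∈ S := by
  have hω' : ‖-ω‖ = 1 := by rw [norm_neg, hω]
  obtain ⟨α, hα⟩ : ∃ α : ℝ, Complex.exp (α * Complex.I) ^ 2 = -ω := by
    refine ⟨Complex.arg (-ω) / 2, ?_⟩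
    have h1 := Complex.norm_mul_exp_arg_mul_I (-ω)
    rw [hω', Complex.ofReal_one, one_mul] at h1
    rw [← h1, ← Complex.exp_nat_mul]
    rw [h1]
    nth_rewrite 2 [← h1]
    congr 1
    push_cast
    ring
  have hc : Complex.exp (α * Complex.I) = Real.cos α + Real.sin α * Complex.I := by
    rw [Complex.exp_mul_I, Complex.ofReal_cos, Complex.ofReal_sin]
  have hcs : Real.cos α * Real.cos α + Real.sin α * Real.sin α = 1 := by
    have := Real.cos_sq_add_sin_sq α
    nlinarith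
  have hcsC : (Real.cos α : ℂ) * Real.cos α + (Real.sin α : ℂ) * Real.sin α = 1 := by
    exact_mod_cast hcs
  rw [hc] at hα
  generalize Real.cos α = c at *
  generalize Real.sin α = s at *
  have hω0 : ω ≠ 0 := by
    rw [← norm_ne_zero_iff, hω]
    exact one_ne_zero
  have hI : Complex.I * Complex.I = -1 := Complex.I_mul_I
  have hωi : ω⁻¹ = -((c : ℂ) - s * Complex.I) ^ 2 := by
    refine (eq_inv_of_mul_eq_one_left ?_).symm
    have h2 : ω = -((c : ℂ) + s * Complex.I) ^ 2 := by rw [hα, neg_neg]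
    rw [h2]
    have h3 : ((c : ℂ) - s * Complex.I) * ((c : ℂ) + s * Complex.I) = 1 := by
      linear_combination hcsC - (s : ℂ) * s * hI
    calc -((c : ℂ) - s * Complex.I) ^ 2 * -((c : ℂ) + s * Complex.I) ^ 2
        = (((c : ℂ) - s * Complex.I) * ((c : ℂ) + s * Complex.I)) ^ 2 := by ring
      _ = 1 := by rw [h3, one_pow]
  have hωe : ω = -((c : ℂ) + s * Complex.I) ^ 2 := by rw [hα, neg_neg]
  have hx0 : ∀ j, j ∉ B → (fun j => c * f j + s * g j) j = 0 := by
    intro j hj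
    simp only [h.f0 j hj, h.g0 j hj, mul_zero, add_zero]
  have hxf : ∑ l, (c * f l + s * g l) * f l = c := by
    have h1 : ∑ l, (c * f l + s * g l) * f l = c * ∑ l, f l * f l + s * ∑ l, f l * g l := by
      rw [Finset.mul_sum, Finset.mul_sum, ← Finset.sum_add_distrib]
      exact Finset.sum_congr rfl fun l _ => by ring
    rw [h1, h.ff, h.fg]
    ring
  have hxg : ∑ l, (c * f l + s * g l) * g l = s := by
    have h1 : ∑ l, (c * f l + s * g l) * g l = c * ∑ l, f l * g l + s * ∑ l, g l * g l := by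
      rw [Finset.mul_sum, Finset.mul_sum, ← Finset.sum_add_distrib]
      exact Finset.sum_congr rfl fun l _ => by ring
    rw [h1, h.gg, h.fg]
    ring
  have hx1 : ∑ j, (fun j => c * f j + s * g j) j * (fun j => c * f j + s * g j) j = 1 := by
    have h1 : ∑ j, (c * f j + s * g j) * (c * f j + s * g j) =
        c * ∑ l, (c * f l + s * g l) * f l + s * ∑ l, (c * f l + s * g l) * g l := by
      rw [Finset.mul_sum, Finset.mul_sum, ← Finset.sum_add_distrib]
      exact Finset.sum_congr rfl fun l _ => by ring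
    simp only
    rw [h1, hxf, hxg]
    exact hcs
  have h4 := hS _ hx0 hx1 _ huv
  have h5 : refl (fun j => c * f j + s * g j) (pt w f g u v) = pt w f g (ω * v) (ω⁻¹ * u) := by
    funext j
    simp only [refl]
    rw [dot_pt, dot_comb, h.fw, h.gw, hxf, hxg, hωi, hωe]
    simp only [pt]
    push_cast
    linear_combination (f j : ℂ) * (-((u + v) / 2) * hcsC + (u + v) / 2 * s ^ 2 * hI) +
      (g j : ℂ) * (Complex.I * (u - v) / 2 * hcsC +
        (Complex.I * (u - v) / 2 * s ^ 2 - c * s * (u + v)) * hI)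
  rwa [h5] at h4

theorem pt_rot {B : Finset ι} {S : Set (ι → ℂ)} (hS : Refl B S) {w : ι → ℂ} {f g : ι → ℝ}
    (h : Fr B w f g) {u v : ℂ} (huv : pt w f g u v ∈ S) (ω : ℂ) (hω : ‖ω‖ = 1) :
    pt w f g (ω * u) (ω⁻¹ * v) ∈ S := by
  have h1 := pt_swap hS h huv 1 norm_one
  rw [one_mul, inv_one, one_mul] at h1
  exact pt_swap hS h h1 ω hω

theorem pt_v {B : Finset ι} {w : ι → ℂ} {f g : ι → ℝ} (h : Fr B w f g) (u v : ℂ) :
    dot f (pt w f g u v) - Complex.I * dot g (pt w f g u v) = v := by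
  have hgf : ∑ j, g j * f j = 0 := by
    rw [← h.fg]
    exact Finset.sum_congr rfl fun _ _ => mul_comm _ _
  rw [dot_pt, dot_pt, h.fw, h.gw, h.ff, h.gg, h.fg, hgf]
  push_cast
  linear_combination ((u - v) / 2) * Complex.I_mul_I

theorem pt_ne {B : Finset ι} {w : ι → ℂ} {f g : ι → ℝ} (h : Fr B w f g) {u v u' v' : ℂ}
    (hv : v ≠ v') : pt w f g u v ≠ pt w f g u' v' := by
  intro he
  apply hv
  rw [← pt_v h u v, he, pt_v h u' v']

theorem pt_bound (w : ι → ℂ) (f g : ι → ℝ) (M : ℝ) :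
    ∃ R : ℝ, ∀ u v : ℂ, ‖u‖ ≤ M → ‖v‖ ≤ M → ‖pt w f g u v‖ ≤ R := by
  have hcont : Continuous fun p : ℂ × ℂ => pt w f g p.1 p.2 := by
    refine continuous_pi fun j => ?_
    simp only [pt]
    fun_prop
  obtain ⟨R, hR⟩ := ((isCompact_closedBall (0 : ℂ) M).prod
    (isCompact_closedBall (0 : ℂ) M)).exists_bound_of_continuousOn hcont.continuousOn
  exact ⟨R, fun u v hu hv => hR (u, v) ⟨mem_closedBall_zero_iff.2 hu, mem_closedBall_zero_iff.2 hv⟩⟩

theorem pt_diff (w : ι → ℂ) (f g : ι → ℝ) {U V : ℂ → ℂ} (hU : Differentiable ℂ U)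
    (hV : Differentiable ℂ V) : Differentiable ℂ fun s => pt w f g (U s) (V s) := by
  rw [differentiable_pi]
  intro j
  simp only [pt]
  fun_prop

/-- a point of the hull with independent real and imaginary parts in the block gives a disc. -/
theorem disc_of_pt {B : Finset ι} {K : Set (ι → ℂ)} (hK : Refl B K) {w : ι → ℂ} {f g : ι → ℝ}
    (h : Fr B w f g) {u v : ℂ} (huv : pt w f g u v ∈ hull K) (hlt : ‖u‖ < ‖v‖) :
    HasDisc (hull K) := by
  have hS := hK.hull
  have hv0 : v ≠ 0 := by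
    rw [← norm_pos_iff]
    exact (norm_nonneg u).trans_lt hlt
  have hexpI : ∀ t : ℝ, ‖Complex.exp (t * Complex.I)‖ = 1 := fun t => Complex.norm_exp_ofReal_mul_I t
  by_cases hu : u = 0
  · subst hu
    have hΦ : Differentiable ℂ fun s : ℂ => pt w f g 0 (v * Complex.exp (-s)) :=
      pt_diff w f g (differentiable_const 0) (by fun_prop)
    obtain ⟨R, hR⟩ := pt_bound w f g ‖v‖
    have hb : ∀ ζ : ℂ, 0 ≤ ζ.re → ‖pt w f g 0 (v * Complex.exp (-ζ))‖ ≤ R := by
      intro ζ hζ
      refine hR _ _ (by rw [norm_zero]; exact norm_nonneg v) ?_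
      rw [norm_mul, Complex.norm_exp, Complex.neg_re]
      have : Real.exp (-ζ.re) ≤ 1 := Real.exp_le_one_iff.2 (by linarith)
      calc ‖v‖ * Real.exp (-ζ.re) ≤ ‖v‖ * 1 := mul_le_mul_of_nonneg_left this (norm_nonneg v)
        _ = ‖v‖ := mul_one _
    have hI : ∀ η : ℝ, pt w f g 0 (v * Complex.exp (-(η * Complex.I))) ∈ hull K := by
      intro η
      have h1 := pt_rot hS h huv (Complex.exp (η * Complex.I)) (hexpI η)
      rw [mul_zero, ← Complex.exp_neg, mul_comm (Complex.exp _) v] at h1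
      exact h1
    refine p2_halfplane_disc _ hΦ (fun ζ hζ _ => p2_halfplane _ hΦ R hb hI ζ hζ) ?_
    refine ⟨1 / 4, 1 / 2, by norm_num, by norm_num, by norm_num, by norm_num, ?_⟩
    refine pt_ne h ?_
    intro he
    have h2 := mul_left_cancel₀ hv0 he
    have h3 := congrArg norm h2
    rw [Complex.norm_exp, Complex.norm_exp, Real.exp_eq_exp, Complex.neg_re, Complex.neg_re,
      Complex.ofReal_re, Complex.ofReal_re] at h3
    norm_num at h3
  · have hu0 : 0 < ‖u‖ := norm_pos_iff.2 hu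
    have hv1 : 0 < ‖v‖ := norm_pos_iff.2 hv0
    set κ : ℝ := Real.log (‖v‖ / ‖u‖) with hκ
    have hκ0 : 0 < κ := Real.log_pos ((one_lt_div hu0).2 hlt)
    have hκe : ‖u‖ * Real.exp κ = ‖v‖ := by
      rw [hκ, Real.exp_log (by positivity)]
      field_simp
    have hΦ : Differentiable ℂ fun s : ℂ =>
        pt w f g (u * Complex.exp (κ * s)) (v * Complex.exp (-(κ * s))) :=
      pt_diff w f g (by fun_prop) (by fun_prop)
    obtain ⟨R, hR⟩ := pt_bound w f g ‖v‖
    have hb : ∀ ζ : ℂ, 0 ≤ ζ.re → ζ.re ≤ 1 →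
        ‖pt w f g (u * Complex.exp (κ * ζ)) (v * Complex.exp (-(κ * ζ)))‖ ≤ R := by
      intro ζ hζ hζ'
      have hre : ((κ : ℂ) * ζ).re = κ * ζ.re := by
        rw [Complex.mul_re, Complex.ofReal_re, Complex.ofReal_im, zero_mul, sub_zero]
      refine hR _ _ ?_ ?_
      · rw [norm_mul, Complex.norm_exp, hre, ← hκe]
        refine mul_le_mul_of_nonneg_left (Real.exp_le_exp.2 ?_) hu0.le
        nlinarith
      · rw [norm_mul, Complex.norm_exp, Complex.neg_re, hre]
        have : Real.exp (-(κ * ζ.re)) ≤ 1 := Real.exp_le_one_iff.2 (by nlinarith)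
        calc ‖v‖ * Real.exp (-(κ * ζ.re)) ≤ ‖v‖ * 1 := mul_le_mul_of_nonneg_left this hv1.le
          _ = ‖v‖ := mul_one _
    have hdec : ∀ ζ : ℂ, ζ = (ζ.re : ℂ) + (ζ.im : ℂ) * Complex.I := fun ζ => (Complex.re_add_im ζ).symm
    have h0 : ∀ ζ : ℂ, ζ.re = 0 →
        pt w f g (u * Complex.exp (κ * ζ)) (v * Complex.exp (-(κ * ζ))) ∈ hull K := by
      intro ζ hζ
      have h1 := pt_rot hS h huv (Complex.exp ((κ * ζ.im : ℝ) * Complex.I)) (hexpI _)
      have h2 : ((κ * ζ.im : ℝ) : ℂ) * Complex.I = κ * ζ := by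
        nth_rewrite 2 [hdec ζ]
        rw [hζ]
        push_cast
        ring
      rw [h2, ← Complex.exp_neg, mul_comm _ u, mul_comm _ v] at h1
      exact h1
    have h1 : ∀ ζ : ℂ, ζ.re = 1 →
        pt w f g (u * Complex.exp (κ * ζ)) (v * Complex.exp (-(κ * ζ))) ∈ hull K := by
      intro ζ hζ
      set ω : ℂ := u * Complex.exp (κ * ζ) / v with hωd
      have hω : ‖ω‖ = 1 := by
        have hre : ((κ : ℂ) * ζ).re = κ := by
          rw [Complex.mul_re, Complex.ofReal_re, Complex.ofReal_im, zero_mul, sub_zero, hζ, mul_one]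
        rw [hωd, norm_div, norm_mul, Complex.norm_exp, hre, hκe, div_self hv1.ne']
      have h2 := pt_swap hS h huv ω hω
      have h3 : ω * v = u * Complex.exp (κ * ζ) := by
        rw [hωd, div_mul_cancel₀ _ hv0]
      have h4 : ω⁻¹ * u = v * Complex.exp (-(κ * ζ)) := by
        rw [hωd, Complex.exp_neg]
        have := Complex.exp_ne_zero (κ * ζ)
        field_simp
      rwa [h3, h4] at h2
    refine p2_halfplane_disc _ hΦ (fun ζ hζ hζ' => p2_strip _ hΦ R hb h0 h1 ζ hζ hζ') ?_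
    refine ⟨1 / 4, 1 / 2, by norm_num, by norm_num, by norm_num, by norm_num, ?_⟩
    refine pt_ne h ?_
    intro he
    have h2 := mul_left_cancel₀ hv0 he
    have h3 := congrArg norm h2
    rw [Complex.norm_exp, Complex.norm_exp, Real.exp_eq_exp, Complex.neg_re, Complex.neg_re,
      ← Complex.ofReal_mul, ← Complex.ofReal_mul, Complex.ofReal_re, Complex.ofReal_re] at h3
    nlinarith

end Pool.Agent.Lib.H14P
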