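import Pool.Agent.Lib.H14P.P2

/-!
# P3: splitting of a point in a block, reflection to the axis
-/

set_option autoImplicit false
set_option linter.unusedSectionVars false

namespace Pool.Agent.Lib.H14P

open MvPolynomial Metric

variable {ι : Type} [Fintype ι] [DecidableEq ι]

theorem refl_off {B : Finset ι} {x : ι → ℝ} (hx : ∀ j, j ∉ B → x j = 0) (z : ι → ℂ) {j : ι}
    (hj : j ∉ B) : refl x z j = z j := by
  rw [refl, hx j hj, Complex.ofReal_zero, mul_zero, sub_zero]

theorem dot_refl {x : ι → ℝ} (hx1 : ∑ j, x j * x j = 1) (z : ι → ℂ) :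
    dot x (refl x z) = - dot x z := by
  have h1 : dot x (refl x z) = dot x z - 2 * dot x z * ((∑ j, x j * x j : ℝ) : ℂ) := by
    simp only [dot, refl, Complex.ofReal_sum, Complex.ofReal_mul, Finset.mul_sum]
    rw [← Finset.sum_sub_distrib]
    refine Finset.sum_congr rfl fun l _ => ?_
    ring
  rw [h1, hx1, Complex.ofReal_one]
  ring

theorem refl_refl {x : ι → ℝ} (hx1 : ∑ j, x j * x j = 1) (z : ι → ℂ) : refl x (refl x z) = z := by
  funext j
  have h1 : refl x (refl x z) j = refl x z j - 2 * dot x (refl x z) * x j := rfl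
  rw [h1, dot_refl hx1]
  simp only [refl]
  ring

/-- the quadratic form of the block. -/
noncomputable def qf (B : Finset ι) (z : ι → ℂ) : ℂ := ∑ j ∈ B, z j * z j

theorem qf_refl {B : Finset ι} {x : ι → ℝ} (hx : ∀ j, j ∉ B → x j = 0)
    (hx1 : ∑ j, x j * x j = 1) (z : ι → ℂ) : qf B (refl x z) = qf B z := by
  have h1 : dot x z = ∑ j ∈ B, (x j : ℂ) * z j := by
    rw [dot]
    symm
    refine Finset.sum_subset (Finset.subset_univ B) fun j _ hj => ?_
    rw [hx j hj, Complex.ofReal_zero, zero_mul]
  have h2 : ∑ j ∈ B, (x j : ℂ) * x j = 1 := by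
    have h3 : ∑ j ∈ B, x j * x j = 1 := by
      rw [← hx1]
      refine Finset.sum_subset (Finset.subset_univ B) fun j _ hj => ?_
      rw [hx j hj, zero_mul]
    exact_mod_cast h3
  have h4 : qf B (refl x z) = qf B z - 4 * dot x z * (∑ j ∈ B, (x j : ℂ) * z j)
      + 4 * dot x z * dot x z * ∑ j ∈ B, (x j : ℂ) * x j := by
    simp only [qf, refl]
    rw [Finset.mul_sum, Finset.mul_sum, ← Finset.sum_sub_distrib, ← Finset.sum_add_distrib]
    refine Finset.sum_congr rfl fun l _ => ?_
    ring
  rw [h4, ← h1, h2]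
  ring

/-- splitting: the block part of a point is a complex multiple of a real unit vector, or it is given
by an orthonormal pair with `|u| < |v|`. -/
theorem split {B : Finset ι} {b0 : ι} (hb0 : b0 ∈ B) (z : ι → ℂ) :
    (∃ f : ι → ℝ, (∀ j, j ∉ B → f j = 0) ∧ ∑ j, f j * f j = 1 ∧ ∃ c : ℂ, ∀ j ∈ B, z j = c * f j) ∨
    ∃ (w : ι → ℂ) (f g : ι → ℝ) (u v : ℂ), Fr B w f g ∧ ‖u‖ < ‖v‖ ∧ z = pt w f g u v := by
  classical
  let a : ι → ℝ := fun j => if j ∈ B then (z j).re else 0
  let b : ι → ℝ := fun j => if j ∈ B then (z j).im else 0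
  have ha0 : ∀ j, j ∉ B → a j = 0 := fun j hj => if_neg hj
  have hb0' : ∀ j, j ∉ B → b j = 0 := fun j hj => if_neg hj
  have hz : ∀ j ∈ B, z j = (a j : ℂ) + (b j : ℂ) * Complex.I := by
    intro j hj
    have h1 : a j = (z j).re := if_pos hj
    have h2 : b j = (z j).im := if_pos hj
    rw [h1, h2, Complex.re_add_im]
  -- normalisation
  have hnorm : ∀ x : ι → ℝ, (∀ j, j ∉ B → x j = 0) → ∑ j, x j * x j ≠ 0 →
      ∃ (f : ι → ℝ) (N : ℝ), 0 < N ∧ (∀ j, j ∉ B → f j = 0) ∧ ∑ j, f j * f j = 1 ∧
        ∀ j, x j = N * f j := by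
    intro x hx hx0
    have hpos : 0 < ∑ j, x j * x j :=
      lt_of_le_of_ne (Finset.sum_nonneg fun j _ => mul_self_nonneg (x j)) (Ne.symm hx0)
    refine ⟨fun j => x j / Real.sqrt (∑ j, x j * x j), Real.sqrt (∑ j, x j * x j),
      Real.sqrt_pos.2 hpos, fun j hj => by simp only [hx j hj, zero_div], ?_, fun j => ?_⟩
    · have h1 : ∀ j, x j / Real.sqrt (∑ j, x j * x j) * (x j / Real.sqrt (∑ j, x j * x j)) =
          (x j * x j) / (∑ j, x j * x j) := by
        intro j
        rw [div_mul_div_comm, Real.mul_self_sqrt hpos.le]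
      simp only [h1]
      rw [← Finset.sum_div, div_self hx0]
    · have h2 := (Real.sqrt_pos.2 hpos).ne'
      exact (mul_div_cancel₀ (x j) h2).symm
  have hzero : ∀ x : ι → ℝ, ∑ j, x j * x j = 0 → ∀ j, x j = 0 := by
    intro x hx j
    have h1 := (Finset.sum_eq_zero_iff_of_nonneg (fun j _ => mul_self_nonneg (x j))).1 hx j
      (Finset.mem_univ j)
    exact mul_self_eq_zero.1 h1
  by_cases hA : ∑ j, a j * a j = 0
  · left
    by_cases hB : ∑ j, b j * b j = 0
    · refine ⟨fun j => if j = b0 then 1 else 0, ?_, ?_, 0, ?_⟩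
      · intro j hj
        have : j ≠ b0 := fun h => hj (h ▸ hb0)
        exact if_neg this
      · simp
      · intro j hj
        rw [hz j hj, hzero a hA j, hzero b hB j]
        simp
    · obtain ⟨f, N, -, hf0, hf1, hfN⟩ := hnorm b hb0' hB
      refine ⟨f, hf0, hf1, N * Complex.I, fun j hj => ?_⟩
      rw [hz j hj, hzero a hA j, hfN j]
      push_cast
      ring
  · obtain ⟨f, N, hN, hf0, hf1, hfN⟩ := hnorm a ha0 hA
    set β : ℝ := ∑ j, b j * f j with hβ
    let b' : ι → ℝ := fun j => b j - β * f j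
    have hb'0 : ∀ j, j ∉ B → b' j = 0 := by
      intro j hj
      change b j - β * f j = 0
      rw [hb0' j hj, hf0 j hj]
      ring
    by_cases hB : ∑ j, b' j * b' j = 0
    · left
      refine ⟨f, hf0, hf1, N + β * Complex.I, fun j hj => ?_⟩
      have h1 : b j - β * f j = 0 := hzero b' hB j
      have h2 : b j = β * f j := by linarith
      rw [hz j hj, hfN j, h2]
      push_cast
      ring
    · right
      obtain ⟨g, N', hN', hg0, hg1, hgN⟩ := hnorm b' hb'0 hB
      have hfb' : ∑ j, f j * b' j = 0 := by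
        have h1 : ∑ j, f j * b' j = ∑ j, b j * f j - β * ∑ j, f j * f j := by
          rw [Finset.mul_sum, ← Finset.sum_sub_distrib]
          refine Finset.sum_congr rfl fun j _ => ?_
          change f j * (b j - β * f j) = _
          ring
        rw [h1, hf1, ← hβ]
        ring
      have hfg : ∑ j, f j * g j = 0 := by
        have h1 : ∑ j, f j * b' j = N' * ∑ j, f j * g j := by
          rw [Finset.mul_sum]
          refine Finset.sum_congr rfl fun j _ => ?_
          rw [hgN j]
          ring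
        rw [h1] at hfb'
        rcases mul_eq_zero.1 hfb' with h2 | h2
        · exact absurd h2 hN'.ne'
        · exact h2
      let w : ι → ℂ := fun j => if j ∈ B then 0 else z j
      have hdw : ∀ x : ι → ℝ, (∀ j, j ∉ B → x j = 0) → dot x w = 0 := by
        intro x hx
        refine Finset.sum_eq_zero fun j _ => ?_
        by_cases hj : j ∈ B
        · have : w j = 0 := if_pos hj
          rw [this, mul_zero]
        · rw [hx j hj, Complex.ofReal_zero, zero_mul]
      refine ⟨w, f, g, (N : ℂ) - N' + β * Complex.I, (N : ℂ) + N' + β * Complex.I,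
        ⟨hf0, hg0, hf1, hg1, hfg, hdw f hf0, hdw g hg0⟩, ?_, ?_⟩
      · have e1 : ‖(N : ℂ) - N' + β * Complex.I‖ = Real.sqrt ((N - N') ^ 2 + β ^ 2) := by
          rw [← Complex.ofReal_sub, Complex.norm_add_mul_I]
        have e2 : ‖(N : ℂ) + N' + β * Complex.I‖ = Real.sqrt ((N + N') ^ 2 + β ^ 2) := by
          rw [← Complex.ofReal_add, Complex.norm_add_mul_I]
        rw [e1, e2]
        refine Real.sqrt_lt_sqrt (by positivity) ?_
        nlinarith [mul_pos hN hN']
      · funext j
        simp only [pt]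
        by_cases hj : j ∈ B
        · have hw : w j = 0 := if_pos hj
          have h1 : b j - β * f j = N' * g j := hgN j
          have h2 : b j = β * f j + N' * g j := by linarith
          rw [hw, hz j hj, hfN j, h2]
          push_cast
          ring
        · have hw : w j = z j := if_neg hj
          rw [hw, hf0 j hj, hg0 j hj]
          push_cast
          ring

/-- a point whose block part is a complex multiple of a real unit vector can be reflected to the
axis of `b0`. -/
theorem to_axis {B : Finset ι} {b0 : ι} (hb0 : b0 ∈ B) (z : ι → ℂ) (f : ι → ℝ)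
    (hf0 : ∀ j, j ∉ B → f j = 0) (hf1 : ∑ j, f j * f j = 1) (c : ℂ) (hz : ∀ j ∈ B, z j = c * f j) :
    ∃ z' : ι → ℂ, (∀ j ∈ B, j ≠ b0 → z' j = 0) ∧ (z' = z ∨ ∃ x : ι → ℝ, (∀ j, j ∉ B → x j = 0) ∧
      ∑ j, x j * x j = 1 ∧ z' = refl x z) := by
  classical
  let e : ι → ℝ := fun j => if j = b0 then 1 else 0
  have he0 : ∀ j, j ∉ B → e j = 0 := fun j hj => if_neg fun h : j = b0 => hj (h ▸ hb0)
  have he1 : ∑ j, e j * e j = 1 := by
    simp [e]
  let d : ι → ℝ := fun j => f j - e j
  by_cases hd : ∑ j, d j * d j = 0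
  · refine ⟨z, fun j hj hjb => ?_, Or.inl rfl⟩
    have h1 := (Finset.sum_eq_zero_iff_of_nonneg (fun j _ => mul_self_nonneg (d j))).1 hd j
      (Finset.mem_univ j)
    have h2 : f j - e j = 0 := mul_self_eq_zero.1 h1
    have h3 : e j = 0 := if_neg hjb
    have h4 : f j = 0 := by linarith
    rw [hz j hj, h4, Complex.ofReal_zero, mul_zero]
  · have hpos : 0 < ∑ j, d j * d j :=
      lt_of_le_of_ne (Finset.sum_nonneg fun j _ => mul_self_nonneg (d j)) (Ne.symm hd)
    set N : ℝ := Real.sqrt (∑ j, d j * d j) with hN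
    have hN0 : 0 < N := Real.sqrt_pos.2 hpos
    have hNN : N * N = ∑ j, d j * d j := Real.mul_self_sqrt hpos.le
    let x : ι → ℝ := fun j => d j / N
    have hx0 : ∀ j, j ∉ B → x j = 0 := by
      intro j hj
      change (f j - e j) / N = 0
      rw [hf0 j hj, he0 j hj, sub_zero, zero_div]
    have hx1 : ∑ j, x j * x j = 1 := by
      have h1 : ∀ j, x j * x j = (d j * d j) / (N * N) := fun j => div_mul_div_comm _ _ _ _
      simp only [h1]
      rw [← Finset.sum_div, ← hNN, div_self (mul_pos hN0 hN0).ne']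
    -- `x . f = N / 2`
    have hdd : ∑ j, d j * d j = 2 * ∑ j, d j * f j := by
      have h1 : ∑ j, d j * d j = ∑ j, f j * f j - 2 * ∑ j, f j * e j + ∑ j, e j * e j := by
        rw [Finset.mul_sum, ← Finset.sum_sub_distrib, ← Finset.sum_add_distrib]
        refine Finset.sum_congr rfl fun j _ => ?_
        change (f j - e j) * (f j - e j) = _
        ring
      have h2 : ∑ j, d j * f j = ∑ j, f j * f j - ∑ j, f j * e j := by
        rw [← Finset.sum_sub_distrib]
        refine Finset.sum_congr rfl fun j _ => ?_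
        change (f j - e j) * f j = _
        ring
      rw [h1, h2, hf1, he1]
      ring
    have hxf : ∑ j, x j * f j = N / 2 := by
      have h1 : ∑ j, x j * f j = (∑ j, d j * f j) / N := by
        rw [Finset.sum_div]
        refine Finset.sum_congr rfl fun j _ => ?_
        change d j / N * f j = _
        ring
      rw [h1, div_eq_div_iff hN0.ne' two_ne_zero, hNN, hdd]
      ring
    have hdot : dot x z = c * (N / 2 : ℝ) := by
      rw [← hxf, dot, Complex.ofReal_sum, Finset.mul_sum]
      refine Finset.sum_congr rfl fun j _ => ?_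
      by_cases hj : j ∈ B
      · rw [hz j hj]
        push_cast
        ring
      · rw [hx0 j hj]
        push_cast
        ring
    refine ⟨refl x z, fun j hj hjb => ?_, Or.inr ⟨x, hx0, hx1, rfl⟩⟩
    rw [refl, hdot, hz j hj]
    have h3 : e j = 0 := if_neg hjb
    have h4 : N * x j = f j := by
      change N * ((f j - e j) / N) = f j
      rw [h3, sub_zero, mul_div_cancel₀ _ hN0.ne']
    have h5 : (N : ℂ) * x j = f j := by exact_mod_cast h4
    push_cast
    linear_combination (-c) * h5

end Pool.Agent.Lib.H14P
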