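import Pool.Agent.Lib.H14P.P3

/-!
# P4: one block, and induction over blocks
-/

set_option autoImplicit false
set_option linter.unusedSectionVars false

namespace Pool.Agent.Lib.H14P

open MvPolynomial Metric

theorem p4_pow (x y C : ℝ) (hx : 0 ≤ x) (hy : 0 ≤ y) (h : ∀ s : ℕ, x ^ s ≤ C * y ^ s) : x ≤ y := by
  by_contra hlt
  push Not at hlt
  rcases hy.eq_or_lt with h0 | h0
  · have h1 := h 1
    rw [pow_one, pow_one, ← h0, mul_zero] at h1
    linarith
  · have h1 : 1 < x / y := (one_lt_div h0).2 hlt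
    obtain ⟨s, hs⟩ := pow_unbounded_of_one_lt C h1
    have h2 := h s
    rw [div_pow, lt_div_iff₀ (pow_pos h0 s)] at hs
    linarith

theorem p4_two (a b : ℂ) (c : ℝ) (hc : 0 ≤ c) (h : ∀ s : ℕ, ‖a ^ s + b ^ s‖ ≤ 2 * c ^ s) :
    ‖a‖ ≤ c := by
  have h1 : ‖a‖ * ‖b‖ ≤ c * c := by
    refine p4_pow _ _ 3 (by positivity) (by positivity) fun s => ?_
    have e1 : 2 * (a * b) ^ s = (a ^ s + b ^ s) * (a ^ s + b ^ s) - (a ^ (2 * s) + b ^ (2 * s)) := by
      rw [mul_pow, two_mul s, pow_add, pow_add]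
      ring
    have e2 : ‖2 * (a * b) ^ s‖ ≤ (2 * c ^ s) * (2 * c ^ s) + 2 * c ^ (2 * s) := by
      rw [e1]
      refine (norm_sub_le _ _).trans (add_le_add ?_ (h (2 * s)))
      rw [norm_mul]
      exact mul_le_mul (h s) (h s) (norm_nonneg _) (by positivity)
    have e3 : ‖2 * (a * b) ^ s‖ = 2 * (‖a‖ * ‖b‖) ^ s := by
      rw [norm_mul, norm_pow, norm_mul, Complex.norm_two]
    rw [e3] at e2
    have e4 : c ^ (2 * s) = (c * c) ^ s := by
      rw [two_mul, pow_add, mul_pow]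
    have e5 : c ^ s * c ^ s = (c * c) ^ s := by rw [mul_pow]
    rw [e4] at e2
    nlinarith
  by_contra hlt
  push Not at hlt
  have h2 : ‖b‖ ≤ c := by
    by_contra h3
    push Not at h3
    have := mul_lt_mul'' hlt h3 hc hc
    linarith
  have h4 : ‖a‖ ≤ c := by
    refine p4_pow _ _ 3 (norm_nonneg a) hc fun s => ?_
    have e1 : ‖a ^ s‖ ≤ ‖a ^ s + b ^ s‖ + ‖b ^ s‖ := by
      calc ‖a ^ s‖ = ‖(a ^ s + b ^ s) - b ^ s‖ := by rw [add_sub_cancel_right]
        _ ≤ _ := norm_sub_le _ _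
    rw [norm_pow, norm_pow] at e1
    have e2 := h s
    have e3 : ‖b‖ ^ s ≤ c ^ s := pow_le_pow_left₀ (norm_nonneg b) h2 s
    linarith
  linarith

variable {ι : Type} [Fintype ι] [DecidableEq ι]

/-- the point with block part `c e_b0` and the other coordinates of `w`. -/
def rep (B : Finset ι) (b0 : ι) (w : ι → ℂ) (c : ℂ) : ι → ℂ :=
  fun j => if j ∈ B then (if j = b0 then c else 0) else w j

theorem elim (B : Finset ι) (b0 : ι) (P : MvPolynomial ι ℂ) : ∃ E O : MvPolynomial ι ℂ,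
    ∀ (w : ι → ℂ) (c : ℂ), c * c = qf B w → eval (rep B b0 w c) P = eval w E + c * eval w O := by
  induction P using MvPolynomial.induction_on with
  | C a => exact ⟨C a, 0, fun w c _ => by simp only [eval_C, map_zero, mul_zero, add_zero]⟩
  | add p q hp hq =>
    obtain ⟨E, O, h⟩ := hp
    obtain ⟨E', O', h'⟩ := hq
    refine ⟨E + E', O + O', fun w c hc => ?_⟩
    rw [eval_add, h w c hc, h' w c hc, eval_add, eval_add]
    ring
  | mul_X p i hp =>
    obtain ⟨E, O, h⟩ := hp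
    by_cases hi : i ∈ B
    · by_cases hib : i = b0
      · refine ⟨(∑ j ∈ B, X j * X j) * O, E, fun w c hc => ?_⟩
        have h1 : rep B b0 w c i = c := by
          rw [rep, if_pos hi, if_pos hib]
        have h2 : eval w (∑ j ∈ B, X j * X j : MvPolynomial ι ℂ) = qf B w := by
          rw [map_sum, qf]
          exact Finset.sum_congr rfl fun j _ => by rw [eval_mul, eval_X]
        rw [eval_mul, eval_X, h w c hc, h1, eval_mul, h2, ← hc]
        ring
      · refine ⟨0, 0, fun w c hc => ?_⟩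
        have h1 : rep B b0 w c i = 0 := by
          rw [rep, if_pos hi, if_neg hib]
        rw [eval_mul, eval_X, h1, map_zero]
        ring
    · refine ⟨E * X i, O * X i, fun w c hc => ?_⟩
      have h1 : rep B b0 w c i = w i := by
        rw [rep, if_neg hi]
      rw [eval_mul, eval_X, h w c hc, h1, eval_mul, eval_mul, eval_X]
      ring

/-- one block: the points whose block part lies on the axis. -/
def Ax (B : Finset ι) (b0 : ι) : Set (ι → ℂ) := {z | ∀ j ∈ B, j ≠ b0 → z j = 0}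

theorem rep_self {B : Finset ι} {b0 : ι} {z : ι → ℂ} (hz : z ∈ Ax B b0) :
    rep B b0 z (z b0) = z := by
  funext j
  rw [rep]
  by_cases hj : j ∈ B
  · rw [if_pos hj]
    by_cases hjb : j = b0
    · rw [if_pos hjb, hjb]
    · rw [if_neg hjb, hz j hj hjb]
  · rw [if_neg hj]

theorem qf_self {B : Finset ι} {b0 : ι} (hb0 : b0 ∈ B) {z : ι → ℂ} (hz : z ∈ Ax B b0) :
    z b0 * z b0 = qf B z := by
  rw [qf, Finset.sum_eq_single_of_mem b0 hb0]
  intro j hj hjb
  rw [hz j hj hjb, mul_zero]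

theorem rep_neg_mem {B : Finset ι} {b0 : ι} (hb0 : b0 ∈ B) {S : Set (ι → ℂ)} (hS : Refl B S)
    {z : ι → ℂ} (hz : z ∈ Ax B b0) (hzS : z ∈ S) : rep B b0 z (-z b0) ∈ S := by
  have hx0 : ∀ j, j ∉ B → (fun j => if j = b0 then (1 : ℝ) else 0) j = 0 :=
    fun j hj => if_neg fun h : j = b0 => hj (h ▸ hb0)
  have h1 := hS (fun j => if j = b0 then (1 : ℝ) else 0) hx0 (by simp) z hzS
  have h2 : refl (fun j => if j = b0 then (1 : ℝ) else 0) z = rep B b0 z (-z b0) := by
    have hd : dot (fun j => if j = b0 then (1 : ℝ) else 0) z = z b0 := by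
      rw [dot, Finset.sum_eq_single b0]
      · simp
      · intro j _ hj
        simp [hj]
      · intro h
        exact absurd (Finset.mem_univ b0) h
    funext j
    rw [refl, hd, rep]
    by_cases hj : j ∈ B
    · rw [if_pos hj]
      by_cases hjb : j = b0
      · rw [if_pos hjb, if_pos hjb, hjb]
        push_cast
        ring
      · rw [if_neg hjb, if_neg hjb, hz j hj hjb]
        push_cast
        ring
    · have hjb : j ≠ b0 := fun h : j = b0 => hj (h ▸ hb0)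
      rw [if_neg hj, if_neg hjb]
      push_cast
      ring
  rwa [h2] at h1

theorem p4_nonempty {K : Set (ι → ℂ)} {x : ι → ℂ} (hx : x ∈ hull K) : K.Nonempty := by
  by_contra h
  rw [Set.not_nonempty_iff_eq_empty] at h
  have h1 := hx 0 (-1) (fun w hw => by rw [h] at hw; exact hw.elim)
  have h2 := norm_nonneg (eval x (0 : MvPolynomial ι ℂ))
  linarith

/-- the point can be moved to the axis, without leaving `K` or its complement. -/
theorem move {B : Finset ι} {b0 : ι} (hb0 : b0 ∈ B) {K : Set (ι → ℂ)} (hK : Refl B K)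
    (hno : ¬ HasDisc (hull K)) {z : ι → ℂ} (hz : z ∈ hull K) :
    ∃ z' ∈ Ax B b0, z' ∈ hull K ∧ (z ∈ K ↔ z' ∈ K) ∧ qf B z' = qf B z ∧
      (∀ j, j ∉ B → z' j = z j) := by
  rcases split hb0 z with ⟨f, hf0, hf1, c, hc⟩ | ⟨w, f, g, u, v, hF, hlt, rfl⟩
  · obtain ⟨z', hz', rfl | ⟨x, hx0, hx1, rfl⟩⟩ := to_axis hb0 z f hf0 hf1 c hc
    · exact ⟨z', hz', hz, Iff.rfl, rfl, fun _ _ => rfl⟩
    · refine ⟨refl x z, hz', hK.hull x hx0 hx1 z hz, ⟨hK x hx0 hx1 z, fun h => ?_⟩,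
        qf_refl hx0 hx1 z, fun j hj => refl_off hx0 z hj⟩
      have h1 := hK x hx0 hx1 _ h
      rwa [refl_refl hx1] at h1
  · exact absurd (disc_of_pt hK hF hz hlt) hno

theorem core {B : Finset ι} {b0 : ι} (hb0 : b0 ∈ B) {K : Set (ι → ℂ)} (hK : Refl B K)
    (hno : ¬ HasDisc (hull K)) {x : ι → ℂ} (hx : x ∈ hull K) (hxK : x ∉ K) :
    ∃ y ∈ hull (K ∩ Ax B b0), y ∉ K ∩ Ax B b0 := by
  obtain ⟨x', hx'A, hx'H, hiff, -, -⟩ := move hb0 hK hno hx
  refine ⟨x', fun P c hc => ?_, fun h => hxK (hiff.2 h.1)⟩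
  obtain ⟨w0, hw0⟩ := p4_nonempty hx
  have hc0 : 0 ≤ c := by
    obtain ⟨w', hw'A, -, hiff', -, -⟩ := move hb0 hK hno (p1_subset hw0)
    exact (norm_nonneg _).trans (hc w' ⟨hiff'.1 hw0, hw'A⟩)
  rw [← rep_self hx'A]
  refine p4_two _ (eval (rep B b0 x' (-x' b0)) P) c hc0 fun s => ?_
  obtain ⟨E, O, hEO⟩ := elim B b0 (P ^ s)
  have hsum : ∀ w : ι → ℂ, ∀ d : ℂ, d * d = qf B w →
      eval (rep B b0 w d) P ^ s + eval (rep B b0 w (-d)) P ^ s = eval w (C 2 * E) := by
    intro w d hd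
    rw [← eval_pow, ← eval_pow, hEO w d hd, hEO w (-d) (by rw [neg_mul_neg]; exact hd), eval_mul,
      eval_C]
    ring
  rw [hsum x' (x' b0) (qf_self hb0 hx'A)]
  refine hx'H _ _ fun w hw => ?_
  obtain ⟨w', hw'A, -, hiff', hq, hoff⟩ := move hb0 hK hno (p1_subset hw)
  have hw'K : w' ∈ K := hiff'.1 hw
  have h1 : rep B b0 w (w' b0) = w' := by
    nth_rewrite 2 [← rep_self hw'A]
    funext j
    rw [rep, rep]
    by_cases hj : j ∈ B
    · rw [if_pos hj, if_pos hj]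
    · rw [if_neg hj, if_neg hj, hoff j hj]
  have h2 : rep B b0 w (-w' b0) = rep B b0 w' (-w' b0) := by
    funext j
    rw [rep, rep]
    by_cases hj : j ∈ B
    · rw [if_pos hj, if_pos hj]
    · rw [if_neg hj, if_neg hj, hoff j hj]
  rw [← hsum w (w' b0) (by rw [qf_self hb0 hw'A, hq]), h1, h2]
  have h3 : rep B b0 w' (-w' b0) ∈ K ∩ Ax B b0 := by
    refine ⟨rep_neg_mem hb0 hK hw'A hw'K, fun j hj hjb => ?_⟩
    rw [rep, if_pos hj, if_neg hjb]
  calc ‖eval w' P ^ s + eval (rep B b0 w' (-w' b0)) P ^ s‖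
      ≤ ‖eval w' P ^ s‖ + ‖eval (rep B b0 w' (-w' b0)) P ^ s‖ := norm_add_le _ _
    _ ≤ c ^ s + c ^ s := by
        rw [norm_pow, norm_pow]
        exact add_le_add (pow_le_pow_left₀ (norm_nonneg _) (hc w' ⟨hw'K, hw'A⟩) s)
          (pow_le_pow_left₀ (norm_nonneg _) (hc _ h3) s)
    _ = 2 * c ^ s := by ring

theorem hull_mono {K K' : Set (ι → ℂ)} (h : K ⊆ K') : hull K ⊆ hull K' :=
  fun _ hz P c hc => hz P c fun w hw => hc w (h hw)

theorem HasDisc.mono {S S' : Set (ι → ℂ)} (h : S ⊆ S') (hS : HasDisc S) : HasDisc S' := by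
  obtain ⟨f, hf, hne, hfS⟩ := hS
  exact ⟨f, hf, hne, fun ζ hζ => h (hfS ζ hζ)⟩

/-- induction over disjoint blocks. -/
theorem blocks {κ : Type} [DecidableEq κ] (B : κ → Finset ι) (b : κ → ι) (hb : ∀ i, b i ∈ B i)
    (hdisj : ∀ i i' j, j ∈ B i → j ∈ B i' → i = i') {K : Set (ι → ℂ)} (T : Finset κ)
    (hK : ∀ i ∈ T, Refl (B i) K ∨ ∀ j ∈ B i, j = b i)
    (hno : ¬ HasDisc (hull K)) {x : ι → ℂ} (hx : x ∈ hull K) (hxK : x ∉ K) :
    ∃ y ∈ hull (K ∩ {z | ∀ i ∈ T, z ∈ Ax (B i) (b i)}),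
      y ∉ K ∩ {z | ∀ i ∈ T, z ∈ Ax (B i) (b i)} := by
  induction T using Finset.induction_on with
  | empty =>
    have h : K ∩ {z | ∀ i ∈ (∅ : Finset κ), z ∈ Ax (B i) (b i)} = K := by
      ext z
      simp
    rw [h]
    exact ⟨x, hx, hxK⟩
  | insert i T hi ih =>
    obtain ⟨y, hy, hyK⟩ := ih fun i' hi' => hK i' (Finset.mem_insert_of_mem hi')
    set K' := K ∩ {z | ∀ i ∈ T, z ∈ Ax (B i) (b i)} with hK'
    have hset : K ∩ {z | ∀ i' ∈ insert i T, z ∈ Ax (B i') (b i')} = K' ∩ Ax (B i) (b i) := by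
      ext z
      constructor
      · intro h
        exact ⟨⟨h.1, fun i' hi' => h.2 i' (Finset.mem_insert_of_mem hi')⟩,
          h.2 i (Finset.mem_insert_self i T)⟩
      · intro h
        refine ⟨h.1.1, fun i' hi' => ?_⟩
        rcases Finset.mem_insert.1 hi' with rfl | h'
        · exact h.2
        · exact h.1.2 i' h'
    rw [hset]
    rcases hK i (Finset.mem_insert_self i T) with hR | htriv
    · have hR' : Refl (B i) K' := by
        intro x hx0 hx1 z hz
        refine ⟨hR x hx0 hx1 z hz.1, fun i' hi' j hj hjb => ?_⟩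
        have hne : i' ≠ i := fun h => hi (h ▸ hi')
        have hj' : j ∉ B i := fun h => hne (hdisj i' i j hj h)
        rw [refl_off hx0 z hj']
        exact hz.2 i' hi' j hj hjb
      have hno' : ¬ HasDisc (hull K') := fun h =>
        hno (HasDisc.mono (hull_mono Set.inter_subset_left) h)
      exact core (hb i) hR' hno' hy hyK
    · have h : K' ∩ Ax (B i) (b i) = K' := by
        refine Set.inter_eq_left.2 fun z _ j hj hjb => absurd (htriv j hj) hjb
      rw [h]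
      exact ⟨y, hy, hyK⟩

end Pool.Agent.Lib.H14P
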