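import Pool.Agent.Lib.H14P.P4

/-!
# P5: concrete blocks, the slice
-/

set_option autoImplicit false
set_option linter.unusedSectionVars false

namespace Pool.Agent.Lib.H14P

open MvPolynomial Metric

/-- a family of real square matrices acting on the blocks. -/
noncomputable def act {k : ℕ} {n : Fin k → ℕ} (A : ∀ i, Matrix (Fin (n i + 1)) (Fin (n i + 1)) ℝ)
    (z : (Σ i : Fin k, Fin (n i + 1)) → ℂ) : (Σ i : Fin k, Fin (n i + 1)) → ℂ :=
  fun p => ∑ l, (A p.1 p.2 l : ℂ) * z ⟨p.1, l⟩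

/-- invariance under the product of the groups of the blocks: `1` for size one, `O(2)` for size two,
`SO(m)` for size `m` at least three. -/
def Inv {k : ℕ} {n : Fin k → ℕ} (K : Set ((Σ i : Fin k, Fin (n i + 1)) → ℂ)) : Prop :=
  ∀ A : ∀ i, Matrix (Fin (n i + 1)) (Fin (n i + 1)) ℝ,
    (∀ i, A i ∈ Matrix.orthogonalGroup (Fin (n i + 1)) ℝ) → (∀ i, n i = 0 → A i = 1) →
      (∀ i, 2 ≤ n i → (A i).det = 1) → ∀ z ∈ K, act A z ∈ K

/-- the embedding of `ℂ^k` through the first coordinates of the blocks. -/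
def emb {k : ℕ} (n : Fin k → ℕ) (y : Fin k → ℂ) : (Σ i : Fin k, Fin (n i + 1)) → ℂ :=
  fun p => if p.2 = 0 then y p.1 else 0

/-- the slice. -/
def slice {k : ℕ} {n : Fin k → ℕ} (K : Set ((Σ i : Fin k, Fin (n i + 1)) → ℂ)) : Set (Fin k → ℂ) :=
  {y | emb n y ∈ K}

variable {k : ℕ} {n : Fin k → ℕ}

/-- the block of `i`. -/
def Bl (n : Fin k → ℕ) (i : Fin k) : Finset (Σ i : Fin k, Fin (n i + 1)) :=
  Finset.univ.filter fun p => p.1 = i

theorem mem_Bl (i : Fin k) (p : Σ i : Fin k, Fin (n i + 1)) : p ∈ Bl n i ↔ p.1 = i := by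
  simp [Bl]

theorem dot_sigma {i : Fin k} {x : (Σ i : Fin k, Fin (n i + 1)) → ℝ}
    (hx : ∀ p, p ∉ Bl n i → x p = 0) (z : (Σ i : Fin k, Fin (n i + 1)) → ℂ) :
    dot x z = ∑ l, (x ⟨i, l⟩ : ℂ) * z ⟨i, l⟩ := by
  rw [dot, Fintype.sum_sigma, Finset.sum_eq_single i]
  · intro i' _ hi'
    refine Finset.sum_eq_zero fun l _ => ?_
    rw [hx ⟨i', l⟩ (fun h => hi' ((mem_Bl i _).1 h)), Complex.ofReal_zero, zero_mul]
  · intro h
    exact absurd (Finset.mem_univ i) h

/-- the reflection matrices. -/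
noncomputable def hh (x : (Σ i : Fin k, Fin (n i + 1)) → ℝ) (i : Fin k) :
    Matrix (Fin (n i + 1)) (Fin (n i + 1)) ℝ :=
  1 - (2 : ℝ) • Matrix.vecMulVec (fun l => x ⟨i, l⟩) (fun l => x ⟨i, l⟩)

theorem hh_off {i : Fin k} {x : (Σ i : Fin k, Fin (n i + 1)) → ℝ}
    (hx : ∀ p, p ∉ Bl n i → x p = 0) {i' : Fin k} (hi' : i' ≠ i) (l : Fin (n i' + 1)) :
    x ⟨i', l⟩ = 0 := hx ⟨i', l⟩ fun h => hi' ((mem_Bl i _).1 h)

theorem hh_on {i : Fin k} {x : (Σ i : Fin k, Fin (n i + 1)) → ℝ}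
    (hx : ∀ p, p ∉ Bl n i → x p = 0) (hx1 : ∑ j, x j * x j = 1) :
    ∑ l, x ⟨i, l⟩ * x ⟨i, l⟩ = 1 := by
  rw [← hx1, Fintype.sum_sigma, Finset.sum_eq_single i]
  · intro i' _ hi'
    refine Finset.sum_eq_zero fun l _ => ?_
    rw [hh_off hx hi' l, zero_mul]
  · intro h
    exact absurd (Finset.mem_univ i) h

theorem hh_act {i : Fin k} {x : (Σ i : Fin k, Fin (n i + 1)) → ℝ}
    (hx : ∀ p, p ∉ Bl n i → x p = 0) (z : (Σ i : Fin k, Fin (n i + 1)) → ℂ) :
    act (hh x) z = refl x z := by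
  funext p
  obtain ⟨i', j⟩ := p
  have h3 : act (hh x) z ⟨i', j⟩ =
      z ⟨i', j⟩ - 2 * (∑ l, (x ⟨i', l⟩ : ℂ) * z ⟨i', l⟩) * x ⟨i', j⟩ := by
    simp only [act, hh, Matrix.sub_apply, Matrix.smul_apply, Matrix.vecMulVec_apply, smul_eq_mul,
      Complex.ofReal_sub, Complex.ofReal_mul, sub_mul, Finset.sum_sub_distrib]
    have h4 : ∑ l, (((1 : Matrix (Fin (n i' + 1)) (Fin (n i' + 1)) ℝ) j l : ℝ) : ℂ) * z ⟨i', l⟩ =
        z ⟨i', j⟩ := by
      rw [Finset.sum_eq_single j]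
      · rw [Matrix.one_apply_eq, Complex.ofReal_one, one_mul]
      · intro l _ hl
        rw [Matrix.one_apply_ne (Ne.symm hl), Complex.ofReal_zero, zero_mul]
      · intro h
        exact absurd (Finset.mem_univ j) h
    rw [h4, Finset.mul_sum, Finset.sum_mul]
    congr 1
    refine Finset.sum_congr rfl fun l _ => ?_
    push_cast
    ring
  rw [h3, refl, dot_sigma hx]
  by_cases hi' : i' = i
  · subst hi'
    rfl
  · rw [hh_off hx hi' j]
    push_cast
    ring

theorem hh_one {i : Fin k} {x : (Σ i : Fin k, Fin (n i + 1)) → ℝ}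
    (hx : ∀ p, p ∉ Bl n i → x p = 0) {i' : Fin k} (hi' : i' ≠ i) : hh x i' = 1 := by
  have h5 : (fun l => x ⟨i', l⟩) = 0 := by
    funext l
    exact hh_off hx hi' l
  rw [hh, h5, Matrix.zero_vecMulVec, smul_zero, sub_zero]

theorem hh_orth {i : Fin k} {x : (Σ i : Fin k, Fin (n i + 1)) → ℝ}
    (hx : ∀ p, p ∉ Bl n i → x p = 0) (hx1 : ∑ j, x j * x j = 1) (i' : Fin k) :
    hh x i' ∈ Matrix.orthogonalGroup (Fin (n i' + 1)) ℝ := by
  rw [Matrix.mem_orthogonalGroup_iff]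
  ext j m
  have e1 : ∀ l, hh x i' j l * hh x i' m l =
      (1 : Matrix (Fin (n i' + 1)) (Fin (n i' + 1)) ℝ) j l *
        (1 : Matrix (Fin (n i' + 1)) (Fin (n i' + 1)) ℝ) m l
      - (1 : Matrix (Fin (n i' + 1)) (Fin (n i' + 1)) ℝ) j l * (2 * x ⟨i', m⟩ * x ⟨i', l⟩)
      - (1 : Matrix (Fin (n i' + 1)) (Fin (n i' + 1)) ℝ) m l * (2 * x ⟨i', j⟩ * x ⟨i', l⟩)
      + 4 * x ⟨i', j⟩ * x ⟨i', m⟩ * (x ⟨i', l⟩ * x ⟨i', l⟩) := by
    intro l
    simp only [hh, Matrix.sub_apply, Matrix.smul_apply, Matrix.vecMulVec_apply, smul_eq_mul]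
    ring
  have e2 : ∀ (j : Fin (n i' + 1)) (F : Fin (n i' + 1) → ℝ),
      ∑ l, (1 : Matrix (Fin (n i' + 1)) (Fin (n i' + 1)) ℝ) j l * F l = F j := by
    intro j F
    rw [Finset.sum_eq_single j]
    · rw [Matrix.one_apply_eq, one_mul]
    · intro l _ hl
      rw [Matrix.one_apply_ne (Ne.symm hl), zero_mul]
    · intro h
      exact absurd (Finset.mem_univ j) h
  have e3 : (1 : Matrix (Fin (n i' + 1)) (Fin (n i' + 1)) ℝ) m j =
      (1 : Matrix (Fin (n i' + 1)) (Fin (n i' + 1)) ℝ) j m := by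
    rw [Matrix.one_apply, Matrix.one_apply]
    by_cases h : j = m
    · rw [if_pos h, if_pos h.symm]
    · rw [if_neg h, if_neg fun h' => h h'.symm]
  have hs : (hh x i' * (hh x i').transpose) j m =
      (1 : Matrix (Fin (n i' + 1)) (Fin (n i' + 1)) ℝ) j m - 4 * x ⟨i', j⟩ * x ⟨i', m⟩
        + 4 * x ⟨i', j⟩ * x ⟨i', m⟩ * ∑ l, x ⟨i', l⟩ * x ⟨i', l⟩ := by
    rw [Matrix.mul_apply]
    simp only [Matrix.transpose_apply, e1]
    rw [Finset.sum_add_distrib, Finset.sum_sub_distrib, Finset.sum_sub_distrib, ← Finset.mul_sum,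
      e2 j, e2 j, e2 m, e3]
    ring
  rw [hs]
  by_cases hi' : i' = i
  · subst hi'
    rw [hh_on hx hx1]
    ring
  · rw [hh_off hx hi' j]
    ring

theorem hh_det {i : Fin k} {x : (Σ i : Fin k, Fin (n i + 1)) → ℝ}
    (hx : ∀ p, p ∉ Bl n i → x p = 0) (hx1 : ∑ j, x j * x j = 1) : (hh x i).det = -1 := by
  have h1 : hh x i = 1 + Matrix.replicateCol Unit (fun l => -2 * x ⟨i, l⟩) *
      Matrix.replicateRow Unit (fun l => x ⟨i, l⟩) := by
    ext j l
    rw [← Matrix.vecMulVec_eq]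
    simp only [hh, Matrix.sub_apply, Matrix.add_apply, Matrix.smul_apply, Matrix.vecMulVec_apply,
      smul_eq_mul]
    ring
  rw [h1, Matrix.det_one_add_replicateCol_mul_replicateRow]
  have h2 : (fun l => x ⟨i, l⟩) ⬝ᵥ (fun l => -2 * x ⟨i, l⟩) = -2 * ∑ l, x ⟨i, l⟩ * x ⟨i, l⟩ := by
    rw [dotProduct, Finset.mul_sum]
    exact Finset.sum_congr rfl fun l _ => by ring
  rw [h2, hh_on hx hx1]
  norm_num

theorem act_mul (A C : ∀ i, Matrix (Fin (n i + 1)) (Fin (n i + 1)) ℝ)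
    (z : (Σ i : Fin k, Fin (n i + 1)) → ℂ) : act (fun i => A i * C i) z = act A (act C z) := by
  funext p
  simp only [act, Matrix.mul_apply, Complex.ofReal_sum, Complex.ofReal_mul, Finset.sum_mul,
    Finset.mul_sum]
  rw [Finset.sum_comm]
  exact Finset.sum_congr rfl fun l _ => Finset.sum_congr rfl fun m _ => by ring

/-- a real unit vector orthogonal to the real and imaginary parts of a point in a block of size at
least three. -/
theorem exists_orth (i : Fin k) (hi : 2 ≤ n i) (z : (Σ i : Fin k, Fin (n i + 1)) → ℂ) :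
    ∃ y : (Σ i : Fin k, Fin (n i + 1)) → ℝ, (∀ p, p ∉ Bl n i → y p = 0) ∧
      ∑ j, y j * y j = 1 ∧ dot y z = 0 := by
  let F : (Fin (n i + 1) → ℝ) →ₗ[ℝ] (Fin 2 → ℝ) :=
    { toFun := fun v => ![∑ l, v l * (z ⟨i, l⟩).re, ∑ l, v l * (z ⟨i, l⟩).im]
      map_add' := by
        intro v w
        ext q
        fin_cases q <;> simp [add_mul, Finset.sum_add_distrib]
      map_smul' := by
        intro c v
        ext q
        fin_cases q <;> simp [mul_assoc, Finset.mul_sum] }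
  have hker : LinearMap.ker F ≠ ⊥ := by
    refine LinearMap.ker_ne_bot_of_finrank_lt ?_
    simp
    omega
  obtain ⟨v, hv, hv0⟩ := (Submodule.ne_bot_iff _).1 hker
  have hpos : 0 < ∑ l, v l * v l := by
    refine lt_of_le_of_ne (Finset.sum_nonneg fun l _ => mul_self_nonneg (v l)) fun h => hv0 ?_
    funext l
    have h1 := (Finset.sum_eq_zero_iff_of_nonneg (fun l _ => mul_self_nonneg (v l))).1 h.symm l
      (Finset.mem_univ l)
    exact mul_self_eq_zero.1 h1
  rw [LinearMap.mem_ker] at hv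
  have hre : ∑ l, v l * (z ⟨i, l⟩).re = 0 := congrFun hv 0
  have him : ∑ l, v l * (z ⟨i, l⟩).im = 0 := congrFun hv 1
  set N : ℝ := Real.sqrt (∑ l, v l * v l) with hN
  have hN0 : 0 < N := Real.sqrt_pos.2 hpos
  have hNN : N * N = ∑ l, v l * v l := Real.mul_self_sqrt hpos.le
  let y : (Σ i : Fin k, Fin (n i + 1)) → ℝ :=
    fun p => if h : p.1 = i then v (Fin.cast (by rw [h]) p.2) / N else 0
  have hyi : ∀ l, y ⟨i, l⟩ = v l / N := fun l => dif_pos rfl
  have hy0 : ∀ p, p ∉ Bl n i → y p = 0 := fun p hp => dif_neg fun h => hp ((mem_Bl i p).2 h)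
  refine ⟨y, hy0, ?_, ?_⟩
  · rw [Fintype.sum_sigma, Finset.sum_eq_single i]
    · simp only [hyi]
      have h1 : ∀ l, v l / N * (v l / N) = (v l * v l) / (N * N) := fun l => div_mul_div_comm _ _ _ _
      simp only [h1]
      rw [← Finset.sum_div, ← hNN, div_self (mul_pos hN0 hN0).ne']
    · intro i' _ hi'
      refine Finset.sum_eq_zero fun l _ => ?_
      rw [hh_off hy0 hi' l, zero_mul]
    · intro h
      exact absurd (Finset.mem_univ i) h
  · rw [dot_sigma hy0]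
    simp only [hyi]
    have h1 : ∑ l, ((v l / N : ℝ) : ℂ) * z ⟨i, l⟩ =
        (((∑ l, v l * (z ⟨i, l⟩).re) / N : ℝ) : ℂ) +
          (((∑ l, v l * (z ⟨i, l⟩).im) / N : ℝ) : ℂ) * Complex.I := by
      rw [Finset.sum_div, Finset.sum_div, Complex.ofReal_sum, Complex.ofReal_sum, Finset.sum_mul,
        ← Finset.sum_add_distrib]
      refine Finset.sum_congr rfl fun l _ => ?_
      nth_rewrite 1 [← Complex.re_add_im (z ⟨i, l⟩)]
      push_cast
      ring
    rw [h1, hre, him, zero_div, Complex.ofReal_zero, zero_mul, add_zero]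

theorem refl_of_inv {K : Set ((Σ i : Fin k, Fin (n i + 1)) → ℂ)} (hK : Inv K) (i : Fin k)
    (hi : n i ≠ 0) : Refl (Bl n i) K := by
  intro x hx0 hx1 z hz
  by_cases h2 : 2 ≤ n i
  · obtain ⟨y, hy0, hy1, hyz⟩ := exists_orth i h2 z
    have h1 := hK (fun i' => hh x i' * hh y i') (fun i' => mul_mem (hh_orth hx0 hx1 i')
      (hh_orth hy0 hy1 i')) ?_ ?_ z hz
    · have h3 : refl y z = z := by
        funext j
        rw [refl, hyz, mul_zero, zero_mul, sub_zero]
      rwa [act_mul, hh_act hy0, h3, hh_act hx0] at h1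
    · intro i' hi'
      have hne : i' ≠ i := fun h => hi (h ▸ hi')
      rw [hh_one hx0 hne, hh_one hy0 hne, one_mul]
    · intro i' _
      by_cases hii : i' = i
      · subst hii
        rw [Matrix.det_mul, hh_det hx0 hx1, hh_det hy0 hy1]
        norm_num
      · rw [hh_one hx0 hii, hh_one hy0 hii, one_mul, Matrix.det_one]
  · have h1 := hK (hh x) (hh_orth hx0 hx1) ?_ ?_ z hz
    · rwa [hh_act hx0] at h1
    · intro i' hi'
      have hne : i' ≠ i := fun h => hi (h ▸ hi')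
      exact hh_one hx0 hne
    · intro i' hi'
      have hne : i' ≠ i := fun h => h2 (h ▸ hi')
      rw [hh_one hx0 hne, Matrix.det_one]

theorem emb_mem_hull {K : Set ((Σ i : Fin k, Fin (n i + 1)) → ℂ)} {y : Fin k → ℂ}
    (hy : y ∈ hull (slice K)) : emb n y ∈ hull K := by
  have key : ∀ w : Fin k → ℂ, (fun p : Σ i : Fin k, Fin (n i + 1) =>
      eval w (if p.2 = 0 then X p.1 else 0 : MvPolynomial (Fin k) ℂ)) = emb n w := by
    intro w
    funext p
    rw [emb]
    by_cases h : p.2 = 0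
    · rw [if_pos h, if_pos h, eval_X]
    · rw [if_neg h, if_neg h, map_zero]
  have h1 := p2_map (K := slice K) (K' := K)
    (fun p : Σ i : Fin k, Fin (n i + 1) => (if p.2 = 0 then X p.1 else 0 : MvPolynomial (Fin k) ℂ))
    (fun w hw => by rw [key]; exact p1_subset hw) hy
  rwa [key] at h1

theorem emb_continuous : Continuous (emb n) := by
  refine continuous_pi fun p => ?_
  simp only [emb]
  by_cases h : p.2 = 0
  · simp only [if_pos h]
    exact continuous_apply p.1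
  · simp only [if_neg h]
    exact continuous_const

theorem slice_isCompact {K : Set ((Σ i : Fin k, Fin (n i + 1)) → ℂ)} (hK : IsCompact K) :
    IsCompact (slice K) := by
  obtain ⟨R, hR⟩ := hK.isBounded.exists_norm_le
  refine (isCompact_closedBall (0 : Fin k → ℂ) (max R 0)).of_isClosed_subset
    (hK.isClosed.preimage emb_continuous) ?_
  intro y hy
  rw [mem_closedBall_zero_iff, pi_norm_le_iff_of_nonneg (le_max_right _ _)]
  intro i
  have h1 := (norm_le_pi_norm (emb n y) ⟨i, 0⟩).trans (hR _ hy)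
  have h2 : emb n y ⟨i, 0⟩ = y i := if_pos rfl
  rw [h2] at h1
  exact h1.trans (le_max_left _ _)

theorem disc_of_slice {K : Set ((Σ i : Fin k, Fin (n i + 1)) → ℂ)}
    (h : HasDisc (hull (slice K))) : HasDisc (hull K) := by
  obtain ⟨f, hf, ⟨a, ha, b, hb, hab⟩, hfS⟩ := h
  refine ⟨fun ζ => emb n (f ζ), ?_, ⟨a, ha, b, hb, fun he => hab ?_⟩,
    fun ζ hζ => emb_mem_hull (hfS ζ hζ)⟩
  · rw [differentiableOn_pi]
    intro p
    simp only [emb]
    by_cases h : p.2 = 0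
    · simp only [if_pos h]
      exact differentiableOn_pi.1 hf p.1
    · simp only [if_neg h]
      exact differentiableOn_const 0
  · funext i
    have h1 := congrFun he ⟨i, 0⟩
    have h2 : ∀ y : Fin k → ℂ, emb n y ⟨i, 0⟩ = y i := fun y => if_pos rfl
    simp only at h1
    rwa [h2, h2] at h1

/-- the dichotomy. -/
theorem p5_main {K : Set ((Σ i : Fin k, Fin (n i + 1)) → ℂ)} (hinv : Inv K)
    (hno : ¬ HasDisc (hull K)) {x : (Σ i : Fin k, Fin (n i + 1)) → ℂ} (hx : x ∈ hull K)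
    (hxK : x ∉ K) : ∃ y ∈ hull (slice K), y ∉ slice K := by
  obtain ⟨y, hy, hyK⟩ := blocks (Bl n) (fun i => ⟨i, 0⟩) (fun i => (mem_Bl i _).2 rfl)
    (fun i i' j hj hj' => ((mem_Bl i j).1 hj).symm.trans ((mem_Bl i' j).1 hj')) Finset.univ
    (fun i _ => by
      by_cases hi : n i = 0
      · right
        intro j hj
        obtain ⟨i', l⟩ := j
        have h1 : i' = i := (mem_Bl i _).1 hj
        subst h1
        have h2 : l = 0 := by
          apply Fin.ext
          have := l.2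
          rw [Fin.val_zero]
          omega
        rw [h2]
      · left
        exact refl_of_inv hinv i hi) hno hx hxK
  set K' := K ∩ {z | ∀ i ∈ (Finset.univ : Finset (Fin k)),
    z ∈ Ax (Bl n i) (⟨i, 0⟩ : Σ i : Fin k, Fin (n i + 1))} with hK'
  have hAx : ∀ z : (Σ i : Fin k, Fin (n i + 1)) → ℂ,
      (∀ i ∈ (Finset.univ : Finset (Fin k)), z ∈ Ax (Bl n i) (⟨i, 0⟩ : Σ i : Fin k, Fin (n i + 1)))
        ↔ emb n (fun i => z ⟨i, 0⟩) = z := by
    intro z
    constructor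
    · intro h
      funext p
      obtain ⟨i, l⟩ := p
      rw [emb]
      by_cases hl : l = 0
      · subst hl
        exact if_pos rfl
      · rw [if_neg hl]
        refine (h i (Finset.mem_univ i) ⟨i, l⟩ ((mem_Bl i _).2 rfl) fun h' => hl ?_).symm
        exact eq_of_heq (Sigma.mk.inj h').2
    · intro h i _ j hj hjb
      obtain ⟨i', l⟩ := j
      have h1 : i' = i := (mem_Bl i _).1 hj
      subst h1
      have hl : l ≠ 0 := fun h' => hjb (by rw [h'])
      rw [← h, emb, if_neg hl]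
  -- `y` lies on the axes
  have hyA : emb n (fun i => y ⟨i, 0⟩) = y := by
    rw [← hAx]
    intro i _ j hj hjb
    have h1 := hy (X j) 0 (fun w hw => by
      rw [eval_X, hw.2 i (Finset.mem_univ i) j hj hjb, norm_zero])
    rw [eval_X] at h1
    exact norm_le_zero_iff.1 h1
  refine ⟨fun i => y ⟨i, 0⟩, ?_, fun h => ?_⟩
  · have key : ∀ w : (Σ i : Fin k, Fin (n i + 1)) → ℂ, (fun i : Fin k =>
        eval w (X ⟨i, 0⟩ : MvPolynomial (Σ i : Fin k, Fin (n i + 1)) ℂ)) = fun i => w ⟨i, 0⟩ := by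
      intro w
      funext i
      rw [eval_X]
    have h1 := p2_map (K := K') (K' := slice K)
      (fun i : Fin k => (X ⟨i, 0⟩ : MvPolynomial (Σ i : Fin k, Fin (n i + 1)) ℂ))
      (fun w hw => by
        rw [key]
        refine p1_subset ?_
        change emb n (fun i => w ⟨i, 0⟩) ∈ K
        rw [(hAx w).1 hw.2]
        exact hw.1) hy
    rwa [key] at h1
  · apply hyK
    have h1 : emb n (fun i => y ⟨i, 0⟩) ∈ K := h
    rw [hyA] at h1
    exact ⟨h1, (hAx y).2 hyA⟩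

end Pool.Agent.Lib.H14P
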