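import Pool.Agent.Lib.H14P.P5
import Pool.Agent.Lib.Helper34.PH14

/-!
# P6: the unconditional cases
-/

set_option autoImplicit false
set_option linter.unusedSectionVars false

namespace Pool.Agent.Lib.H14P

open MvPolynomial Metric

variable {k : ℕ} {n : Fin k → ℕ}

/-- the statement of Q1 for `S`. -/
def Hol {ι : Type} [Fintype ι] (S : Set (ι → ℂ)) : Prop := (∃ x ∈ hull S, x ∉ S) → HasDisc (hull S)

theorem p6_red {K : Set ((Σ i : Fin k, Fin (n i + 1)) → ℂ)} (hinv : Inv K) (h : Hol (slice K)) :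
    Hol K := by
  rintro ⟨x, hx, hxK⟩
  by_contra hno
  exact hno (disc_of_slice (h (p5_main hinv hno hx hxK)))

theorem p6_abelian {K : Set ((Σ i : Fin k, Fin (n i + 1)) → ℂ)} (hK : IsCompact K) (hinv : Inv K)
    (G : Subgroup (Fin k → Circle))
    (hG : ∀ a b : Fin k → ℕ, (∀ u ∈ G, ∏ i, u i ^ a i = 1) → (∀ u ∈ G, ∏ i, u i ^ b i = 1) →
      ∃ p q : ℕ, (p ≠ 0 ∨ q ≠ 0) ∧ ∀ i, p * a i = q * b i)
    (hGK : ∀ u ∈ G, ∀ y ∈ slice K, (fun i => (u i : ℂ) * y i) ∈ slice K) : Hol K := by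
  refine p6_red hinv ?_
  rintro ⟨y, hy, hyS⟩
  exact Pool.Agent.Lib.Helper34.PH.ph14_main (slice_isCompact hK) G hG hGK y hy hyS

theorem p6_one {K : Set ((Σ i : Fin k, Fin (n i + 1)) → ℂ)} (hK : IsCompact K) (hinv : Inv K)
    (hk : k = 1) : Hol K := by
  subst hk
  refine p6_abelian hK hinv ⊥ (fun a b _ _ => ?_) (fun u hu y hy => ?_)
  · by_cases h : a 0 = 0 ∧ b 0 = 0
    · refine ⟨1, 1, Or.inl one_ne_zero, fun i => ?_⟩
      rw [Subsingleton.elim i 0, h.1, h.2]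
    · refine ⟨b 0, a 0, by tauto, fun i => ?_⟩
      rw [Subsingleton.elim i 0, mul_comm]
  · rw [Subgroup.mem_bot] at hu
    subst hu
    have h1 : (fun i => (((1 : Fin 1 → Circle) i : Circle) : ℂ) * y i) = y := by
      funext i
      rw [Pi.one_apply, Circle.coe_one, one_mul]
    rwa [h1]

end Pool.Agent.Lib.H14P
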