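import Mathlib

/-!
# P7: the fixed points of a linear involution on a real analytic submanifold form a real analytic
submanifold of the fixed space
-/

set_option autoImplicit false

namespace Pool.Agent.Lib.H14P

open Filter Topology Set Function

variable {E F : Type} [NormedAddCommGroup E] [NormedSpace ℝ E] [FiniteDimensional ℝ E]
  [NormedAddCommGroup F] [NormedSpace ℝ F] [FiniteDimensional ℝ F]

omit [FiniteDimensional ℝ E] in
/-- local injectivity. -/
theorem p7_inj {f : F → E} {f' : F →L[ℝ] E} {a : F} (hf : HasStrictFDerivAt f f' a)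
    (hinj : Injective f') : ∃ W ∈ 𝓝 a, InjOn f W := by
  obtain ⟨K, hK, hanti⟩ := LinearMap.exists_antilipschitzWith (f' : F →ₗ[ℝ] E)
    (LinearMap.ker_eq_bot.2 hinj)
  have hc : 0 < K⁻¹ / 2 := by positivity
  obtain ⟨s, hs, happ⟩ := hf.approximates_deriv_on_nhds (Or.inr hc)
  refine ⟨s, hs, fun x hx y hy hxy => ?_⟩
  have h1 := happ x hx y hy
  rw [hxy, sub_self, zero_sub, norm_neg] at h1
  have h2 := hanti.le_mul_dist x y
  rw [dist_eq_norm, dist_eq_norm, ← map_sub] at h2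
  have h3 : ‖x - y‖ ≤ K * ((K⁻¹ / 2 : NNReal) * ‖x - y‖) :=
    h2.trans (mul_le_mul_of_nonneg_left h1 K.2)
  have hK' : (K : ℝ) ≠ 0 := by
    have : (0 : ℝ) < K := by exact_mod_cast hK
    exact this.ne'
  have h4 : (K : ℝ) * ((K⁻¹ / 2 : NNReal) * ‖x - y‖) = ‖x - y‖ / 2 := by
    push_cast
    field_simp
  rw [h4] at h3
  have h5 := norm_nonneg (x - y)
  exact sub_eq_zero.1 (norm_le_zero_iff.1 (by linarith))

omit [FiniteDimensional ℝ F] in
/-- the set of surjective maps is open. -/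
theorem p7_open (m : ℕ) : IsOpen {L : F →L[ℝ] (Fin m → ℝ) | Surjective L} := by
  have h := isOpen_setOfPred_nat_le_rank (𝕜 := ℝ) (E := F) (F := Fin m → ℝ) m
  have h1 : {L : F →L[ℝ] (Fin m → ℝ) | Surjective L} =
      {f : F →L[ℝ] (Fin m → ℝ) | (m : Cardinal) ≤ (f : F →ₗ[ℝ] (Fin m → ℝ)).rank} := by
    ext L
    constructor
    · intro hL
      have h2 : LinearMap.range (L : F →ₗ[ℝ] (Fin m → ℝ)) = ⊤ := LinearMap.range_eq_top.2 hL
      change (m : Cardinal) ≤ Module.rank ℝ (LinearMap.range (L : F →ₗ[ℝ] (Fin m → ℝ)))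
      rw [h2, rank_top, rank_fin_fun]
    · intro hL
      have h3 : (m : Cardinal) ≤ Module.rank ℝ (LinearMap.range (L : F →ₗ[ℝ] (Fin m → ℝ))) := hL
      have h4 : LinearMap.range (L : F →ₗ[ℝ] (Fin m → ℝ)) = ⊤ := by
        apply Submodule.eq_top_of_finrank_eq
        apply le_antisymm (Submodule.finrank_le _)
        rw [Module.finrank_fin_fun]
        rw [← Module.finrank_eq_rank] at h3
        exact_mod_cast h3
      exact LinearMap.range_eq_top.1 h4
  rw [h1]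
  exact h

theorem p7_main (M : Set E) (h : E →L[ℝ] E) (hh : ∀ x, h (h x) = x) (hM : ∀ x ∈ M, h x ∈ M)
    (e : F →L[ℝ] E) (π : E →L[ℝ] F) (hπ : ∀ y, π (e y) = y) (hfix : ∀ y, h (e y) = e y)
    (hfix' : ∀ x, h x = x → e (π x) = x) (y0 : F) (m : ℕ) (U : Set E) (g : E → (Fin m → ℝ))
    (hU : IsOpen U) (hp : e y0 ∈ U) (hg : AnalyticOnNhd ℝ g U)
    (hsurj : ∀ x ∈ U, Surjective (fderiv ℝ g x)) (hMU : M ∩ U = {x | x ∈ U ∧ g x = 0})
    (hpM : e y0 ∈ M) :
    ∃ (m' : ℕ) (U' : Set F) (g' : F → (Fin m' → ℝ)), IsOpen U' ∧ y0 ∈ U' ∧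
      AnalyticOnNhd ℝ g' U' ∧ (∀ y ∈ U', Surjective (fderiv ℝ g' y)) ∧
      (e ⁻¹' M) ∩ U' = {y | y ∈ U' ∧ g' y = 0} := by
  have hmem : ∀ x ∈ U, (x ∈ M ↔ g x = 0) := by
    intro x hx
    constructor
    · intro hxM
      have h1 : x ∈ M ∩ U := ⟨hxM, hx⟩
      rw [hMU] at h1
      exact h1.2
    · intro h0
      have h1 : x ∈ {x | x ∈ U ∧ g x = 0} := ⟨hx, h0⟩
      rw [← hMU] at h1
      exact h1.1
  set p : E := e y0 with hpdef
  have hhp : h p = p := hfix y0
  have hgp : g p = 0 := (hmem p hp).1 hpM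
  set D : E →L[ℝ] (Fin m → ℝ) := fderiv ℝ g p with hDdef
  have hD : HasStrictFDerivAt g D p := (hg p hp).hasStrictFDerivAt
  have hDs : Surjective D := hsurj p hp
  have hDr : D.range = ⊤ := LinearMap.range_eq_top.2 hDs
  -- step 1: the kernel is invariant
  have hT : ∀ v, D v = 0 → D (h v) = 0 := by
    intro v hv
    set γ : D.ker → E := hD.implicitFunction g D hDr (g p) with hγ
    have hγd : HasStrictFDerivAt γ D.ker.subtypeL 0 := hD.to_implicitFunction hDr
    have hγ0 : γ 0 = p := hD.implicitFunction_apply_image hDr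
    have hγc : Tendsto γ (𝓝 0) (𝓝 p) := by
      have := hγd.continuousAt.tendsto
      rwa [hγ0] at this
    have e1 : ∀ᶠ s in 𝓝 (0 : D.ker), g (γ s) = 0 := by
      have h1 := hD.map_implicitFunction_eq hDr
      have h2 : Tendsto (fun s : D.ker => (g p, s)) (𝓝 0) (𝓝 (g p, 0)) :=
        (Continuous.prodMk_right (g p)).tendsto 0
      filter_upwards [h2.eventually h1] with s hs
      exact hs.trans hgp
    have e2 : ∀ᶠ s in 𝓝 (0 : D.ker), γ s ∈ U := hγc.eventually (hU.mem_nhds hp)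
    have e3 : ∀ᶠ s in 𝓝 (0 : D.ker), h (γ s) ∈ U := by
      have h1 : Tendsto (fun s => h (γ s)) (𝓝 0) (𝓝 p) := by
        have h2 := (h.continuous.tendsto p).comp hγc
        rwa [hhp] at h2
      exact h1.eventually (hU.mem_nhds hp)
    have e4 : (fun s => g (h (γ s))) =ᶠ[𝓝 (0 : D.ker)] fun _ => (0 : Fin m → ℝ) := by
      filter_upwards [e1, e2, e3] with s h1 h2 h3
      exact (hmem _ h3).1 (hM _ ((hmem _ h2).2 h1))
    have e5 : HasFDerivAt (fun s => g (h (γ s))) (D.comp (h.comp D.ker.subtypeL)) 0 := by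
      have h1 : HasFDerivAt g D (h (γ 0)) := by
        rw [hγ0, hhp]
        exact hD.hasFDerivAt
      have h2 : HasFDerivAt (fun s => h (γ s)) (h.comp D.ker.subtypeL) 0 :=
        h.hasFDerivAt.comp 0 hγd.hasFDerivAt
      exact h1.comp 0 h2
    have e6 : HasFDerivAt (fun s => g (h (γ s))) (0 : D.ker →L[ℝ] (Fin m → ℝ)) 0 :=
      (hasFDerivAt_const (0 : Fin m → ℝ) (0 : D.ker)).congr_of_eventuallyEq e4
    have e7 := e5.unique e6
    have e8 := congrArg (fun L : D.ker →L[ℝ] (Fin m → ℝ) => L ⟨v, hv⟩) e7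
    exact e8
  -- right inverse
  obtain ⟨R0, hR0⟩ := LinearMap.exists_rightInverse_of_surjective (D : E →ₗ[ℝ] (Fin m → ℝ)) hDr
  set R : (Fin m → ℝ) →L[ℝ] E := LinearMap.toContinuousLinearMap R0 with hRdef
  have hR : ∀ v, D (R v) = v := fun v => LinearMap.congr_fun hR0 v
  -- equivariant projection to the kernel
  set τ0 : E →L[ℝ] E := ContinuousLinearMap.id ℝ E - R.comp D with hτ0
  have hτ0a : ∀ x, τ0 x = x - R (D x) := fun x => rfl
  set τ : E →L[ℝ] E := (1 / 2 : ℝ) • (τ0 + (h.comp τ0).comp h) with hτ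
  have hτa : ∀ x, τ x = (1 / 2 : ℝ) • (τ0 x + h (τ0 (h x))) := fun x => rfl
  have hDτ0 : ∀ x, D (τ0 x) = 0 := by
    intro x
    rw [hτ0a, map_sub, hR, sub_self]
  have hDτ : ∀ x, D (τ x) = 0 := by
    intro x
    rw [hτa, map_smul, map_add, hDτ0, hT _ (hDτ0 (h x)), add_zero, smul_zero]
  have hτid : ∀ v, D v = 0 → τ v = v := by
    intro v hv
    rw [hτa, hτ0a, hτ0a, hv, hT v hv, map_zero, sub_zero, sub_zero, hh, ← two_smul ℝ v, smul_smul]
    norm_num
  have hτh : ∀ x, τ (h x) = h (τ x) := by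
    intro x
    rw [hτa, hτa, hh, map_smul, map_add, hh, add_comm]
  -- the local coordinates
  set Ψ : E → E := fun x => τ x + R (g x) with hΨ
  have hΨd : HasStrictFDerivAt Ψ (τ + R.comp D) p :=
    τ.hasStrictFDerivAt.add (R.hasStrictFDerivAt.comp p hD)
  have hinjL : Injective (τ + R.comp D) := by
    rw [injective_iff_map_eq_zero]
    intro x hx
    have h1 : τ x + R (D x) = 0 := hx
    have h2 := congrArg D h1
    rw [map_add, hDτ, hR, zero_add, map_zero] at h2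
    rw [h2, map_zero, add_zero, hτid x h2] at h1
    exact h1
  have hsurjL : (τ + R.comp D).range = ⊤ :=
    LinearMap.range_eq_top.2 (LinearMap.injective_iff_surjective.1 hinjL)
  obtain ⟨W0, hW0, hW0inj⟩ := p7_inj hΨd hinjL
  -- the matrix `B`
  have hB1 : ∀ x, D (h x) = D (h (R (D x))) := by
    intro x
    have h1 : D (x - R (D x)) = 0 := by rw [map_sub, hR, sub_self]
    have h2 := hT _ h1
    rw [map_sub, map_sub, sub_eq_zero] at h2
    exact h2
  set B : (Fin m → ℝ) →ₗ[ℝ] (Fin m → ℝ) := ((D.comp h).comp R).toLinearMap with hB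
  have hBa : ∀ x, D (h x) = B (D x) := hB1
  have hBB : ∀ v, B (B v) = v := by
    intro v
    obtain ⟨x, rfl⟩ := hDs v
    rw [← hBa, ← hBa, hh]
  set C : (Fin m → ℝ) →ₗ[ℝ] (Fin m → ℝ) := LinearMap.id + B with hC
  have hCa : ∀ v, C v = v + B v := fun v => rfl
  set m' : ℕ := Module.finrank ℝ (LinearMap.range C) with hm'
  set ε : LinearMap.range C ≃ₗ[ℝ] (Fin m' → ℝ) := (Module.finBasis ℝ (LinearMap.range C)).equivFun
    with hε
  set Q0 : (Fin m → ℝ) →ₗ[ℝ] (Fin m' → ℝ) := ε.toLinearMap.comp C.rangeRestrict with hQ0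
  set Q : (Fin m → ℝ) →L[ℝ] (Fin m' → ℝ) := LinearMap.toContinuousLinearMap Q0 with hQ
  have hQs : Surjective Q := ε.surjective.comp C.surjective_rangeRestrict
  have hQ0' : ∀ v, Q v = 0 ↔ v + B v = 0 := by
    intro v
    rw [← hCa]
    change ε (C.rangeRestrict v) = 0 ↔ C v = 0
    rw [LinearEquiv.map_eq_zero_iff]
    constructor
    · intro h1
      exact congrArg Subtype.val h1
    · intro h1
      exact Subtype.ext h1
  set g' : F → (Fin m' → ℝ) := fun y => Q (g (e y)) with hg'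
  have hg'an : AnalyticOnNhd ℝ g' (e ⁻¹' U) := by
    intro y hy
    exact (Q.analyticAt _).comp ((hg (e y) hy).comp (e.analyticAt y))
  have hg'd : HasStrictFDerivAt g' ((Q.comp D).comp e) y0 :=
    Q.hasStrictFDerivAt.comp y0 (hD.comp y0 e.hasStrictFDerivAt)
  have heU : IsOpen (e ⁻¹' U) := hU.preimage e.continuous
  have hy0U : y0 ∈ e ⁻¹' U := hp
  -- surjectivity at `y0`
  have hs0 : Surjective ((Q.comp D).comp e) := by
    intro t
    obtain ⟨v, rfl⟩ := hQs t
    obtain ⟨x, rfl⟩ := hDs v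
    refine ⟨π ((1 / 2 : ℝ) • (x + h x)), ?_⟩
    have h1 : h ((1 / 2 : ℝ) • (x + h x)) = (1 / 2 : ℝ) • (x + h x) := by
      rw [map_smul, map_add, hh, add_comm]
    change Q (D (e (π ((1 / 2 : ℝ) • (x + h x))))) = Q (D x)
    rw [hfix' _ h1, ← sub_eq_zero, ← map_sub, hQ0', map_smul, map_add, hBa, map_sub, map_smul,
      map_add, hBB]
    module
  have hsn : ∀ᶠ y in 𝓝 y0, Surjective (fderiv ℝ g' y) := by
    have h1 : ContinuousAt (fderiv ℝ g') y0 := (hg'an y0 hy0U).fderiv.continuousAt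
    have h2 : fderiv ℝ g' y0 = (Q.comp D).comp e := hg'd.hasFDerivAt.fderiv
    have h3 : fderiv ℝ g' y0 ∈ {L : F →L[ℝ] (Fin m' → ℝ) | Surjective L} := by
      rw [h2]
      exact hs0
    exact h1.eventually ((p7_open m').mem_nhds h3)
  -- local injectivity on the fixed space
  obtain ⟨V0, hV0, hV0inj⟩ : ∃ V0 ∈ 𝓝 y0, ∀ y ∈ V0, ∀ y' ∈ V0, g' y = g' y' → τ (e y) = τ (e y') →
      y = y' := by
    have h1 : HasStrictFDerivAt (fun y => (g' y, τ (e y)))
        (((Q.comp D).comp e).prod (τ.comp e)) y0 :=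
      hg'd.prodMk (τ.comp e).hasStrictFDerivAt
    have h2 : Injective (((Q.comp D).comp e).prod (τ.comp e)) := by
      rw [injective_iff_map_eq_zero]
      intro w hw
      have h3 : Q (D (e w)) = 0 := congrArg Prod.fst hw
      have h4 : τ (e w) = 0 := congrArg Prod.snd hw
      rw [hQ0', ← hBa, hfix, ← two_smul ℝ] at h3
      have h5 : D (e w) = 0 := (smul_eq_zero.1 h3).resolve_left two_ne_zero
      rw [hτid _ h5] at h4
      rw [← hπ w, h4, map_zero]
    obtain ⟨W, hW, hWi⟩ := p7_inj h1 h2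
    exact ⟨W, hW, fun y hy y' hy' e1 e2 => hWi hy hy' (Prod.ext e1 e2)⟩
  -- the neighbourhood `W`
  have hπp : π p = y0 := hπ y0
  set W1 : Set E := U ∩ (W0 ∩ π ⁻¹' V0) with hW1
  have hW1n : W1 ∈ 𝓝 p := by
    refine inter_mem (hU.mem_nhds hp) (inter_mem hW0 ?_)
    refine π.continuous.continuousAt.preimage_mem_nhds ?_
    rw [hπp]
    exact hV0
  set W : Set E := W1 ∩ h ⁻¹' W1 with hW
  have hWn : W ∈ 𝓝 p := by
    refine inter_mem hW1n (h.continuous.continuousAt.preimage_mem_nhds ?_)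
    rw [hhp]
    exact hW1n
  have hΨp : Ψ p = τ p := by
    change τ p + R (g p) = τ p
    rw [hgp, map_zero, add_zero]
  have himg : Ψ '' W ∈ 𝓝 (τ p) := by
    rw [← hΨp, ← hΨd.map_nhds_eq_of_surj hsurjL]
    exact image_mem_map hWn
  have hτn : ∀ᶠ y in 𝓝 y0, τ (e y) ∈ Ψ '' W :=
    (τ.continuous.comp e.continuous).continuousAt.eventually himg
  -- conclusion
  have hall : ∀ᶠ y in 𝓝 y0, y ∈ e ⁻¹' U ∧ Surjective (fderiv ℝ g' y) ∧ y ∈ V0 ∧
      τ (e y) ∈ Ψ '' W := by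
    filter_upwards [heU.mem_nhds hy0U, hsn, hV0, hτn] with y h1 h2 h3 h4
    exact ⟨h1, h2, h3, h4⟩
  obtain ⟨U', hU'sub, hU'o, hU'y⟩ := eventually_nhds_iff.1 hall
  refine ⟨m', U', g', hU'o, hU'y, fun y hy => hg'an y (hU'sub y hy).1,
    fun y hy => (hU'sub y hy).2.1, ?_⟩
  ext y
  constructor
  · rintro ⟨hyM, hy⟩
    refine ⟨hy, ?_⟩
    change Q (g (e y)) = 0
    rw [(hmem _ (hU'sub y hy).1).1 hyM, map_zero]
  · rintro ⟨hy, hy0⟩
    refine ⟨?_, hy⟩
    obtain ⟨-, -, hyV, x', hx'W, hx'⟩ := hU'sub y hy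
    have hx'1 : τ x' + R (g x') = τ (e y) := hx'
    have h1 : g x' = 0 := by
      have h2 := congrArg D hx'1
      rwa [map_add, hDτ, hR, zero_add, hDτ] at h2
    have h2 : τ x' = τ (e y) := by
      rwa [h1, map_zero, add_zero] at hx'1
    have hx'U : x' ∈ U := hx'W.1.1
    have hhx'U : h x' ∈ U := hx'W.2.1
    have hx'M : x' ∈ M := (hmem _ hx'U).2 h1
    have h3 : g (h x') = 0 := (hmem _ hhx'U).1 (hM _ hx'M)
    have h4 : Ψ (h x') = Ψ x' := by
      change τ (h x') + R (g (h x')) = τ x' + R (g x')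
      rw [h1, h3, hτh, h2, ← hτh, hfix]
    have h5 : h x' = x' := hW0inj hx'W.2.2.1 hx'W.1.2.1 h4
    have h6 : e (π x') = x' := hfix' x' h5
    have h7 : g' y = g' (π x') := by
      have h8 : g' (π x') = 0 := by
        change Q (g (e (π x'))) = 0
        rw [h6, h1, map_zero]
      rw [h8]
      exact hy0
    have h9 : y = π x' := hV0inj y hyV (π x') hx'W.1.2.2 h7 (by rw [h6, h2])
    change e y ∈ M
    rw [h9, h6]
    exact hx'M

end Pool.Agent.Lib.H14P
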