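import Pool.Agent.Lib.H14P.P6
import Pool.Agent.Lib.H14P.P7

/-!
# P8: the slice of a real analytic submanifold
-/

set_option autoImplicit false
set_option linter.unusedSectionVars false

namespace Pool.Agent.Lib.H14P

open MvPolynomial Metric

/-- real analytic submanifolds, as in the frozen statement (components may have different
dimensions). -/
def Sub {ι : Type} [Fintype ι] (M : Set (ι → ℂ)) : Prop :=
  ∀ p ∈ M, ∃ (m : ℕ) (U : Set (ι → ℂ)) (g : (ι → ℂ) → (Fin m → ℝ)),
    IsOpen U ∧ p ∈ U ∧ AnalyticOnNhd ℝ g U ∧ (∀ x ∈ U, Function.Surjective (fderiv ℝ g x)) ∧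
      M ∩ U = {x | x ∈ U ∧ g x = 0}

variable {k : ℕ} {n : Fin k → ℕ}

theorem p8_flip {K : Set ((Σ i : Fin k, Fin (n i + 1)) → ℂ)} (hK : Inv K)
    (T : Finset (Σ i : Fin k, Fin (n i + 1))) (hT : ∀ q ∈ T, q.2 ≠ 0)
    {z : (Σ i : Fin k, Fin (n i + 1)) → ℂ} (hz : z ∈ K) :
    (fun q => if q ∈ T then -z q else z q) ∈ K := by
  induction T using Finset.induction_on with
  | empty =>
    have h : (fun q => if q ∈ (∅ : Finset (Σ i : Fin k, Fin (n i + 1))) then -z q else z q) = z := by
      funext q
      exact if_neg (Finset.notMem_empty q)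
    rwa [h]
  | insert r T hr ih =>
    have h1 := ih fun q hq => hT q (Finset.mem_insert_of_mem hq)
    have hr0 : r.2 ≠ 0 := hT r (Finset.mem_insert_self r T)
    have hn : n r.1 ≠ 0 := by
      intro h
      apply hr0
      apply Fin.ext
      have := r.2.2
      rw [Fin.val_zero]
      omega
    have hx0 : ∀ j, j ∉ Bl n r.1 → (fun j => if j = r then (1 : ℝ) else 0) j = 0 := by
      intro j hj
      refine if_neg fun h : j = r => hj ?_
      rw [h]
      exact (mem_Bl r.1 r).2 rfl
    have h2 := refl_of_inv hK r.1 hn (fun j => if j = r then (1 : ℝ) else 0) hx0 (by simp) _ h1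
    have h3 : refl (fun j => if j = r then (1 : ℝ) else 0) (fun q => if q ∈ T then -z q else z q) =
        fun q => if q ∈ insert r T then -z q else z q := by
      have hd : dot (fun j => if j = r then (1 : ℝ) else 0)
          (fun q => if q ∈ T then -z q else z q) = z r := by
        rw [dot, Finset.sum_eq_single r]
        · rw [if_pos rfl, if_neg hr]
          push_cast
          ring
        · intro j _ hj
          rw [if_neg hj]
          push_cast
          ring
        · intro h
          exact absurd (Finset.mem_univ r) h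
      funext q
      rw [refl, hd]
      by_cases hq : q = r
      · rw [if_pos hq, hq, if_neg hr, if_pos (Finset.mem_insert_self r T)]
        push_cast
        ring
      · rw [if_neg hq]
        by_cases hqT : q ∈ T
        · rw [if_pos hqT, if_pos (Finset.mem_insert_of_mem hqT)]
          push_cast
          ring
        · rw [if_neg hqT, if_neg fun h => (Finset.mem_insert.1 h).elim hq hqT]
          push_cast
          ring
    rwa [h3] at h2

theorem p8_main {K : Set ((Σ i : Fin k, Fin (n i + 1)) → ℂ)} (hK : Inv K) (hS : Sub K) :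
    Sub (slice K) := by
  intro y0 hy0
  obtain ⟨m, U, g, hU, hp, hg, hsurj, hMU⟩ := hS (emb n y0) hy0
  let h : ((Σ i : Fin k, Fin (n i + 1)) → ℂ) →L[ℝ] ((Σ i : Fin k, Fin (n i + 1)) → ℂ) :=
    ContinuousLinearMap.pi fun q => if q.2 = 0 then ContinuousLinearMap.proj q
      else -ContinuousLinearMap.proj q
  let e : (Fin k → ℂ) →L[ℝ] ((Σ i : Fin k, Fin (n i + 1)) → ℂ) :=
    ContinuousLinearMap.pi fun q => if q.2 = 0 then ContinuousLinearMap.proj q.1 else 0
  let π : ((Σ i : Fin k, Fin (n i + 1)) → ℂ) →L[ℝ] (Fin k → ℂ) :=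
    ContinuousLinearMap.pi fun i => ContinuousLinearMap.proj ⟨i, 0⟩
  have hh : ∀ z q, h z q = if q.2 = 0 then z q else -z q := by
    intro z q
    change (if q.2 = 0 then ContinuousLinearMap.proj q else -ContinuousLinearMap.proj q :
      ((Σ i : Fin k, Fin (n i + 1)) → ℂ) →L[ℝ] ℂ) z = _
    by_cases hq : q.2 = 0
    · rw [if_pos hq, if_pos hq]
      rfl
    · rw [if_neg hq, if_neg hq]
      rfl
  have he : ∀ y, e y = emb n y := by
    intro y
    funext q
    change (if q.2 = 0 then ContinuousLinearMap.proj q.1 else 0 : (Fin k → ℂ) →L[ℝ] ℂ) y = _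
    rw [emb]
    by_cases hq : q.2 = 0
    · rw [if_pos hq, if_pos hq]
      rfl
    · rw [if_neg hq, if_neg hq]
      rfl
  have hπ : ∀ z i, π z i = z ⟨i, 0⟩ := fun z i => rfl
  obtain ⟨m', U', g', hU', hy0', hg', hs', heq⟩ := p7_main K h
    (by
      intro z
      funext q
      rw [hh, hh]
      by_cases hq : q.2 = 0
      · rw [if_pos hq, if_pos hq]
      · rw [if_neg hq, if_neg hq, neg_neg])
    (by
      intro z hz
      have h1 := p8_flip hK (Finset.univ.filter fun q => q.2 ≠ 0) (by simp) hz
      have h2 : h z = fun q => if q ∈ (Finset.univ.filter fun q : (Σ i : Fin k, Fin (n i + 1)) =>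
          q.2 ≠ 0) then -z q else z q := by
        funext q
        rw [hh]
        by_cases hq : q.2 = 0
        · rw [if_pos hq, if_neg]
          simp [hq]
        · rw [if_neg hq, if_pos]
          simp [hq]
      rwa [h2])
    e π
    (by
      intro y
      funext i
      rw [hπ, he]
      exact if_pos rfl)
    (by
      intro y
      funext q
      rw [hh, he, emb]
      by_cases hq : q.2 = 0
      · rw [if_pos hq]
      · rw [if_neg hq, if_neg hq, neg_zero])
    (by
      intro z hz
      rw [he]
      funext q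
      rw [emb]
      by_cases hq : q.2 = 0
      · rw [if_pos hq, hπ]
        obtain ⟨i, l⟩ := q
        simp only at hq
        rw [hq]
      · rw [if_neg hq]
        have h1 := congrFun hz q
        rw [hh, if_neg hq] at h1
        exact (self_eq_neg.1 h1.symm).symm)
    y0 m U g hU (by rw [he]; exact hp) hg hsurj hMU (by rw [he]; exact hy0)
  refine ⟨m', U', g', hU', hy0', hg', hs', ?_⟩
  rw [← heq]
  ext y
  constructor
  · rintro ⟨h1, h2⟩
    refine ⟨?_, h2⟩
    change e y ∈ K
    rw [he]
    exact h1
  · rintro ⟨h1, h2⟩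
    refine ⟨?_, h2⟩
    have h3 : e y ∈ K := h1
    rw [he] at h3
    exact h3

end Pool.Agent.Lib.H14P
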