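import Pool.Agent.Lib.H14P.P4

/-!
# Q1: sets of block matrices invariant under unitary conjugation: the disc lemma
-/

set_option autoImplicit false
set_option linter.unusedSectionVars false

namespace Pool.Agent.Lib.H14P

open MvPolynomial Metric

variable {n : ℕ}

/-- the matrix of a point. -/
def mt (z : Fin n × Fin n → ℂ) : Matrix (Fin n) (Fin n) ℂ := Matrix.of fun i j => z (i, j)

/-- the point of a matrix. -/
def pm (A : Matrix (Fin n) (Fin n) ℂ) : Fin n × Fin n → ℂ := fun p => A p.1 p.2

theorem mt_pm (A : Matrix (Fin n) (Fin n) ℂ) : mt (pm A) = A := rfl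

theorem pm_mt (z : Fin n × Fin n → ℂ) : pm (mt z) = z := rfl

variable {κ : Type} {β : Fin n → κ}

/-- block matrices. -/
def Blk (β : Fin n → κ) (A : Matrix (Fin n) (Fin n) ℂ) : Prop := ∀ i j, β i ≠ β j → A i j = 0

theorem Blk.one : Blk β (1 : Matrix (Fin n) (Fin n) ℂ) := by
  intro i j h
  rw [Matrix.one_apply, if_neg fun h' => h (by rw [h'])]

theorem Blk.diagonal (d : Fin n → ℂ) : Blk β (Matrix.diagonal d) := by
  intro i j h
  rw [Matrix.diagonal_apply_ne _ fun h' => h (by rw [h'])]

theorem Blk.mul {A B : Matrix (Fin n) (Fin n) ℂ} (hA : Blk β A) (hB : Blk β B) :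
    Blk β (A * B) := by
  intro i j h
  rw [Matrix.mul_apply]
  refine Finset.sum_eq_zero fun l _ => ?_
  by_cases h1 : β i = β l
  · rw [hB l j fun h2 => h (h1.trans h2), mul_zero]
  · rw [hA i l h1, zero_mul]

theorem Blk.star {A : Matrix (Fin n) (Fin n) ℂ} (hA : Blk β A) : Blk β (star A) := by
  intro i j h
  rw [Matrix.star_apply, hA j i (Ne.symm h), star_zero]

/-- the set consists of block matrices. -/
def BSub (β : Fin n → κ) (K : Set (Fin n × Fin n → ℂ)) : Prop := ∀ z ∈ K, Blk β (mt z)

theorem BSub.hull {K : Set (Fin n × Fin n → ℂ)} (hK : BSub β K) : BSub β (hull K) := by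
  intro z hz i j h
  have h1 := hz (X (i, j)) 0 (fun w hw => by
    have h2 := hK w hw i j h
    rw [eval_X]
    change ‖mt w i j‖ ≤ 0
    rw [h2, norm_zero])
  rw [eval_X] at h1
  exact norm_le_zero_iff.1 h1

/-- invariance under block unitary conjugation. -/
def CInv (β : Fin n → κ) (K : Set (Fin n × Fin n → ℂ)) : Prop :=
  ∀ U ∈ Matrix.unitaryGroup (Fin n) ℂ, Blk β U → ∀ z ∈ K, pm (U * mt z * star U) ∈ K

theorem CInv.hull {K : Set (Fin n × Fin n → ℂ)} (hK : CInv β K) : CInv β (hull K) := by
  intro U hU hUB z hz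
  have key : ∀ w : Fin n × Fin n → ℂ, (fun p : Fin n × Fin n =>
      eval w (∑ l, (∑ k, C (U p.1 k) * X (k, l)) * C ((star U) l p.2) :
        MvPolynomial (Fin n × Fin n) ℂ)) = pm (U * mt w * star U) := by
    intro w
    funext p
    simp only [pm, Matrix.mul_apply, map_sum, map_mul, eval_C, eval_X]
    rfl
  have h1 := p2_map (K := K) (K' := K) (fun p : Fin n × Fin n =>
    (∑ l, (∑ k, C (U p.1 k) * X (k, l)) * C ((star U) l p.2) : MvPolynomial (Fin n × Fin n) ℂ))
    (fun w hw => by rw [key]; exact p1_subset (hK U hU hUB w hw)) hz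
  rwa [key] at h1

/-- conjugation by a diagonal unitary matrix which is `ω` at `j` and `1` elsewhere. -/
theorem diag_conj (j : Fin n) (ω : ℂ) (hω : ‖ω‖ = 1) :
    Matrix.diagonal (fun i => if i = j then ω else 1) ∈ Matrix.unitaryGroup (Fin n) ℂ := by
  rw [Matrix.mem_unitaryGroup_iff, Matrix.star_eq_conjTranspose, Matrix.diagonal_conjTranspose,
    Matrix.diagonal_mul_diagonal, ← Matrix.diagonal_one]
  congr 1
  funext i
  by_cases h : i = j
  · rw [if_pos h, Pi.star_apply, if_pos h]
    have h1 := Complex.mul_conj ω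
    rw [Complex.normSq_eq_norm_sq, hω] at h1
    simpa using h1
  · rw [if_neg h, Pi.star_apply, if_neg h, star_one, mul_one]

theorem diag_conj_apply (j : Fin n) (ω : ℂ) (A : Matrix (Fin n) (Fin n) ℂ) (a b : Fin n) :
    (Matrix.diagonal (fun i => if i = j then ω else 1) * A *
      star (Matrix.diagonal (fun i => if i = j then ω else (1 : ℂ)))) a b =
      (if a = j then ω else 1) * A a b * star (if b = j then ω else (1 : ℂ)) := by
  rw [Matrix.star_eq_conjTranspose, Matrix.diagonal_conjTranspose, Matrix.mul_diagonal,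
    Matrix.diagonal_mul, Pi.star_apply]

/-- if a column is zero off the diagonal, the row is zero off the diagonal, or there is a disc. -/
theorem row_zero {K : Set (Fin n × Fin n → ℂ)} (hK : CInv β K) (hno : ¬ HasDisc (hull K))
    {z : Fin n × Fin n → ℂ} (hz : z ∈ hull K) (j : Fin n) (hcol : ∀ l, l ≠ j → z (l, j) = 0) :
    ∀ l, l ≠ j → z (j, l) = 0 := by
  intro l0 hl0
  by_contra hne
  apply hno
  let Φ : ℂ → (Fin n × Fin n → ℂ) := fun s p =>
    if p.1 = j ∧ p.2 ≠ j then z p * Complex.exp (-s) else z p
  have hΦ : Differentiable ℂ Φ := by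
    rw [differentiable_pi]
    intro p
    by_cases h : p.1 = j ∧ p.2 ≠ j
    · have h1 : (fun s => Φ s p) = fun s => z p * Complex.exp (-s) := by
        funext s
        exact if_pos h
      rw [h1]
      fun_prop
    · have h1 : (fun s => Φ s p) = fun _ => z p := by
        funext s
        exact if_neg h
      rw [h1]
      exact differentiable_const _
  have hb : ∀ ζ : ℂ, 0 ≤ ζ.re → ‖Φ ζ‖ ≤ ‖z‖ := by
    intro ζ hζ
    rw [pi_norm_le_iff_of_nonneg (norm_nonneg z)]
    intro p
    by_cases h : p.1 = j ∧ p.2 ≠ j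
    · have h1 : Φ ζ p = z p * Complex.exp (-ζ) := if_pos h
      rw [h1, norm_mul, Complex.norm_exp, Complex.neg_re]
      have : Real.exp (-ζ.re) ≤ 1 := Real.exp_le_one_iff.2 (by linarith)
      calc ‖z p‖ * Real.exp (-ζ.re) ≤ ‖z p‖ * 1 := mul_le_mul_of_nonneg_left this (norm_nonneg _)
        _ = ‖z p‖ := mul_one _
        _ ≤ ‖z‖ := norm_le_pi_norm z p
    · have h1 : Φ ζ p = z p := if_neg h
      rw [h1]
      exact norm_le_pi_norm z p
  have hI : ∀ η : ℝ, Φ (η * Complex.I) ∈ hull K := by
    intro η
    have hω : ‖Complex.exp (-(η * Complex.I))‖ = 1 := by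
      rw [← neg_mul, ← Complex.ofReal_neg]
      exact Complex.norm_exp_ofReal_mul_I _
    have h1 := hK.hull _ (diag_conj j (Complex.exp (-(η * Complex.I))) hω)
      (Blk.diagonal _) z hz
    have h2 : pm (Matrix.diagonal (fun i => if i = j then Complex.exp (-(η * Complex.I)) else 1) *
        mt z * star (Matrix.diagonal
          (fun i => if i = j then Complex.exp (-(η * Complex.I)) else (1 : ℂ)))) =
        Φ (η * Complex.I) := by
      funext p
      obtain ⟨a, b⟩ := p
      change (Matrix.diagonal (fun i => if i = j then Complex.exp (-(η * Complex.I)) else 1) *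
        mt z * star (Matrix.diagonal
          (fun i => if i = j then Complex.exp (-(η * Complex.I)) else (1 : ℂ)))) a b =
        if a = j ∧ b ≠ j then z (a, b) * Complex.exp (-(η * Complex.I)) else z (a, b)
      rw [diag_conj_apply]
      change (if a = j then Complex.exp (-(η * Complex.I)) else 1) * z (a, b) *
        star (if b = j then Complex.exp (-(η * Complex.I)) else (1 : ℂ)) = _
      by_cases ha : a = j
      · have e1 : (if a = j then Complex.exp (-(η * Complex.I)) else (1 : ℂ)) =
            Complex.exp (-(η * Complex.I)) := if_pos ha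
        by_cases hb' : b = j
        · have e2 : (if b = j then Complex.exp (-(η * Complex.I)) else (1 : ℂ)) =
              Complex.exp (-(η * Complex.I)) := if_pos hb'
          have e3 : (if a = j ∧ b ≠ j then z (a, b) * Complex.exp (-(η * Complex.I)) else z (a, b)) =
              z (a, b) := if_neg (fun h => h.2 hb')
          have h3 := Complex.mul_conj (Complex.exp (-(η * Complex.I)))
          rw [Complex.normSq_eq_norm_sq, hω] at h3
          have h4 : Complex.exp (-(η * Complex.I)) * star (Complex.exp (-(η * Complex.I))) = 1 := by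
            simpa using h3
          rw [e1, e2, e3]
          linear_combination z (a, b) * h4
        · have e2 : (if b = j then Complex.exp (-(η * Complex.I)) else (1 : ℂ)) = 1 := if_neg hb'
          have e3 : (if a = j ∧ b ≠ j then z (a, b) * Complex.exp (-(η * Complex.I)) else z (a, b)) =
              z (a, b) * Complex.exp (-(η * Complex.I)) := if_pos ⟨ha, hb'⟩
          rw [e1, e2, e3, star_one]
          ring
      · have e1 : (if a = j then Complex.exp (-(η * Complex.I)) else (1 : ℂ)) = 1 := if_neg ha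
        have e3 : (if a = j ∧ b ≠ j then z (a, b) * Complex.exp (-(η * Complex.I)) else z (a, b)) =
            z (a, b) := if_neg (fun h => ha h.1)
        rw [e1, e3]
        by_cases hb' : b = j
        · rw [hb', hcol a ha]
          ring
        · have e2 : (if b = j then Complex.exp (-(η * Complex.I)) else (1 : ℂ)) = 1 := if_neg hb'
          rw [e2, star_one]
          ring
    rwa [h2] at h1
  refine p2_halfplane_disc Φ hΦ (fun ζ hζ _ => p2_halfplane Φ hΦ ‖z‖ hb hI ζ hζ) ?_
  refine ⟨1 / 4, 1 / 2, by norm_num, by norm_num, by norm_num, by norm_num, fun he => ?_⟩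
  have h1 := congrFun he (j, l0)
  have h2 : ∀ s, Φ s (j, l0) = z (j, l0) * Complex.exp (-s) := fun s => if_pos ⟨rfl, hl0⟩
  rw [h2, h2] at h1
  have h3 := congrArg norm (mul_left_cancel₀ hne h1)
  rw [Complex.norm_exp, Complex.norm_exp, Real.exp_eq_exp, Complex.neg_re, Complex.neg_re,
    Complex.ofReal_re, Complex.ofReal_re] at h3
  norm_num at h3

end Pool.Agent.Lib.H14P
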