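import Pool.Agent.Lib.H14P.Q1

/-!
# Q2: without discs in the hull all its matrices are block unitarily diagonal
-/

set_option autoImplicit false
set_option linter.unusedSectionVars false

namespace Pool.Agent.Lib.H14P

open MvPolynomial Metric

variable {n : ℕ} {κ : Type} {β : Fin n → κ}

/-- orthonormal extension: a matrix which splits off the coordinates below `m` can be conjugated so
that also the column `m` is zero off the diagonal. -/
theorem column_step (A : Matrix (Fin n) (Fin n) ℂ) (hAB : Blk β A) (m : Fin n)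
    (hA : ∀ j : Fin n, j < m → ∀ l, l ≠ j → A l j = 0 ∧ A j l = 0) :
    ∃ V ∈ Matrix.unitaryGroup (Fin n) ℂ, Blk β V ∧
      (∀ j : Fin n, j < m → ∀ l, l ≠ j → (V * A * star V) l j = 0 ∧ (V * A * star V) j l = 0) ∧
      ∀ l, l ≠ m → (V * A * star V) l m = 0 := by
  classical
  -- the invariant subspace
  let W : Submodule ℂ (Fin n → ℂ) :=
    { carrier := {v | ∀ j : Fin n, (j < m ∨ β j ≠ β m) → v j = 0}
      add_mem' := by
        intro v w hv hw j hj
        rw [Pi.add_apply, hv j hj, hw j hj, add_zero]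
      zero_mem' := fun j _ => rfl
      smul_mem' := by
        intro c v hv j hj
        rw [Pi.smul_apply, hv j hj, smul_zero] }
  have hmap : ∀ v ∈ W, A.mulVecLin v ∈ W := by
    intro v hv j hj
    change (A.mulVec v) j = 0
    rw [Matrix.mulVec, dotProduct]
    refine Finset.sum_eq_zero fun l _ => ?_
    by_cases hgl : l < m ∨ β l ≠ β m
    · rw [hv l hgl, mul_zero]
    · push Not at hgl
      rcases hj with hj | hj
      · have hl : l ≠ j := fun h => absurd hj (by rw [← h]; exact not_lt.2 hgl.1)
        rw [(hA j hj l hl).2, zero_mul]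
      · rw [hAB j l (by rw [hgl.2]; exact hj), zero_mul]
  have hem : (Pi.single m (1 : ℂ) : Fin n → ℂ) ∈ W := by
    intro j hj
    refine Pi.single_eq_of_ne ?_ 1
    rcases hj with hj | hj
    · exact hj.ne
    · exact fun h => hj (by rw [h])
  haveI : Nontrivial W := by
    refine ⟨⟨⟨_, hem⟩, 0, fun h => ?_⟩⟩
    have h1 := congrFun (congrArg Subtype.val h) m
    simp at h1
  obtain ⟨μ, hμ⟩ := Module.End.exists_eigenvalue (K := ℂ) (A.mulVecLin.restrict hmap)
  obtain ⟨v, hv⟩ := hμ.exists_hasEigenvector
  have hv0 : v ≠ 0 := hv.2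
  have hveq : A.mulVec v.1 = μ • v.1 := by
    have h1 := Module.End.mem_eigenspace_iff.1 hv.1
    exact congrArg Subtype.val h1
  have hvW : ∀ j : Fin n, (j < m ∨ β j ≠ β m) → v.1 j = 0 := v.2
  -- normalise
  let v1 : EuclideanSpace ℂ (Fin n) := WithLp.toLp 2 v.1
  have hv1 : v1 ≠ 0 := by
    intro h
    apply hv0
    apply Subtype.ext
    exact congrArg WithLp.ofLp h
  have hnv : ‖v1‖ ≠ 0 := norm_ne_zero_iff.2 hv1
  let v2 : EuclideanSpace ℂ (Fin n) := ((‖v1‖⁻¹ : ℝ) : ℂ) • v1
  have hv2n : ‖v2‖ = 1 := by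
    rw [norm_smul, Complex.norm_real, norm_inv, norm_norm, inv_mul_cancel₀ hnv]
  have hv2j : ∀ j, v2 j = ((‖v1‖⁻¹ : ℝ) : ℂ) * v.1 j := fun j => rfl
  have hv2W : ∀ j : Fin n, (j < m ∨ β j ≠ β m) → v2 j = 0 := fun j hj => by
    rw [hv2j, hvW j hj, mul_zero]
  have hv2eq : ∀ k, ∑ l, A k l * v2 l = μ * v2 k := by
    intro k
    have h1 := congrFun hveq k
    rw [Matrix.mulVec, dotProduct, Pi.smul_apply, smul_eq_mul] at h1
    simp only [hv2j]
    calc ∑ l, A k l * (((‖v1‖⁻¹ : ℝ) : ℂ) * v.1 l)
        = ((‖v1‖⁻¹ : ℝ) : ℂ) * ∑ l, A k l * v.1 l := by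
          rw [Finset.mul_sum]
          exact Finset.sum_congr rfl fun l _ => by ring
      _ = μ * (((‖v1‖⁻¹ : ℝ) : ℂ) * v.1 k) := by
          rw [h1]
          ring
  let f : Fin n → EuclideanSpace ℂ (Fin n) := fun i =>
    if i = m then v2 else EuclideanSpace.single i 1
  have hfm : f m = v2 := if_pos rfl
  have hfj : ∀ j, j ≠ m → f j = EuclideanSpace.single j 1 := fun j hj => if_neg hj
  have hon : Orthonormal ℂ
      (({i : Fin n | (i < m ∨ β i ≠ β m) ∨ i = m} : Set (Fin n)).domRestrict f) := by
    constructor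
    · rintro ⟨i, hi⟩
      change ‖f i‖ = 1
      by_cases him : i = m
      · rw [him, hfm, hv2n]
      · rw [hfj i him]
        simp
    · rintro ⟨i, hi⟩ ⟨l, hl⟩ hil
      change inner ℂ (f i) (f l) = 0
      have hne : i ≠ l := fun h => hil (Subtype.ext h)
      by_cases him : i = m
      · have hlm : l ≠ m := fun h => hne (him.trans h.symm)
        have hllt : l < m ∨ β l ≠ β m := hl.resolve_right hlm
        rw [him, hfm, hfj l hlm, EuclideanSpace.inner_single_right, hv2W l hllt]
        simp
      · have hilt : i < m ∨ β i ≠ β m := hi.resolve_right him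
        rw [hfj i him, EuclideanSpace.inner_single_left]
        by_cases hlm : l = m
        · rw [hlm, hfm, hv2W i hilt, mul_zero]
        · rw [hfj l hlm, PiLp.single_apply, if_neg hne, mul_zero]
  obtain ⟨b, hb⟩ := hon.exists_orthonormalBasis_extension_of_card_eq (by simp)
  have hbm : b m = v2 := by rw [hb m (Or.inr rfl), hfm]
  have hgne : ∀ j : Fin n, (j < m ∨ β j ≠ β m) → j ≠ m := by
    intro j hj
    rcases hj with hj | hj
    · exact hj.ne
    · exact fun h => hj (by rw [h])
  have hbj : ∀ j : Fin n, (j < m ∨ β j ≠ β m) → b j = EuclideanSpace.single j 1 := fun j hj => by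
    rw [hb j (Or.inl hj), hfj j (hgne j hj)]
  have horth : ∀ i j, ∑ k, star (b i k) * b j k = if i = j then 1 else 0 := by
    intro i j
    rw [← orthonormal_iff_ite.1 b.orthonormal i j, EuclideanSpace.inner_eq_star_dotProduct, dotProduct]
    exact Finset.sum_congr rfl fun k _ => mul_comm _ _
  let V : Matrix (Fin n) (Fin n) ℂ := Matrix.of fun i k => star (b i k)
  have hV : V ∈ Matrix.unitaryGroup (Fin n) ℂ := by
    rw [Matrix.mem_unitaryGroup_iff]
    ext i j
    rw [Matrix.mul_apply, Matrix.one_apply, ← horth i j]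
    refine Finset.sum_congr rfl fun k _ => ?_
    rw [Matrix.star_apply]
    change star (b i k) * star (star (b j k)) = _
    rw [star_star]
  have hent : ∀ i j, (V * A * star V) i j = ∑ k, star (b i k) * ∑ l, A k l * b j l := by
    intro i j
    rw [Matrix.mul_assoc, Matrix.mul_apply]
    refine Finset.sum_congr rfl fun k _ => ?_
    rw [Matrix.mul_apply]
    congr 1
    refine Finset.sum_congr rfl fun l _ => ?_
    rw [Matrix.star_apply]
    change A k l * star (star (b j l)) = _
    rw [star_star]
  -- eigenvectors give zero columns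
  have hcol : ∀ j (c : ℂ), (∀ k, ∑ l, A k l * b j l = c * b j k) → ∀ i, i ≠ j →
      (V * A * star V) i j = 0 := by
    intro j c hc i hij
    rw [hent]
    simp only [hc]
    have h1 : ∑ k, star (b i k) * (c * b j k) = c * ∑ k, star (b i k) * b j k := by
      rw [Finset.mul_sum]
      exact Finset.sum_congr rfl fun k _ => by ring
    rw [h1, horth, if_neg hij, mul_zero]
  have hbjk' : ∀ j : Fin n, (j < m ∨ β j ≠ β m) → ∀ k, b j k = if k = j then 1 else 0 := by
    intro j hj k
    rw [hbj j hj, PiLp.single_apply]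
  have hbjk : ∀ j : Fin n, j < m → ∀ k, b j k = if k = j then 1 else 0 := fun j hj =>
    hbjk' j (Or.inl hj)
  have hVB : Blk β V := by
    intro i k hik
    have h0 : b i k = 0 := by
      by_cases him : i = m
      · rw [him, hbm]
        exact hv2W k (Or.inr fun h => hik (by rw [him, h]))
      · by_cases hg : i < m ∨ β i ≠ β m
        · rw [hbjk' i hg, if_neg fun h => hik (by rw [h])]
        · push Not at hg
          have hk : β k ≠ β m := fun h => hik (hg.2.trans h.symm)
          have h2 := horth k i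
          have hki : k ≠ i := fun h => hik (by rw [h])
          rw [if_neg hki, Finset.sum_eq_single k] at h2
          · rw [hbjk' k (Or.inr hk), if_pos rfl, star_one, one_mul] at h2
            exact h2
          · intro l _ hl
            rw [hbjk' k (Or.inr hk), if_neg hl, star_zero, zero_mul]
          · intro h
            exact absurd (Finset.mem_univ k) h
    change star (b i k) = 0
    rw [h0, star_zero]
  refine ⟨V, hV, hVB, fun j hj l hl => ⟨?_, ?_⟩, fun l hl => ?_⟩
  · refine hcol j (A j j) (fun k => ?_) l hl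
    simp only [hbjk j hj, mul_ite, mul_one, mul_zero, Finset.sum_ite_eq', Finset.mem_univ, if_true]
    by_cases hk : k = j
    · rw [if_pos hk, hk]
    · rw [if_neg hk, (hA j hj k hk).1]
  · rw [hent]
    have h1 : ∑ k, star (b j k) * ∑ l', A k l' * b l l' = ∑ l', A j l' * b l l' := by
      rw [Finset.sum_eq_single j]
      · rw [hbjk j hj, if_pos rfl, star_one, one_mul]
      · intro k _ hk
        rw [hbjk j hj, if_neg hk, star_zero, zero_mul]
      · intro h
        exact absurd (Finset.mem_univ j) h
    rw [h1, Finset.sum_eq_single j]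
    · have h2 := horth j l
      rw [if_neg (Ne.symm hl), Finset.sum_eq_single j] at h2
      · rw [hbjk j hj, if_pos rfl, star_one, one_mul] at h2
        rw [h2, mul_zero]
      · intro k _ hk
        rw [hbjk j hj, if_neg hk, star_zero, zero_mul]
      · intro h
        exact absurd (Finset.mem_univ j) h
    · intro l' _ hl'
      rw [(hA j hj l' hl').2, zero_mul]
    · intro h
      exact absurd (Finset.mem_univ j) h
  · refine hcol m μ (fun k => ?_) l hl
    rw [hbm]
    exact hv2eq k

/-- diagonalisation in a hull without discs. -/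
theorem diagonalize {K : Set (Fin n × Fin n → ℂ)} (hB : BSub β K) (hK : CInv β K)
    (hno : ¬ HasDisc (hull K)) {z : Fin n × Fin n → ℂ} (hz : z ∈ hull K) :
    ∃ U ∈ Matrix.unitaryGroup (Fin n) ℂ, Blk β U ∧
      ∃ d : Fin n → ℂ, U * mt z * star U = Matrix.diagonal d := by
  have hzB : Blk β (mt z) := hB.hull z hz
  have key : ∀ m : ℕ, m ≤ n → ∃ U ∈ Matrix.unitaryGroup (Fin n) ℂ, Blk β U ∧
      ∀ j : Fin n, (j : ℕ) < m →
      ∀ l, l ≠ j → (U * mt z * star U) l j = 0 ∧ (U * mt z * star U) j l = 0 := by
    intro m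
    induction m with
    | zero =>
      intro _
      exact ⟨1, one_mem _, Blk.one, fun j hj => absurd hj (Nat.not_lt_zero _)⟩
    | succ m ih =>
      intro hm
      obtain ⟨U, hU, hUB, hA⟩ := ih (by omega)
      have hmn : m < n := by omega
      obtain ⟨M, hM⟩ : ∃ M : Fin n, (M : ℕ) = m := ⟨⟨m, hmn⟩, rfl⟩
      obtain ⟨V, hV, hVB, h1, h2⟩ := column_step (U * mt z * star U) ((hUB.mul hzB).mul hUB.star) M
        (fun j hj l hl => hA j (hM ▸ hj) l hl)
      have hVU : V * (U * mt z * star U) * star V = (V * U) * mt z * star (V * U) := by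
        rw [star_mul]
        simp only [Matrix.mul_assoc]
      rw [hVU] at h1 h2
      have hVU' : V * U ∈ Matrix.unitaryGroup (Fin n) ℂ := mul_mem hV hU
      refine ⟨V * U, hVU', hVB.mul hUB, fun j hj l hl => ?_⟩
      rcases Nat.lt_or_ge j m with h | h
      · exact h1 j (Fin.lt_def.2 (by omega)) l hl
      · have hjm : j = M := Fin.ext (by omega)
        subst hjm
        refine ⟨h2 l hl, ?_⟩
        exact row_zero hK hno (hK.hull _ hVU' (hVB.mul hUB) z hz) j (fun l hl => h2 l hl) l hl
  obtain ⟨U, hU, hUB, h⟩ := key n le_rfl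
  refine ⟨U, hU, hUB, fun i => (U * mt z * star U) i i, ?_⟩
  ext i j
  by_cases hij : i = j
  · rw [hij, Matrix.diagonal_apply_eq]
  · rw [Matrix.diagonal_apply_ne _ hij]
    exact (h j j.2 i hij).1

end Pool.Agent.Lib.H14P
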