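import Pool.Agent.Lib.H14P.Q2

/-!
# Q3: extension of polynomials from the diagonal matrices
-/

set_option autoImplicit false
set_option linter.unusedSectionVars false

namespace Pool.Agent.Lib.H14P

open MvPolynomial Metric

variable {n : ℕ} {κ : Type} {β : Fin n → κ}

/-- the generic matrix. -/
noncomputable def gen (n : ℕ) : Matrix (Fin n) (Fin n) (MvPolynomial (Fin n × Fin n) ℂ) :=
  Matrix.of fun i j => X (i, j)

/-- extension of a monomial. -/
noncomputable def extMon (a : Fin n →₀ ℕ) : MvPolynomial (Fin n × Fin n) ℂ :=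
  Matrix.det (Matrix.of fun i j => ((gen n) ^ (a j)) i j)

/-- extension of a polynomial. -/
noncomputable def ext (p : MvPolynomial (Fin n) ℂ) : MvPolynomial (Fin n × Fin n) ℂ :=
  ∑ a ∈ p.support, C (p.coeff a) * extMon a

theorem eval_gen (z : Fin n × Fin n → ℂ) (k : ℕ) (i j : Fin n) :
    eval z (((gen n) ^ k) i j) = ((mt z) ^ k) i j := by
  have h1 : (eval z).mapMatrix ((gen n) ^ k) = (mt z) ^ k := by
    rw [map_pow]
    congr 1
    ext i j
    rw [RingHom.mapMatrix_apply, Matrix.map_apply, gen, Matrix.of_apply, eval_X, mt, Matrix.of_apply]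
  rw [← h1, RingHom.mapMatrix_apply, Matrix.map_apply]

theorem eval_extMon (z : Fin n × Fin n → ℂ) (a : Fin n →₀ ℕ) :
    eval z (extMon a) = Matrix.det (Matrix.of fun i j => ((mt z) ^ (a j)) i j) := by
  rw [extMon, RingHom.map_det]
  congr 1
  ext i j
  rw [RingHom.mapMatrix_apply, Matrix.map_apply, Matrix.of_apply, Matrix.of_apply, eval_gen]

/-- the weights. -/
noncomputable def wt (V : Matrix (Fin n) (Fin n) ℂ) (π : Equiv.Perm (Fin n)) : ℂ :=
  V.det * (((Equiv.Perm.sign π : ℤ) : ℂ) * ∏ j, star (V j (π j)))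

theorem norm_wt {V : Matrix (Fin n) (Fin n) ℂ} (hV : V ∈ Matrix.unitaryGroup (Fin n) ℂ)
    (π : Equiv.Perm (Fin n)) : ‖wt V π‖ ≤ 1 := by
  have h1 : ‖V.det‖ = 1 := by
    have h2 := Matrix.det_of_mem_unitary hV
    have h3 := Unitary.mul_star_self_of_mem h2
    have h4 := congrArg norm h3
    rw [norm_mul, norm_star, norm_one] at h4
    nlinarith [norm_nonneg V.det]
  have h2 : ‖((Equiv.Perm.sign π : ℤ) : ℂ)‖ = 1 := by
    rcases Int.units_eq_one_or (Equiv.Perm.sign π) with h | h <;> rw [h] <;> simp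
  rw [wt, norm_mul, norm_mul, h1, h2, one_mul, one_mul, norm_prod]
  refine Finset.prod_le_one (fun j _ => norm_nonneg _) fun j _ => ?_
  rw [norm_star]
  exact entry_norm_bound_of_unitary hV j (π j)

theorem wt_zero {V : Matrix (Fin n) (Fin n) ℂ} (hV : Blk β V) (π : Equiv.Perm (Fin n))
    (h : ¬ ∀ j, β (π j) = β j) : wt V π = 0 := by
  push Not at h
  obtain ⟨j, hj⟩ := h
  have h1 : star (V j (π j)) = 0 := by rw [hV j (π j) (Ne.symm hj), star_zero]
  rw [wt, Finset.prod_eq_zero (Finset.mem_univ j) h1, mul_zero, mul_zero]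

theorem eval_extMon_of_diag {V : Matrix (Fin n) (Fin n) ℂ} (hV : V ∈ Matrix.unitaryGroup (Fin n) ℂ)
    {z : Fin n × Fin n → ℂ} {d : Fin n → ℂ} (hz : mt z = V * Matrix.diagonal d * star V)
    (a : Fin n →₀ ℕ) : eval z (extMon a) = ∑ π, wt V π * ∏ j, d (π j) ^ a j := by
  have hpow : ∀ k : ℕ, (mt z) ^ k = V * Matrix.diagonal (fun i => d i ^ k) * star V := by
    intro k
    induction k with
    | zero =>
      have : (fun i => d i ^ 0) = fun _ => (1 : ℂ) := by
        funext i
        exact pow_zero _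
      rw [pow_zero, this, Matrix.diagonal_one, mul_one, Unitary.mul_star_self_of_mem hV]
    | succ k ih =>
      rw [pow_succ, ih, hz]
      have h1 : V * Matrix.diagonal (fun i => d i ^ k) * star V * (V * Matrix.diagonal d * star V) =
          V * (Matrix.diagonal (fun i => d i ^ k) * (star V * V) * Matrix.diagonal d) * star V := by
        simp only [Matrix.mul_assoc]
      rw [h1, Unitary.star_mul_self_of_mem hV, mul_one, Matrix.diagonal_mul_diagonal]
      congr 2
  have hM : (Matrix.of fun i j => ((mt z) ^ (a j)) i j) =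
      V * (Matrix.of fun l j => d l ^ a j * star (V j l)) := by
    ext i j
    rw [Matrix.of_apply, hpow, Matrix.mul_assoc, Matrix.mul_apply, Matrix.mul_apply]
    refine Finset.sum_congr rfl fun l _ => ?_
    rw [Matrix.diagonal_mul, Matrix.star_apply, Matrix.of_apply]
  have hdet := Matrix.det_apply (Matrix.of fun l j => d l ^ a j * star (V j l))
  rw [eval_extMon, hM, Matrix.det_mul, hdet, Finset.mul_sum]
  refine Finset.sum_congr rfl fun π _ => ?_
  rw [wt]
  simp only [Matrix.of_apply]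
  rw [Finset.prod_mul_distrib, Units.smul_def, zsmul_eq_mul]
  ring

theorem eval_ext_of_diag {V : Matrix (Fin n) (Fin n) ℂ} (hV : V ∈ Matrix.unitaryGroup (Fin n) ℂ)
    {z : Fin n × Fin n → ℂ} {d : Fin n → ℂ} (hz : mt z = V * Matrix.diagonal d * star V)
    (p : MvPolynomial (Fin n) ℂ) : eval z (ext p) = ∑ π, wt V π * eval (fun j => d (π j)) p := by
  rw [ext, map_sum]
  have h1 : ∀ a ∈ p.support, eval z (C (p.coeff a) * extMon a) =
      ∑ π, wt V π * (p.coeff a * ∏ j, d (π j) ^ a j) := by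
    intro a _
    rw [map_mul, eval_C, eval_extMon_of_diag hV hz, Finset.mul_sum]
    exact Finset.sum_congr rfl fun π _ => by ring
  rw [Finset.sum_congr rfl h1, Finset.sum_comm]
  refine Finset.sum_congr rfl fun π _ => ?_
  rw [eval_eq', Finset.mul_sum]

/-- diagonal points. -/
def dg (y : Fin n → ℂ) : Fin n × Fin n → ℂ := fun p => if p.1 = p.2 then y p.1 else 0

theorem mt_dg (y : Fin n → ℂ) : mt (dg y) = Matrix.diagonal y := rfl

theorem pm_diagonal (y : Fin n → ℂ) : pm (Matrix.diagonal y) = dg y := rfl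

theorem eval_ext_dg (y : Fin n → ℂ) (p : MvPolynomial (Fin n) ℂ) :
    eval (dg y) (ext p) = eval y p := by
  rw [ext, map_sum, eval_eq']
  refine Finset.sum_congr rfl fun a _ => ?_
  rw [map_mul, eval_C, eval_extMon]
  congr 1
  have h1 : (Matrix.of fun i j => ((mt (dg y)) ^ (a j)) i j) =
      Matrix.diagonal fun j => y j ^ a j := by
    ext i j
    rw [Matrix.of_apply, mt_dg, Matrix.diagonal_pow]
    by_cases h : i = j
    · rw [h, Matrix.diagonal_apply_eq, Matrix.diagonal_apply_eq, Pi.pow_apply]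
    · rw [Matrix.diagonal_apply_ne _ h, Matrix.diagonal_apply_ne _ h]
  rw [h1, Matrix.det_diagonal]

/-- the slice of diagonal matrices. -/
def dslice (K : Set (Fin n × Fin n → ℂ)) : Set (Fin n → ℂ) := {y | dg y ∈ K}

theorem dslice_perm {K : Set (Fin n × Fin n → ℂ)} (hK : CInv β K) (π : Equiv.Perm (Fin n))
    (hπ : ∀ j, β (π j) = β j) {y : Fin n → ℂ} (hy : y ∈ dslice K) : (fun j => y (π j)) ∈ dslice K := by
  let P : Matrix (Fin n) (Fin n) ℂ := Matrix.of fun i j => if π i = j then 1 else 0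
  have hP : ∀ i j, P i j = if π i = j then 1 else 0 := fun i j => rfl
  have hPs : ∀ i j, (star P) i j = if π j = i then 1 else 0 := by
    intro i j
    rw [Matrix.star_apply, hP]
    by_cases h : π j = i
    · rw [if_pos h, star_one]
    · rw [if_neg h, star_zero]
  have hmul : ∀ (A : Matrix (Fin n) (Fin n) ℂ) i j, (P * A * star P) i j = A (π i) (π j) := by
    intro A i j
    rw [Matrix.mul_apply, Finset.sum_eq_single (π j)]
    · rw [hPs, if_pos rfl, mul_one, Matrix.mul_apply, Finset.sum_eq_single (π i)]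
      · rw [hP, if_pos rfl, one_mul]
      · intro l _ hl
        rw [hP, if_neg (Ne.symm hl), zero_mul]
      · intro h
        exact absurd (Finset.mem_univ _) h
    · intro l _ hl
      rw [hPs, if_neg (Ne.symm hl), mul_zero]
    · intro h
      exact absurd (Finset.mem_univ _) h
  have hPU : P ∈ Matrix.unitaryGroup (Fin n) ℂ := by
    rw [Matrix.mem_unitaryGroup_iff]
    ext i j
    have h1 := hmul 1 i j
    rw [mul_one] at h1
    rw [h1, Matrix.one_apply, Matrix.one_apply]
    by_cases h : i = j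
    · rw [if_pos h, if_pos (by rw [h])]
    · rw [if_neg h, if_neg fun h' => h (π.injective h')]
  have hPB : Blk β P := by
    intro i j h
    rw [hP, if_neg fun h' => h (by rw [← h', hπ])]
  have h2 := hK P hPU hPB (dg y) hy
  have h3 : pm (P * mt (dg y) * star P) = dg fun j => y (π j) := by
    funext p
    obtain ⟨i, j⟩ := p
    change (P * mt (dg y) * star P) i j = if i = j then y (π i) else 0
    rw [hmul, mt_dg]
    by_cases h : i = j
    · rw [if_pos h, h, Matrix.diagonal_apply_eq]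
    · rw [if_neg h, Matrix.diagonal_apply_ne _ fun h' => h (π.injective h')]
  rw [h3] at h2
  exact h2

theorem dg_mem_hull {K : Set (Fin n × Fin n → ℂ)} {y : Fin n → ℂ} (hy : y ∈ hull (dslice K)) :
    dg y ∈ hull K := by
  have key : ∀ w : Fin n → ℂ, (fun p : Fin n × Fin n =>
      eval w (if p.1 = p.2 then X p.1 else 0 : MvPolynomial (Fin n) ℂ)) = dg w := by
    intro w
    funext p
    rw [dg]
    by_cases h : p.1 = p.2
    · rw [if_pos h, if_pos h, eval_X]
    · rw [if_neg h, if_neg h, map_zero]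
  have h1 := p2_map (K := dslice K) (K' := K)
    (fun p : Fin n × Fin n => (if p.1 = p.2 then X p.1 else 0 : MvPolynomial (Fin n) ℂ))
    (fun w hw => by rw [key]; exact p1_subset hw) hy
  rwa [key] at h1

theorem disc_of_dslice {K : Set (Fin n × Fin n → ℂ)} (h : HasDisc (hull (dslice K))) :
    HasDisc (hull K) := by
  obtain ⟨f, hf, ⟨a, ha, b, hb, hab⟩, hfS⟩ := h
  refine ⟨fun ζ => dg (f ζ), ?_, ⟨a, ha, b, hb, fun he => hab ?_⟩,
    fun ζ hζ => dg_mem_hull (hfS ζ hζ)⟩
  · rw [differentiableOn_pi]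
    intro p
    simp only [dg]
    by_cases h : p.1 = p.2
    · simp only [if_pos h]
      exact differentiableOn_pi.1 hf p.1
    · simp only [if_neg h]
      exact differentiableOn_const 0
  · funext i
    have h1 := congrFun he (i, i)
    have h2 : ∀ y : Fin n → ℂ, dg y (i, i) = y i := fun y => if_pos rfl
    simp only at h1
    rwa [h2, h2] at h1

/-- every point of a hull without discs is conjugate to a diagonal one. -/
theorem to_diag {K : Set (Fin n × Fin n → ℂ)} (hB : BSub β K) (hK : CInv β K)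
    (hno : ¬ HasDisc (hull K)) {z : Fin n × Fin n → ℂ} (hz : z ∈ hull K) :
    ∃ V ∈ Matrix.unitaryGroup (Fin n) ℂ, Blk β V ∧
      ∃ d : Fin n → ℂ, mt z = V * Matrix.diagonal d * star V ∧ dg d ∈ hull K ∧
        (z ∈ K ↔ dg d ∈ K) := by
  obtain ⟨U, hU, hUB, d, hd⟩ := diagonalize hB hK hno hz
  have hU' : star U ∈ Matrix.unitaryGroup (Fin n) ℂ := Unitary.star_mem hU
  have h1 : mt z = star U * Matrix.diagonal d * star (star U) := by
    rw [← hd, star_star]
    have h2 : star U * (U * mt z * star U) * U = (star U * U) * mt z * (star U * U) := by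
      simp only [Matrix.mul_assoc]
    rw [h2, Unitary.star_mul_self_of_mem hU, one_mul, mul_one]
  refine ⟨star U, hU', hUB.star, d, h1, ?_, ?_, ?_⟩
  · rw [← pm_diagonal, ← hd]
    exact hK.hull U hU hUB z hz
  · intro h
    rw [← pm_diagonal, ← hd]
    exact hK U hU hUB z h
  · intro h
    have h2 := hK (star U) hU' hUB.star _ h
    rwa [mt_dg, ← h1, pm_mt] at h2

theorem q3_main {K : Set (Fin n × Fin n → ℂ)} (hB : BSub β K) (hK : CInv β K)
    (hno : ¬ HasDisc (hull K)) {x : Fin n × Fin n → ℂ} (hx : x ∈ hull K) (hxK : x ∉ K) :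
    ∃ y ∈ hull (dslice K), y ∉ dslice K := by
  classical
  obtain ⟨V, hV, -, d, -, hdH, hiff⟩ := to_diag hB hK hno hx
  refine ⟨d, fun P c hc => ?_, fun h => hxK (hiff.2 h)⟩
  obtain ⟨w0, hw0⟩ := p4_nonempty hx
  have hc0 : 0 ≤ c := by
    obtain ⟨-, -, -, d', -, -, hiff'⟩ := to_diag hB hK hno (p1_subset hw0)
    exact (norm_nonneg _).trans (hc d' (hiff'.1 hw0))
  refine p4_pow _ _ (Fintype.card (Equiv.Perm (Fin n))) (norm_nonneg _) hc0 fun s => ?_
  rw [← norm_pow, ← map_pow, ← eval_ext_dg]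
  refine hdH _ _ fun w hw => ?_
  obtain ⟨V', hV', hVB', d', hd', -, hiff'⟩ := to_diag hB hK hno (p1_subset hw)
  have hd'S : d' ∈ dslice K := hiff'.1 hw
  rw [eval_ext_of_diag hV' hd']
  calc ‖∑ π, wt V' π * eval (fun j => d' (π j)) (P ^ s)‖
      ≤ ∑ π, ‖wt V' π * eval (fun j => d' (π j)) (P ^ s)‖ := norm_sum_le _ _
    _ ≤ ∑ _π : Equiv.Perm (Fin n), c ^ s := by
        refine Finset.sum_le_sum fun π _ => ?_
        by_cases hπ : ∀ j, β (π j) = β j
        swap
        · rw [wt_zero hVB' π hπ, zero_mul, norm_zero]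
          exact pow_nonneg hc0 s
        rw [norm_mul, map_pow, norm_pow]
        calc ‖wt V' π‖ * ‖eval (fun j => d' (π j)) P‖ ^ s
            ≤ 1 * ‖eval (fun j => d' (π j)) P‖ ^ s :=
              mul_le_mul_of_nonneg_right (norm_wt hV' π) (by positivity)
          _ = ‖eval (fun j => d' (π j)) P‖ ^ s := one_mul _
          _ ≤ c ^ s := pow_le_pow_left₀ (norm_nonneg _) (hc _ (dslice_perm hK π hπ hd'S)) s
    _ = Fintype.card (Equiv.Perm (Fin n)) * c ^ s := by
        rw [Finset.sum_const, Finset.card_univ, nsmul_eq_mul]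

end Pool.Agent.Lib.H14P
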