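import Pool.Agent.Lib.H14P.Q3
import Pool.Agent.Lib.H14P.P6

/-!
# Q4: block matrices, the reduction and the two-sided case
-/

set_option autoImplicit false
set_option linter.unusedSectionVars false

namespace Pool.Agent.Lib.H14P

open MvPolynomial Metric

variable {n : ℕ} {κ : Type} {β : Fin n → κ}

theorem q4_red {K : Set (Fin n × Fin n → ℂ)} (hB : BSub β K) (hK : CInv β K)
    (h : Hol (dslice K)) : Hol K := by
  rintro ⟨x, hx, hxK⟩
  by_contra hno
  exact hno (disc_of_dslice (h (q3_main hB hK hno hx hxK)))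

theorem dg_continuous : Continuous (dg : (Fin n → ℂ) → (Fin n × Fin n → ℂ)) := by
  refine continuous_pi fun p => ?_
  simp only [dg]
  by_cases h : p.1 = p.2
  · simp only [if_pos h]
    exact continuous_apply p.1
  · simp only [if_neg h]
    exact continuous_const

theorem dslice_isCompact {K : Set (Fin n × Fin n → ℂ)} (hK : IsCompact K) :
    IsCompact (dslice K) := by
  obtain ⟨R, hR⟩ := hK.isBounded.exists_norm_le
  refine (isCompact_closedBall (0 : Fin n → ℂ) (max R 0)).of_isClosed_subset
    (hK.isClosed.preimage dg_continuous) ?_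
  intro y hy
  rw [mem_closedBall_zero_iff, pi_norm_le_iff_of_nonneg (le_max_right _ _)]
  intro i
  have h1 := (norm_le_pi_norm (dg y) (i, i)).trans (hR _ hy)
  have h2 : dg y (i, i) = y i := if_pos rfl
  rw [h2] at h1
  exact h1.trans (le_max_left _ _)

theorem q4_abelian {K : Set (Fin n × Fin n → ℂ)} (hK : IsCompact K) (hB : BSub β K)
    (hinv : CInv β K)
    (G : Subgroup (Fin n → Circle))
    (hG : ∀ a b : Fin n → ℕ, (∀ u ∈ G, ∏ i, u i ^ a i = 1) → (∀ u ∈ G, ∏ i, u i ^ b i = 1) →
      ∃ p q : ℕ, (p ≠ 0 ∨ q ≠ 0) ∧ ∀ i, p * a i = q * b i)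
    (hGK : ∀ u ∈ G, ∀ y ∈ dslice K, (fun i => (u i : ℂ) * y i) ∈ dslice K) : Hol K := by
  refine q4_red hB hinv ?_
  rintro ⟨y, hy, hyS⟩
  exact Pool.Agent.Lib.Helper34.PH.ph14_main (dslice_isCompact hK) G hG hGK y hy hyS

/-- invariance under multiplication by block special unitary matrices on both sides. -/
def TInv (β : Fin n → κ) (K : Set (Fin n × Fin n → ℂ)) : Prop :=
  ∀ U ∈ Matrix.specialUnitaryGroup (Fin n) ℂ, Blk β U →
    ∀ V ∈ Matrix.specialUnitaryGroup (Fin n) ℂ, Blk β V → ∀ z ∈ K, pm (U * mt z * V) ∈ K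

theorem TInv.cinv {K : Set (Fin n × Fin n → ℂ)} (hK : TInv β K) : CInv β K := by
  intro U hU hUB z hz
  have hn1 : ‖U.det‖ = 1 := by
    have h3 := Unitary.mul_star_self_of_mem (Matrix.det_of_mem_unitary hU)
    have h4 := congrArg norm h3
    rw [norm_mul, norm_star, norm_one] at h4
    nlinarith [norm_nonneg U.det]
  obtain ⟨c, hc1, hc2⟩ : ∃ c : ℂ, c * star c = 1 ∧ c ^ n * U.det = 1 := by
    rcases Nat.eq_zero_or_pos n with h0 | hpos
    · subst h0
      refine ⟨1, by rw [star_one, mul_one], ?_⟩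
      rw [pow_zero, one_mul, Matrix.det_fin_zero]
    · have hn0 : (n : ℂ) ≠ 0 := Nat.cast_ne_zero.2 hpos.ne'
      refine ⟨Complex.exp (((-(Complex.arg U.det) / n : ℝ) : ℂ) * Complex.I), ?_, ?_⟩
      · have h3 := Complex.mul_conj (Complex.exp (((-(Complex.arg U.det) / n : ℝ) : ℂ) * Complex.I))
        rw [Complex.normSq_eq_norm_sq, Complex.norm_exp_ofReal_mul_I] at h3
        simpa using h3
      · have h1 := Complex.norm_mul_exp_arg_mul_I U.det
        rw [hn1, Complex.ofReal_one, one_mul] at h1
        rw [← Complex.exp_nat_mul]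
        nth_rewrite 2 [← h1]
        rw [← Complex.exp_add]
        have h2 : (n : ℂ) * (((-(Complex.arg U.det) / n : ℝ) : ℂ) * Complex.I) +
            (Complex.arg U.det : ℂ) * Complex.I = 0 := by
          push_cast
          field_simp
          ring
        rw [h2, Complex.exp_zero]
  have hcU : c • U ∈ Matrix.unitaryGroup (Fin n) ℂ := by
    rw [Matrix.mem_unitaryGroup_iff, star_smul, smul_mul_smul_comm, hc1, one_smul]
    exact Unitary.mul_star_self_of_mem hU
  have hcS : c • U ∈ Matrix.specialUnitaryGroup (Fin n) ℂ := by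
    rw [Matrix.mem_specialUnitaryGroup_iff]
    refine ⟨hcU, ?_⟩
    rw [Matrix.det_smul, Fintype.card_fin]
    exact hc2
  have hcS' : star (c • U) ∈ Matrix.specialUnitaryGroup (Fin n) ℂ := by
    rw [Matrix.mem_specialUnitaryGroup_iff]
    refine ⟨Unitary.star_mem hcU, ?_⟩
    rw [Matrix.star_eq_conjTranspose, Matrix.det_conjTranspose,
      (Matrix.mem_specialUnitaryGroup_iff.1 hcS).2, star_one]
  have hcB : Blk β (c • U) := by
    intro i j h
    rw [Matrix.smul_apply, hUB i j h, smul_zero]
  have h5 := hK _ hcS hcB _ hcS' hcB.star z hz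
  have h6 : c • U * mt z * star (c • U) = U * mt z * star U := by
    rw [star_smul, Matrix.smul_mul, Matrix.smul_mul, Matrix.mul_smul, smul_smul, hc1, one_smul]
  rwa [h6] at h5

/-- the diagonal unitary matrices of determinant one. -/
def torus (n : ℕ) : Subgroup (Fin n → Circle) where
  carrier := {u | ∏ i, u i = 1}
  mul_mem' := by
    intro u v hu hv
    change ∏ i, (u * v) i = 1
    simp only [Pi.mul_apply, Finset.prod_mul_distrib]
    rw [show ∏ i, u i = 1 from hu, show ∏ i, v i = 1 from hv, mul_one]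
  one_mem' := by
    change ∏ i, (1 : Fin n → Circle) i = 1
    simp
  inv_mem' := by
    intro u hu
    change ∏ i, (u⁻¹) i = 1
    simp only [Pi.inv_apply, Finset.prod_inv_distrib]
    rw [show ∏ i, u i = 1 from hu, inv_one]

theorem torus_const {a : Fin n → ℕ} (ha : ∀ u ∈ torus n, ∏ i, u i ^ a i = 1) (i j : Fin n) :
    a i = a j := by
  by_contra hne
  have hij : i ≠ j := fun h => hne (by rw [h])
  set N : ℕ := a i + a j + 1 with hN
  have hN0 : N ≠ 0 := by omega
  let ω : Circle := Circle.exp (2 * Real.pi / N)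
  have hω : (ω : ℂ) = Complex.exp (2 * Real.pi * Complex.I / N) := by
    change ((Circle.exp (2 * Real.pi / N) : Circle) : ℂ) = _
    rw [Circle.coe_exp]
    congr 1
    push_cast
    ring
  let u : Fin n → Circle := fun l => if l = i then ω else if l = j then ω⁻¹ else 1
  have hui : u i = ω := if_pos rfl
  have huj : u j = ω⁻¹ := by
    change (if j = i then ω else if j = j then ω⁻¹ else 1) = ω⁻¹
    rw [if_neg (Ne.symm hij), if_pos rfl]
  have hprod : ∀ b : Fin n → ℕ, ∏ l, u l ^ b l = ω ^ b i * (ω⁻¹) ^ b j := by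
    intro b
    have h1 : ∏ l, u l ^ b l = ∏ l ∈ {i, j}, u l ^ b l := by
      symm
      refine Finset.prod_subset (Finset.subset_univ _) fun l _ hl => ?_
      have h2 : l ≠ i := fun h => hl (by rw [h]; simp)
      have h3 : l ≠ j := fun h => hl (by rw [h]; simp)
      change (if l = i then ω else if l = j then ω⁻¹ else 1) ^ b l = 1
      rw [if_neg h2, if_neg h3, one_pow]
    rw [h1, Finset.prod_pair hij, hui, huj]
  have hmem : u ∈ torus n := by
    change ∏ l, u l = 1
    have h1 := hprod fun _ => 1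
    simp only [pow_one] at h1
    rw [h1, mul_inv_cancel]
  have h2 := ha u hmem
  rw [hprod, inv_pow, mul_inv_eq_one] at h2
  have h3 : (ω : ℂ) ^ a i = (ω : ℂ) ^ a j := by
    rw [← Circle.coe_pow, ← Circle.coe_pow, h2]
  rw [hω] at h3
  have hprim := Complex.isPrimitiveRoot_exp N hN0
  exact hne (hprim.pow_inj (by omega) (by omega) h3)

theorem q4_two_sided {K : Set (Fin n × Fin n → ℂ)} (hK : IsCompact K) (hB : BSub β K)
    (hinv : TInv β K) : Hol K := by
  refine q4_abelian hK hB hinv.cinv (torus n) (fun a b ha hb => ?_) (fun u hu y hy => ?_)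
  · by_cases h : ∃ i : Fin n, a i ≠ 0 ∨ b i ≠ 0
    · obtain ⟨i, hi⟩ := h
      refine ⟨b i, a i, by tauto, fun j => ?_⟩
      rw [torus_const ha j i, torus_const hb j i, mul_comm]
    · push Not at h
      refine ⟨1, 1, Or.inl one_ne_zero, fun j => ?_⟩
      rw [(h j).1, (h j).2]
  · have hD : Matrix.diagonal (fun i => (u i : ℂ)) ∈ Matrix.specialUnitaryGroup (Fin n) ℂ := by
      rw [Matrix.mem_specialUnitaryGroup_iff]
      constructor
      · rw [Matrix.mem_unitaryGroup_iff, Matrix.star_eq_conjTranspose,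
          Matrix.diagonal_conjTranspose, Matrix.diagonal_mul_diagonal, ← Matrix.diagonal_one]
        congr 1
        funext i
        have h1 := Complex.mul_conj (u i : ℂ)
        rw [Complex.normSq_eq_norm_sq, Circle.norm_coe] at h1
        simpa using h1
      · rw [Matrix.det_diagonal]
        have h1 : ∏ i, u i = 1 := hu
        have h2 := congrArg Circle.coeHom h1
        rw [map_prod, map_one] at h2
        exact h2
    have h1 := hinv _ hD (Blk.diagonal _) 1 (one_mem _) Blk.one (dg y) hy
    have h2 : pm (Matrix.diagonal (fun i => (u i : ℂ)) * mt (dg y) * 1) =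
        dg fun i => (u i : ℂ) * y i := by
      rw [mul_one, mt_dg, Matrix.diagonal_mul_diagonal]
      rfl
    rw [h2] at h1
    exact h1

end Pool.Agent.Lib.H14P
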