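import Pool.Agent.Lib.H14P.P7

/-!
# Q5: the fixed points of a linear map of finite order on a real analytic submanifold form a real
analytic submanifold of the fixed space
-/

set_option autoImplicit false

namespace Pool.Agent.Lib.H14P

open Filter Topology Set Function

variable {E F : Type} [NormedAddCommGroup E] [NormedSpace ℝ E] [FiniteDimensional ℝ E]
  [NormedAddCommGroup F] [NormedSpace ℝ F] [FiniteDimensional ℝ F]

/-- sums over a period. -/
theorem q5_shift {G : Type} [AddCommGroup G] (a : ℕ → G) (N : ℕ) (h : a N = a 0) :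
    ∑ j ∈ Finset.range N, a (j + 1) = ∑ j ∈ Finset.range N, a j := by
  have h1 := Finset.sum_range_succ a N
  have h2 := Finset.sum_range_succ' a N
  rw [h1, h] at h2
  exact (add_right_cancel h2).symm

theorem q5_main (M : Set E) (h : E →L[ℝ] E) (N : ℕ) (hN : 0 < N) (hh : h ^ N = 1)
    (hM : ∀ x ∈ M, h x ∈ M)
    (e : F →L[ℝ] E) (π : E →L[ℝ] F) (hπ : ∀ y, π (e y) = y) (hfix : ∀ y, h (e y) = e y)
    (hfix' : ∀ x, h x = x → e (π x) = x) (y0 : F) (m : ℕ) (U : Set E) (g : E → (Fin m → ℝ))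
    (hU : IsOpen U) (hp : e y0 ∈ U) (hg : AnalyticOnNhd ℝ g U)
    (hsurj : ∀ x ∈ U, Surjective (fderiv ℝ g x)) (hMU : M ∩ U = {x | x ∈ U ∧ g x = 0})
    (hpM : e y0 ∈ M) :
    ∃ (m' : ℕ) (U' : Set F) (g' : F → (Fin m' → ℝ)), IsOpen U' ∧ y0 ∈ U' ∧
      AnalyticOnNhd ℝ g' U' ∧ (∀ y ∈ U', Surjective (fderiv ℝ g' y)) ∧
      (e ⁻¹' M) ∩ U' = {y | y ∈ U' ∧ g' y = 0} := by
  have hmem : ∀ x ∈ U, (x ∈ M ↔ g x = 0) := by
    intro x hx
    constructor
    · intro hxM
      have h1 : x ∈ M ∩ U := ⟨hxM, hx⟩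
      rw [hMU] at h1
      exact h1.2
    · intro h0
      have h1 : x ∈ {x | x ∈ U ∧ g x = 0} := ⟨hx, h0⟩
      rw [← hMU] at h1
      exact h1.1
  set p : E := e y0 with hpdef
  have hhp : h p = p := hfix y0
  have hgp : g p = 0 := (hmem p hp).1 hpM
  set D : E →L[ℝ] (Fin m → ℝ) := fderiv ℝ g p with hDdef
  have hD : HasStrictFDerivAt g D p := (hg p hp).hasStrictFDerivAt
  have hDs : Surjective D := hsurj p hp
  have hDr : D.range = ⊤ := LinearMap.range_eq_top.2 hDs
  -- step 1: the kernel is invariant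
  have hT : ∀ v, D v = 0 → D (h v) = 0 := by
    intro v hv
    set γ : D.ker → E := hD.implicitFunction g D hDr (g p) with hγ
    have hγd : HasStrictFDerivAt γ D.ker.subtypeL 0 := hD.to_implicitFunction hDr
    have hγ0 : γ 0 = p := hD.implicitFunction_apply_image hDr
    have hγc : Tendsto γ (𝓝 0) (𝓝 p) := by
      have := hγd.continuousAt.tendsto
      rwa [hγ0] at this
    have e1 : ∀ᶠ s in 𝓝 (0 : D.ker), g (γ s) = 0 := by
      have h1 := hD.map_implicitFunction_eq hDr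
      have h2 : Tendsto (fun s : D.ker => (g p, s)) (𝓝 0) (𝓝 (g p, 0)) :=
        (Continuous.prodMk_right (g p)).tendsto 0
      filter_upwards [h2.eventually h1] with s hs
      exact hs.trans hgp
    have e2 : ∀ᶠ s in 𝓝 (0 : D.ker), γ s ∈ U := hγc.eventually (hU.mem_nhds hp)
    have e3 : ∀ᶠ s in 𝓝 (0 : D.ker), h (γ s) ∈ U := by
      have h1 : Tendsto (fun s => h (γ s)) (𝓝 0) (𝓝 p) := by
        have h2 := (h.continuous.tendsto p).comp hγc
        rwa [hhp] at h2
      exact h1.eventually (hU.mem_nhds hp)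
    have e4 : (fun s => g (h (γ s))) =ᶠ[𝓝 (0 : D.ker)] fun _ => (0 : Fin m → ℝ) := by
      filter_upwards [e1, e2, e3] with s h1 h2 h3
      exact (hmem _ h3).1 (hM _ ((hmem _ h2).2 h1))
    have e5 : HasFDerivAt (fun s => g (h (γ s))) (D.comp (h.comp D.ker.subtypeL)) 0 := by
      have h1 : HasFDerivAt g D (h (γ 0)) := by
        rw [hγ0, hhp]
        exact hD.hasFDerivAt
      have h2 : HasFDerivAt (fun s => h (γ s)) (h.comp D.ker.subtypeL) 0 :=
        h.hasFDerivAt.comp 0 hγd.hasFDerivAt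
      exact h1.comp 0 h2
    have e6 : HasFDerivAt (fun s => g (h (γ s))) (0 : D.ker →L[ℝ] (Fin m → ℝ)) 0 :=
      (hasFDerivAt_const (0 : Fin m → ℝ) (0 : D.ker)).congr_of_eventuallyEq e4
    have e7 := e5.unique e6
    have e8 := congrArg (fun L : D.ker →L[ℝ] (Fin m → ℝ) => L ⟨v, hv⟩) e7
    exact e8
  -- right inverse
  obtain ⟨R0, hR0⟩ := LinearMap.exists_rightInverse_of_surjective (D : E →ₗ[ℝ] (Fin m → ℝ)) hDr
  set R : (Fin m → ℝ) →L[ℝ] E := LinearMap.toContinuousLinearMap R0 with hRdef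
  have hR : ∀ v, D (R v) = v := fun v => LinearMap.congr_fun hR0 v
  -- equivariant projection to the kernel
  set τ0 : E →L[ℝ] E := ContinuousLinearMap.id ℝ E - R.comp D with hτ0
  have hτ0a : ∀ x, τ0 x = x - R (D x) := fun x => rfl
  have hNR : (N : ℝ) ≠ 0 := Nat.cast_ne_zero.2 hN.ne'
  have hTj : ∀ (j : ℕ) v, D v = 0 → D ((h ^ j) v) = 0 := by
    intro j
    induction j with
    | zero => exact fun v hv => hv
    | succ j ih =>
      intro v hv
      rw [pow_succ', ContinuousLinearMap.mul_apply]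
      exact hT _ (ih v hv)
  set τ : E →L[ℝ] E := (N : ℝ)⁻¹ • ∑ j ∈ Finset.range N, (h ^ (N - j)).comp (τ0.comp (h ^ j))
    with hτ
  have hτa : ∀ x, τ x = (N : ℝ)⁻¹ • ∑ j ∈ Finset.range N, (h ^ (N - j)) (τ0 ((h ^ j) x)) := by
    intro x
    rw [hτ, ContinuousLinearMap.smul_apply, ContinuousLinearMap.sum_apply]
    rfl
  have hDτ0 : ∀ x, D (τ0 x) = 0 := by
    intro x
    rw [hτ0a, map_sub, hR, sub_self]
  have hDτ : ∀ x, D (τ x) = 0 := by
    intro x
    rw [hτa, map_smul, map_sum, Finset.sum_eq_zero fun j _ => hTj _ _ (hDτ0 _), smul_zero]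
  have hτid : ∀ v, D v = 0 → τ v = v := by
    intro v hv
    have h1 : ∀ j ∈ Finset.range N, (h ^ (N - j)) (τ0 ((h ^ j) v)) = v := by
      intro j hj
      have hj' : N - j + j = N := by
        have := Finset.mem_range.1 hj
        omega
      rw [hτ0a, hTj j v hv, map_zero, sub_zero, ← ContinuousLinearMap.mul_apply, ← pow_add, hj', hh]
      rfl
    rw [hτa, Finset.sum_congr rfl h1, Finset.sum_const, Finset.card_range, ← Nat.cast_smul_eq_nsmul ℝ,
      smul_smul, inv_mul_cancel₀ hNR, one_smul]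
  have hτh : ∀ x, τ (h x) = h (τ x) := by
    intro x
    rw [hτa, hτa, map_smul, map_sum]
    congr 1
    have h1 : ∀ j ∈ Finset.range N, (h ^ (N - j)) (τ0 ((h ^ j) (h x))) =
        (fun j => (h ^ (N + 1 - j)) (τ0 ((h ^ j) x))) (j + 1) := by
      intro j _
      simp only
      rw [pow_succ h j, ContinuousLinearMap.mul_apply, Nat.add_sub_add_right]
    have h2 : ∀ j ∈ Finset.range N, h ((h ^ (N - j)) (τ0 ((h ^ j) x))) =
        (fun j => (h ^ (N + 1 - j)) (τ0 ((h ^ j) x))) j := by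
      intro j hj
      simp only
      have hj' : N + 1 - j = (N - j) + 1 := by
        have := Finset.mem_range.1 hj
        omega
      rw [hj', pow_succ', ContinuousLinearMap.mul_apply]
    rw [Finset.sum_congr rfl h1, Finset.sum_congr rfl h2]
    have h3 : (h ^ (N + 1 - N)) (τ0 ((h ^ N) x)) = (h ^ (N + 1 - 0)) (τ0 ((h ^ 0) x)) := by
      have e1 : N + 1 - N = 1 := by omega
      rw [e1, Nat.sub_zero, pow_succ' h N, hh, pow_zero, pow_one, mul_one]
    exact q5_shift (fun j => (h ^ (N + 1 - j)) (τ0 ((h ^ j) x))) N h3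
  -- the local coordinates
  set Ψ : E → E := fun x => τ x + R (g x) with hΨ
  have hΨd : HasStrictFDerivAt Ψ (τ + R.comp D) p :=
    τ.hasStrictFDerivAt.add (R.hasStrictFDerivAt.comp p hD)
  have hinjL : Injective (τ + R.comp D) := by
    rw [injective_iff_map_eq_zero]
    intro x hx
    have h1 : τ x + R (D x) = 0 := hx
    have h2 := congrArg D h1
    rw [map_add, hDτ, hR, zero_add, map_zero] at h2
    rw [h2, map_zero, add_zero, hτid x h2] at h1
    exact h1
  have hsurjL : (τ + R.comp D).range = ⊤ :=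
    LinearMap.range_eq_top.2 (LinearMap.injective_iff_surjective.1 hinjL)
  obtain ⟨W0, hW0, hW0inj⟩ := p7_inj hΨd hinjL
  -- the matrix `B`
  have hB1 : ∀ x, D (h x) = D (h (R (D x))) := by
    intro x
    have h1 : D (x - R (D x)) = 0 := by rw [map_sub, hR, sub_self]
    have h2 := hT _ h1
    rw [map_sub, map_sub, sub_eq_zero] at h2
    exact h2
  set B : (Fin m → ℝ) →ₗ[ℝ] (Fin m → ℝ) := ((D.comp h).comp R).toLinearMap with hB
  have hBa : ∀ x, D (h x) = B (D x) := hB1
  have hBj : ∀ (j : ℕ) x, (B ^ j) (D x) = D ((h ^ j) x) := by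
    intro j
    induction j with
    | zero => exact fun x => rfl
    | succ j ih =>
      intro x
      rw [pow_succ', pow_succ', Module.End.mul_apply, ih, ContinuousLinearMap.mul_apply, hBa]
  have hBN : ∀ v, (B ^ N) v = v := by
    intro v
    obtain ⟨x, rfl⟩ := hDs v
    rw [hBj, hh]
    rfl
  set C : (Fin m → ℝ) →ₗ[ℝ] (Fin m → ℝ) := ∑ j ∈ Finset.range N, B ^ j with hC
  have hCa : ∀ v, C v = ∑ j ∈ Finset.range N, (B ^ j) v := by
    intro v
    rw [hC, LinearMap.sum_apply]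
  have hBC : ∀ v, B (C v) = C v := by
    intro v
    rw [hCa, map_sum]
    have h1 : ∀ j ∈ Finset.range N, B ((B ^ j) v) = (fun j => (B ^ j) v) (j + 1) := by
      intro j _
      simp only
      rw [pow_succ', Module.End.mul_apply]
    rw [Finset.sum_congr rfl h1]
    have h2 : (B ^ N) v = (B ^ 0) v := by
      rw [hBN, pow_zero]
      rfl
    exact q5_shift (fun j => (B ^ j) v) N h2
  have hCfix : ∀ v, B v = v → C v = (N : ℝ) • v := by
    intro v hv
    have h1 : ∀ j : ℕ, (B ^ j) v = v := by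
      intro j
      induction j with
      | zero => rfl
      | succ j ih => rw [pow_succ, Module.End.mul_apply, hv, ih]
    rw [hCa, Finset.sum_congr rfl fun j _ => h1 j, Finset.sum_const, Finset.card_range, Nat.cast_smul_eq_nsmul]
  have hCC : ∀ v, C (C v) = (N : ℝ) • C v := fun v => hCfix _ (hBC v)
  set m' : ℕ := Module.finrank ℝ (LinearMap.range C) with hm'
  set ε : LinearMap.range C ≃ₗ[ℝ] (Fin m' → ℝ) := (Module.finBasis ℝ (LinearMap.range C)).equivFun
    with hε
  set Q0 : (Fin m → ℝ) →ₗ[ℝ] (Fin m' → ℝ) := ε.toLinearMap.comp C.rangeRestrict with hQ0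
  set Q : (Fin m → ℝ) →L[ℝ] (Fin m' → ℝ) := LinearMap.toContinuousLinearMap Q0 with hQ
  have hQs : Surjective Q := ε.surjective.comp C.surjective_rangeRestrict
  have hQ0' : ∀ v, Q v = 0 ↔ C v = 0 := by
    intro v
    change ε (C.rangeRestrict v) = 0 ↔ C v = 0
    rw [LinearEquiv.map_eq_zero_iff]
    constructor
    · intro h1
      exact congrArg Subtype.val h1
    · intro h1
      exact Subtype.ext h1
  set g' : F → (Fin m' → ℝ) := fun y => Q (g (e y)) with hg'
  have hg'an : AnalyticOnNhd ℝ g' (e ⁻¹' U) := by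
    intro y hy
    exact (Q.analyticAt _).comp ((hg (e y) hy).comp (e.analyticAt y))
  have hg'd : HasStrictFDerivAt g' ((Q.comp D).comp e) y0 :=
    Q.hasStrictFDerivAt.comp y0 (hD.comp y0 e.hasStrictFDerivAt)
  have heU : IsOpen (e ⁻¹' U) := hU.preimage e.continuous
  have hy0U : y0 ∈ e ⁻¹' U := hp
  -- surjectivity at `y0`
  have hs0 : Surjective ((Q.comp D).comp e) := by
    intro t
    obtain ⟨v, rfl⟩ := hQs t
    obtain ⟨x, rfl⟩ := hDs v
    set x' : E := (N : ℝ)⁻¹ • ∑ j ∈ Finset.range N, (h ^ j) x with hx'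
    refine ⟨π x', ?_⟩
    have h1 : h x' = x' := by
      rw [hx', map_smul, map_sum]
      congr 1
      have h2 : ∀ j ∈ Finset.range N, h ((h ^ j) x) = (fun j => (h ^ j) x) (j + 1) := by
        intro j _
        simp only
        rw [pow_succ', ContinuousLinearMap.mul_apply]
      rw [Finset.sum_congr rfl h2]
      have h3 : (h ^ N) x = (h ^ 0) x := by rw [hh, pow_zero]
      exact q5_shift (fun j => (h ^ j) x) N h3
    have h3 : D x' = (N : ℝ)⁻¹ • C (D x) := by
      rw [hx', map_smul, map_sum, hCa]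
      congr 1
      exact Finset.sum_congr rfl fun j _ => (hBj j x).symm
    change Q (D (e (π x'))) = Q (D x)
    rw [hfix' _ h1, ← sub_eq_zero, ← map_sub, hQ0', h3, map_sub, map_smul, hCC, smul_smul,
      inv_mul_cancel₀ hNR, one_smul, sub_self]
  have hsn : ∀ᶠ y in 𝓝 y0, Surjective (fderiv ℝ g' y) := by
    have h1 : ContinuousAt (fderiv ℝ g') y0 := (hg'an y0 hy0U).fderiv.continuousAt
    have h2 : fderiv ℝ g' y0 = (Q.comp D).comp e := hg'd.hasFDerivAt.fderiv
    have h3 : fderiv ℝ g' y0 ∈ {L : F →L[ℝ] (Fin m' → ℝ) | Surjective L} := by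
      rw [h2]
      exact hs0
    exact h1.eventually ((p7_open m').mem_nhds h3)
  -- local injectivity on the fixed space
  obtain ⟨V0, hV0, hV0inj⟩ : ∃ V0 ∈ 𝓝 y0, ∀ y ∈ V0, ∀ y' ∈ V0, g' y = g' y' → τ (e y) = τ (e y') →
      y = y' := by
    have h1 : HasStrictFDerivAt (fun y => (g' y, τ (e y)))
        (((Q.comp D).comp e).prod (τ.comp e)) y0 :=
      hg'd.prodMk (τ.comp e).hasStrictFDerivAt
    have h2 : Injective (((Q.comp D).comp e).prod (τ.comp e)) := by
      rw [injective_iff_map_eq_zero]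
      intro w hw
      have h3 : Q (D (e w)) = 0 := congrArg Prod.fst hw
      have h4 : τ (e w) = 0 := congrArg Prod.snd hw
      have h6 : B (D (e w)) = D (e w) := by rw [← hBa, hfix]
      rw [hQ0', hCfix _ h6] at h3
      have h5 : D (e w) = 0 := (smul_eq_zero.1 h3).resolve_left hNR
      rw [hτid _ h5] at h4
      rw [← hπ w, h4, map_zero]
    obtain ⟨W, hW, hWi⟩ := p7_inj h1 h2
    exact ⟨W, hW, fun y hy y' hy' e1 e2 => hWi hy hy' (Prod.ext e1 e2)⟩
  -- the neighbourhood `W`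
  have hπp : π p = y0 := hπ y0
  set W1 : Set E := U ∩ (W0 ∩ π ⁻¹' V0) with hW1
  have hW1n : W1 ∈ 𝓝 p := by
    refine inter_mem (hU.mem_nhds hp) (inter_mem hW0 ?_)
    refine π.continuous.continuousAt.preimage_mem_nhds ?_
    rw [hπp]
    exact hV0
  set W : Set E := W1 ∩ h ⁻¹' W1 with hW
  have hWn : W ∈ 𝓝 p := by
    refine inter_mem hW1n (h.continuous.continuousAt.preimage_mem_nhds ?_)
    rw [hhp]
    exact hW1n
  have hΨp : Ψ p = τ p := by
    change τ p + R (g p) = τ p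
    rw [hgp, map_zero, add_zero]
  have himg : Ψ '' W ∈ 𝓝 (τ p) := by
    rw [← hΨp, ← hΨd.map_nhds_eq_of_surj hsurjL]
    exact image_mem_map hWn
  have hτn : ∀ᶠ y in 𝓝 y0, τ (e y) ∈ Ψ '' W :=
    (τ.continuous.comp e.continuous).continuousAt.eventually himg
  -- conclusion
  have hall : ∀ᶠ y in 𝓝 y0, y ∈ e ⁻¹' U ∧ Surjective (fderiv ℝ g' y) ∧ y ∈ V0 ∧
      τ (e y) ∈ Ψ '' W := by
    filter_upwards [heU.mem_nhds hy0U, hsn, hV0, hτn] with y h1 h2 h3 h4
    exact ⟨h1, h2, h3, h4⟩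
  obtain ⟨U', hU'sub, hU'o, hU'y⟩ := eventually_nhds_iff.1 hall
  refine ⟨m', U', g', hU'o, hU'y, fun y hy => hg'an y (hU'sub y hy).1,
    fun y hy => (hU'sub y hy).2.1, ?_⟩
  ext y
  constructor
  · rintro ⟨hyM, hy⟩
    refine ⟨hy, ?_⟩
    change Q (g (e y)) = 0
    rw [(hmem _ (hU'sub y hy).1).1 hyM, map_zero]
  · rintro ⟨hy, hy0⟩
    refine ⟨?_, hy⟩
    obtain ⟨-, -, hyV, x', hx'W, hx'⟩ := hU'sub y hy
    have hx'1 : τ x' + R (g x') = τ (e y) := hx'
    have h1 : g x' = 0 := by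
      have h2 := congrArg D hx'1
      rwa [map_add, hDτ, hR, zero_add, hDτ] at h2
    have h2 : τ x' = τ (e y) := by
      rwa [h1, map_zero, add_zero] at hx'1
    have hx'U : x' ∈ U := hx'W.1.1
    have hhx'U : h x' ∈ U := hx'W.2.1
    have hx'M : x' ∈ M := (hmem _ hx'U).2 h1
    have h3 : g (h x') = 0 := (hmem _ hhx'U).1 (hM _ hx'M)
    have h4 : Ψ (h x') = Ψ x' := by
      change τ (h x') + R (g (h x')) = τ x' + R (g x')
      rw [h1, h3, hτh, h2, ← hτh, hfix]
    have h5 : h x' = x' := hW0inj hx'W.2.2.1 hx'W.1.2.1 h4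
    have h6 : e (π x') = x' := hfix' x' h5
    have h7 : g' y = g' (π x') := by
      have h8 : g' (π x') = 0 := by
        change Q (g (e (π x'))) = 0
        rw [h6, h1, map_zero]
      rw [h8]
      exact hy0
    have h9 : y = π x' := hV0inj y hyV (π x') hx'W.1.2.2 h7 (by rw [h6, h2])
    change e y ∈ M
    rw [h9, h6]
    exact hx'M

end Pool.Agent.Lib.H14P
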