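import Pool.Agent.Lib.H14P.Q4
import Pool.Agent.Lib.H14P.Q5
import Pool.Agent.Lib.H14P.P8

/-!
# Q6: the diagonal slice of a real analytic submanifold
-/

set_option autoImplicit false
set_option linter.unusedSectionVars false

namespace Pool.Agent.Lib.H14P

open MvPolynomial Metric

variable {n : ℕ} {κ : Type} {β : Fin n → κ}

theorem q6_main {K : Set (Fin n × Fin n → ℂ)} (hK : CInv β K) (hS : Sub K) : Sub (dslice K) := by
  intro y0 hy0
  obtain ⟨m, U, g, hU, hp, hg, hsurj, hMU⟩ := hS (dg y0) hy0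
  have hprim := Complex.isPrimitiveRoot_exp (n + 1) (Nat.succ_ne_zero n)
  set ω : ℂ := Complex.exp (2 * Real.pi * Complex.I / (n + 1 : ℕ)) with hω
  have hω1 : ω ^ (n + 1) = 1 := hprim.pow_eq_one
  have hωn : ‖ω‖ = 1 := hprim.norm'_eq_one (Nat.succ_ne_zero n)
  have hω0 : ω ≠ 0 := by
    rw [← norm_ne_zero_iff, hωn]
    exact one_ne_zero
  have hωs : star ω = ω⁻¹ := by
    have h1 := Complex.mul_conj ω
    rw [Complex.normSq_eq_norm_sq, hωn] at h1
    have h2 : ω * star ω = 1 := by simpa using h1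
    exact eq_inv_of_mul_eq_one_right h2
  let c : Fin n × Fin n → ℂ := fun p => ω ^ (p.1 : ℕ) * (ω⁻¹) ^ (p.2 : ℕ)
  have hcN : ∀ p, c p ^ (n + 1) = 1 := by
    intro p
    change (ω ^ (p.1 : ℕ) * (ω⁻¹) ^ (p.2 : ℕ)) ^ (n + 1) = 1
    rw [mul_pow, ← pow_mul, ← pow_mul, mul_comm (p.1 : ℕ), mul_comm (p.2 : ℕ), pow_mul, pow_mul,
      inv_pow, hω1, inv_one, one_pow, one_pow, one_mul]
  have hc1 : ∀ p : Fin n × Fin n, p.1 = p.2 → c p = 1 := by
    intro p h
    change ω ^ (p.1 : ℕ) * (ω⁻¹) ^ (p.2 : ℕ) = 1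
    rw [h, ← mul_pow, mul_inv_cancel₀ hω0, one_pow]
  have hc2 : ∀ p : Fin n × Fin n, p.1 ≠ p.2 → c p ≠ 1 := by
    intro p h h1
    have h2 : ω ^ (p.1 : ℕ) * (ω⁻¹) ^ (p.2 : ℕ) = 1 := h1
    rw [inv_pow, mul_inv_eq_one₀ (pow_ne_zero _ hω0)] at h2
    have h3 := hprim.pow_inj (by omega) (by omega) h2
    exact h (Fin.ext h3)
  let h : (Fin n × Fin n → ℂ) →L[ℝ] (Fin n × Fin n → ℂ) :=
    ContinuousLinearMap.pi fun p => (c p) • (ContinuousLinearMap.proj p :
      (Fin n × Fin n → ℂ) →L[ℝ] ℂ)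
  let e : (Fin n → ℂ) →L[ℝ] (Fin n × Fin n → ℂ) :=
    ContinuousLinearMap.pi fun p => if p.1 = p.2 then ContinuousLinearMap.proj p.1 else 0
  let π : (Fin n × Fin n → ℂ) →L[ℝ] (Fin n → ℂ) :=
    ContinuousLinearMap.pi fun i => ContinuousLinearMap.proj (i, i)
  have hh : ∀ z p, h z p = c p * z p := fun z p => rfl
  have hhj : ∀ (j : ℕ) z p, (h ^ j) z p = c p ^ j * z p := by
    intro j
    induction j with
    | zero =>
      intro z p
      rw [pow_zero, pow_zero, one_mul]
      rfl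
    | succ j ih =>
      intro z p
      have h1 : (h ^ (j + 1)) z = h ((h ^ j) z) := by
        rw [pow_succ']
        rfl
      rw [h1, hh, ih, pow_succ]
      ring
  have he : ∀ y, e y = dg y := by
    intro y
    funext q
    change (if q.1 = q.2 then ContinuousLinearMap.proj q.1 else 0 : (Fin n → ℂ) →L[ℝ] ℂ) y = _
    rw [dg]
    by_cases hq : q.1 = q.2
    · rw [if_pos hq, if_pos hq]
      rfl
    · rw [if_neg hq, if_neg hq]
      rfl
  have hπ : ∀ z i, π z i = z (i, i) := fun z i => rfl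
  have hpowU : ∀ k : ℕ, ω ^ k * star (ω ^ k) = 1 := by
    intro k
    rw [star_pow, hωs, ← mul_pow, mul_inv_cancel₀ hω0, one_pow]
  obtain ⟨m', U', g', hU', hy0', hg', hs', heq⟩ := q5_main K h (n + 1) (Nat.succ_pos n)
    (by
      ext z p
      rw [hhj, hcN, one_mul]
      rfl)
    (by
      intro z hz
      have hD : Matrix.diagonal (fun i : Fin n => ω ^ (i : ℕ)) ∈ Matrix.unitaryGroup (Fin n) ℂ := by
        rw [Matrix.mem_unitaryGroup_iff, Matrix.star_eq_conjTranspose,
          Matrix.diagonal_conjTranspose, Matrix.diagonal_mul_diagonal, ← Matrix.diagonal_one]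
        congr 1
        funext i
        exact hpowU i
      have h1 := hK _ hD (Blk.diagonal _) z hz
      have h2 : pm (Matrix.diagonal (fun i : Fin n => ω ^ (i : ℕ)) * mt z *
          star (Matrix.diagonal (fun i : Fin n => ω ^ (i : ℕ)))) = h z := by
        funext p
        obtain ⟨a, b⟩ := p
        rw [hh]
        change (Matrix.diagonal (fun i : Fin n => ω ^ (i : ℕ)) * mt z *
          star (Matrix.diagonal (fun i : Fin n => ω ^ (i : ℕ)))) a b =
          ω ^ (a : ℕ) * (ω⁻¹) ^ (b : ℕ) * z (a, b)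
        rw [Matrix.star_eq_conjTranspose, Matrix.diagonal_conjTranspose, Matrix.mul_diagonal,
          Matrix.diagonal_mul, Pi.star_apply, star_pow, hωs]
        change ω ^ (a : ℕ) * z (a, b) * (ω⁻¹) ^ (b : ℕ) = _
        ring
      rwa [h2] at h1)
    e π
    (by
      intro y
      funext i
      rw [hπ, he]
      exact if_pos rfl)
    (by
      intro y
      funext q
      rw [hh, he, dg]
      by_cases hq : q.1 = q.2
      · rw [if_pos hq, hc1 q hq, one_mul]
      · rw [if_neg hq, mul_zero])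
    (by
      intro z hz
      rw [he]
      funext q
      rw [dg]
      by_cases hq : q.1 = q.2
      · rw [if_pos hq, hπ]
        obtain ⟨i, l⟩ := q
        simp only at hq
        rw [hq]
      · rw [if_neg hq]
        have h1 := congrFun hz q
        rw [hh] at h1
        have h2 : (c q - 1) * z q = 0 := by
          rw [sub_mul, one_mul, h1, sub_self]
        rcases mul_eq_zero.1 h2 with h3 | h3
        · exact absurd (sub_eq_zero.1 h3) (hc2 q hq)
        · exact h3.symm)
    y0 m U g hU (by rw [he]; exact hp) hg hsurj hMU (by rw [he]; exact hy0)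
  refine ⟨m', U', g', hU', hy0', hg', hs', ?_⟩
  rw [← heq]
  ext y
  constructor
  · rintro ⟨h1, h2⟩
    refine ⟨?_, h2⟩
    change e y ∈ K
    rw [he]
    exact h1
  · rintro ⟨h1, h2⟩
    refine ⟨?_, h2⟩
    have h3 : e y ∈ K := h1
    rw [he] at h3
    exact h3

end Pool.Agent.Lib.H14P
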